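import Pool.Agent.RelM.Targets

/-!
# Machine lemmas and the enumeration of the words (job LOC)
-/

set_option autoImplicit false

namespace Pool.Agent.RelM

/-! ## Machines -/

theorem run_zero (O : Lang) (P : List Instr) (x : List Bool) :
    run O P x 0 = ⟨0, Function.update (fun _ => []) 0 x⟩ := rfl

theorem run_succ (O : Lang) (P : List Instr) (x : List Bool) (t : ℕ) :
    run O P x (t + 1) = step O P (run O P x t) := by
  unfold run
  rw [Function.iterate_succ_apply']

theorem loc : T_LOC := by
  intro O O' P x t h s
  induction s with
  | zero => intro _; rfl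
  | succ s ih =>
    intro hs
    have hs' : s < t := hs
    rw [run_succ, run_succ, ih hs'.le]
    have hq := h s hs'
    unfold Asks at hq
    generalize run O P x s = c at hq
    unfold step
    rcases hp : P[c.pc]? with _ | ⟨i, b⟩ | ⟨i, l₀, l₁, l₂⟩ | ⟨i, l₀, l₁⟩
    · rfl
    · rfl
    · rfl
    · have e : O (c.st i) = O' (c.st i) := hq _ ⟨i, l₀, l₁, hp, rfl⟩
      simp only [e]

/-- The stacks are short. -/
theorem st_len (O : Lang) (P : List Instr) (x : List Bool) (s i : ℕ) :
    ((run O P x s).st i).length ≤ x.length + s := by
  induction s generalizing i with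
  | zero =>
    rw [run_zero]
    by_cases h : i = 0
    · subst h; simp
    · simp [Function.update_of_ne h]
  | succ s ih =>
    rw [run_succ]
    generalize run O P x s = c at ih
    unfold step
    rcases hp : P[c.pc]? with _ | ⟨k, b⟩ | ⟨k, l₀, l₁, l₂⟩ | ⟨k, l₀, l₁⟩
    · exact (ih i).trans (by omega)
    · by_cases h : i = k
      · subst h
        have := ih i
        simp only [Function.update_self, List.length_cons]
        omega
      · simp only [Function.update_of_ne h]
        exact (ih i).trans (by omega)
    · rcases hc : c.st k with _ | ⟨b, u⟩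
      · simp only [hc]
        exact (ih i).trans (by omega)
      · have hk := ih k
        rw [hc, List.length_cons] at hk
        have hu : (Function.update c.st k u i).length ≤ x.length + (s + 1) := by
          by_cases h : i = k
          · subst h
            rw [Function.update_self]
            omega
          · rw [Function.update_of_ne h]
            exact (ih i).trans (by omega)
        cases b
        · simp only [hc]
          exact hu
        · simp only [hc]
          exact hu
    · exact (ih i).trans (by omega)

theorem len : T_LEN := by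
  intro O P x s q h
  obtain ⟨i, l₀, l₁, -, rfl⟩ := h
  exact st_len O P x s i

theorem step_of_halt (O : Lang) (P : List Instr) (c : Cfg) (h : P.length ≤ c.pc) :
    step O P c = c := by
  unfold step
  rw [List.getElem?_eq_none h]

theorem stay : T_STAY := by
  intro O P x t t' h htt'
  obtain ⟨k, rfl⟩ := Nat.exists_eq_add_of_le htt'
  induction k with
  | zero => rfl
  | succ k ih =>
    have ih' := ih (Nat.le_add_right _ _)
    rw [← Nat.add_assoc, run_succ, ih']
    exact step_of_halt O P _ h

theorem halts_mono (O : Lang) (P : List Instr) (x : List Bool) (t t' : ℕ)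
    (h : Halts O P x t) (htt' : t ≤ t') : Halts O P x t' := by
  unfold Halts at h ⊢
  rw [stay O P x t t' h htt']
  exact h

theorem one : T_ONE := by
  intro O P x s q q' h h'
  obtain ⟨i, l₀, l₁, hp, rfl⟩ := h
  obtain ⟨i', l₀', l₁', hp', rfl⟩ := h'
  rw [hp] at hp'
  have := Option.some.inj hp'
  injection this with h1 h2 h3
  rw [h1]

/-- If the oracles agree on all short words, the runs are the same. -/
theorem loc_of_short (O O' : Lang) (P : List Instr) (x : List Bool) (t : ℕ)
    (h : ∀ q : List Bool, q.length ≤ x.length + t → O q = O' q) :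
    ∀ s ≤ t, run O' P x s = run O P x s := by
  refine loc O O' P x t fun s hs q hq => h q ?_
  have := len O P x s q hq
  omega

/-! ## The enumeration of the words -/

/-- The number with the given binary digits below the leading `1`, least significant first. -/
def wval : List Bool → ℕ
  | [] => 1
  | b :: l => Nat.bit b (wval l)

theorem wval_pos (l : List Bool) : 0 < wval l := by
  induction l with
  | nil => simp [wval]
  | cons b l ih =>
    unfold wval
    rw [Nat.bit_val]
    omega

theorem wval_bits (l : List Bool) : (wval l).bits = l ++ [true] := by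
  induction l with
  | nil => simp [wval]
  | cons b l ih =>
    unfold wval
    rw [Nat.bits_append_bit _ _ (fun h => absurd h (wval_pos l).ne'), ih]
    rfl

theorem wval_surj (m : ℕ) (hm : 0 < m) : ∃ l, wval l = m := by
  induction m using Nat.strong_induction_on with
  | _ m ih =>
    by_cases h1 : m = 1
    · exact ⟨[], h1.symm⟩
    · have h2 : 0 < m.div2 := by rw [Nat.div2_val]; omega
      have h3 : m.div2 < m := by rw [Nat.div2_val]; omega
      obtain ⟨l, hl⟩ := ih m.div2 h3 h2
      refine ⟨m.bodd :: l, ?_⟩
      unfold wval
      rw [hl]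
      exact Nat.bit_bodd_div2 m

theorem wval_dropLast (m : ℕ) (hm : 0 < m) : wval (m.bits.dropLast) = m := by
  obtain ⟨l, rfl⟩ := wval_surj m hm
  rw [wval_bits, List.dropLast_concat]

theorem wval_str (n : ℕ) : wval (str n).reverse = n + 1 := by
  unfold str
  rw [List.reverse_reverse]
  exact wval_dropLast _ (Nat.succ_pos n)

theorem strinj : T_STRINJ := by
  intro a b h
  have h1 := wval_str a
  have h2 := wval_str b
  rw [h] at h1
  omega

theorem strsurj : T_STRSURJ := by
  intro w
  refine ⟨wval w.reverse - 1, ?_⟩
  have h := wval_pos w.reverse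
  unfold str
  rw [Nat.sub_add_cancel h, wval_bits, List.dropLast_concat, List.reverse_reverse]

theorem size_eq (n : ℕ) (hn : 0 < n) : Nat.size n = Nat.log 2 n + 1 := by
  apply le_antisymm
  · rw [Nat.size_le]
    exact Nat.lt_pow_succ_log_self (by norm_num) n
  · have : Nat.log 2 n < Nat.size n := by
      rw [Nat.lt_size]
      exact Nat.pow_log_le_self 2 hn.ne'
    exact this

theorem strlen : T_STRLEN := by
  intro n
  unfold str
  rw [List.length_reverse, List.length_dropLast, Nat.size_eq_bits_len,
    size_eq _ (Nat.succ_pos n)]
  rfl

/-- The word number `2 ^ n - 1 + j` has length `n`. -/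
theorem str_length_slice (n j : ℕ) (h : j < 2 ^ n) : (str (2 ^ n - 1 + j)).length = n := by
  rw [strlen]
  have h0 : 0 < 2 ^ n := by positivity
  have h1 : 2 ^ n - 1 + j + 1 = 2 ^ n + j := by omega
  rw [h1]
  refine Nat.log_eq_of_pow_le_of_lt_pow (by omega) ?_
  rw [pow_succ]
  omega

/-- Every word of length `n` has the number `2 ^ n - 1 + j` for some `j < 2 ^ n`. -/
theorem exists_str_slice (n : ℕ) (w : List Bool) (h : w.length = n) :
    ∃ j, j < 2 ^ n ∧ str (2 ^ n - 1 + j) = w := by
  obtain ⟨m, rfl⟩ := strsurj w
  rw [strlen] at h
  have h0 : 0 < 2 ^ n := by positivity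
  have h1 : 2 ^ n ≤ m + 1 := by
    rw [← h]
    exact Nat.pow_log_le_self 2 (Nat.succ_ne_zero m)
  have h2 : m + 1 < 2 ^ (n + 1) := by
    rw [← h]
    exact Nat.lt_pow_succ_log_self (by norm_num) _
  rw [pow_succ] at h2
  refine ⟨m + 1 - 2 ^ n, by omega, ?_⟩
  congr 1
  omega

end Pool.Agent.RelM
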