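import Pool.Agent.RelM.Targets

/-!
# Job QRY: values of the oracle
-/

set_option autoImplicit false

namespace Pool.Agent.RelM

open MeasureTheory Set
open scoped ENNReal

lemma unary_inj {a b : ℕ} {u v : List Bool}
    (h : List.replicate a true ++ false :: u = List.replicate b true ++ false :: v) :
    a = b ∧ u = v := by
  induction a generalizing b with
  | zero =>
    cases b with
    | zero => simpa using h
    | succ b => simp [List.replicate_succ] at h
  | succ a ih =>
    cases b with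
    | zero => simp [List.replicate_succ] at h
    | succ b =>
      simp only [List.replicate_succ, List.cons_append, List.cons.injEq, true_and] at h
      obtain ⟨h1, h2⟩ := ih h
      exact ⟨by rw [h1], h2⟩

lemma pair_nil (y : List Bool) : pair [] y = false :: y := rfl

lemma pair_cons (b : Bool) (x y : List Bool) : pair (b :: x) y = true :: b :: pair x y := by
  simp [pair]

lemma pair_inj {x x' y y' : List Bool} (h : pair x y = pair x' y') : x = x' ∧ y = y' := by
  induction x generalizing x' with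
  | nil =>
    cases x' with
    | nil => simpa [pair_nil] using h
    | cons b x' => simp [pair_nil, pair_cons] at h
  | cons a x ih =>
    cases x' with
    | nil => simp [pair_nil, pair_cons] at h
    | cons b x' =>
      simp only [pair_cons, List.cons.injEq, true_and] at h
      obtain ⟨h1, h2⟩ := h
      obtain ⟨h3, h4⟩ := ih h2
      exact ⟨by rw [h1, h3], h4⟩

lemma pair_length (x y : List Bool) : (pair x y).length = 2 * x.length + 1 + y.length := by
  induction x with
  | nil => simp [pair_nil]; omega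
  | cons b x ih => simp only [pair_cons, List.length_cons, ih]; omega

lemma triple_inj {k k' r r' : ℕ} {w w' : List Bool} (h : triple k r w = triple k' r' w') :
    k = k' ∧ r = r' ∧ w = w' := by
  obtain ⟨h1, h2⟩ := unary_inj h
  obtain ⟨h3, h4⟩ := unary_inj h2
  exact ⟨h1, h3, h4⟩

lemma triple_length (k r : ℕ) (w : List Bool) : (triple k r w).length = k + r + w.length + 2 := by
  simp [triple]; omega

lemma wq_inj {κ κ' : ℕ} {x x' y y' : List Bool} (h : wq κ x y = wq κ' x' y') :
    κ = κ' ∧ x = x' ∧ y = y' := by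
  simp only [wq, List.cons.injEq, true_and] at h
  obtain ⟨h1, h2⟩ := unary_inj h
  obtain ⟨h3, h4⟩ := pair_inj h2
  exact ⟨h1, h3, h4⟩

lemma wq_length (κ : ℕ) (x y : List Bool) :
    (wq κ x y).length = κ + 2 * x.length + y.length + 4 := by
  simp [wq, pair_length]; omega

lemma hq_inj {a a' b b' : Bool} {j j' k k' r r' : ℕ} {w w' : List Bool}
    (h : hq a b j k r w = hq a' b' j' k' r' w') :
    a = a' ∧ b = b' ∧ j = j' ∧ k = k' ∧ r = r' ∧ w = w' := by
  simp only [hq, List.cons.injEq] at h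
  obtain ⟨h0, h0', h1⟩ := h
  obtain ⟨h2, h3⟩ := unary_inj h1
  obtain ⟨h4, h5, h6⟩ := triple_inj h3
  exact ⟨h0, h0', h2, h4, h5, h6⟩

lemma hq_length (a b : Bool) (j k r : ℕ) (w : List Bool) :
    (hq a b j k r w).length = j + k + r + w.length + 5 := by
  simp [hq, triple_length]; omega

lemma wit_length (ω : Om) (κ : ℕ) (x : List Bool) : (wit ω κ x).length = lev κ x := by
  simp [wit]

lemma sq1_length (κ : ℕ) (x : List Bool) (m : ℕ) :
    (sq1 κ x m).length = m + κ + x.length + 4 := by
  simp [sq1, triple_length]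

lemma sq0_length (κ : ℕ) (x : List Bool) (m : ℕ) :
    (sq0 κ x m).length = m + κ + x.length + 4 := by
  simp [sq0, triple_length]

theorem owq : T_OWQ := by
  intro S G ω κ x y
  simp only [orcV, decide_eq_true_eq]
  constructor
  · rintro (⟨κ', x', hS, hq, hR⟩ | ⟨κ', x', m, hq, -⟩ | ⟨κ', x', m, -, hq, -⟩ | ⟨u, hq, -⟩)
    · obtain ⟨h1, h2, h3⟩ := wq_inj hq
      subst h1; subst h2
      exact ⟨hS, h3, hR⟩
    · simp [wq, sq0] at hq
    · simp [wq, sq1] at hq
    · simp [wq] at hq
  · rintro ⟨hS, hy, hR⟩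
    exact Or.inl ⟨κ, x, hS, by rw [hy], hR⟩

theorem osq0 : T_OSQ0 := by
  intro S G ω κ x m
  simp only [orcV, decide_eq_true_eq]
  constructor
  · rintro (⟨κ', x', hS, hq, hR⟩ | ⟨κ', x', m', hq, h⟩ | ⟨κ', x', m', -, hq, -⟩ | ⟨u, hq, -⟩)
    · simp [wq, sq0] at hq
    · simp only [sq0, List.cons.injEq, true_and] at hq
      obtain ⟨h1, h2, h3⟩ := triple_inj hq
      subst h1; subst h2; subst h3
      exact h
    · simp [sq0, sq1] at hq
    · simp [sq0] at hq
  · intro h
    exact Or.inr (Or.inl ⟨κ, x, m, rfl, h⟩)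

theorem osq1 : T_OSQ1 := by
  intro S G ω κ x m
  simp only [orcV, decide_eq_true_eq]
  constructor
  · rintro (⟨κ', x', hS, hq, hR⟩ | ⟨κ', x', m', hq, h⟩ | ⟨κ', x', m', hS, hq, h⟩ | ⟨u, hq, -⟩)
    · simp [wq, sq1] at hq
    · simp [sq0, sq1] at hq
    · simp only [sq1, List.cons.injEq, true_and] at hq
      obtain ⟨h1, h2, h3⟩ := triple_inj hq
      subst h1; subst h2; subst h3
      exact ⟨hS, h⟩
    · simp [sq1] at hq
  · rintro ⟨hS, h⟩
    exact Or.inr (Or.inr (Or.inl ⟨κ, x, m, hS, rfl, h⟩))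

theorem ott : T_OTT := by
  intro S G ω u
  rw [Bool.eq_iff_iff]
  simp only [orcV, decide_eq_true_eq]
  constructor
  · rintro (⟨κ', x', hS, hq, hR⟩ | ⟨κ', x', m', hq, h⟩ | ⟨κ', x', m', hS, hq, h⟩ | ⟨u', hq, h⟩)
    · simp [wq] at hq
    · simp [sq0] at hq
    · simp [sq1] at hq
    · simp only [List.cons.injEq, true_and] at hq
      rw [hq]; exact h
  · intro h
    exact Or.inr (Or.inr (Or.inr ⟨u, rfl, h⟩))

/-- The answer does not change if the two samples agree on the coins that matter, the two fixed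
parts agree on the words that matter and the two visible sets agree on the pairs that matter. -/
lemma orcV_congr_imp {S S' : ℕ → List Bool → Prop} {G G' : Lang} {ω ω' : Om} {q : List Bool}
    (hS : ∀ κ x, lev κ x ≤ q.length → S κ x → S' κ x)
    (hω : ∀ κ x i, lev κ x ≤ q.length → S κ x → i ≤ lev κ x → ω (κ, x, i) = ω' (κ, x, i))
    (hG : ∀ u : List Bool, u.length + 2 ≤ q.length → G u = G' u)
    (h : orcV S G ω q = true) : orcV S' G' ω' q = true := by
  simp only [orcV, decide_eq_true_eq] at h ⊢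
  rcases h with ⟨κ, x, h1, h2, h3⟩ | ⟨κ, x, m, h2, h3⟩ | ⟨κ, x, m, h1, h2, h3, h4⟩ | ⟨u, h1, h2⟩
  · have hl : lev κ x ≤ q.length := by
      rw [h2, wq_length, wit_length]; omega
    have hw : wit ω κ x = wit ω' κ x := by
      unfold wit
      apply List.map_congr_left
      intro i hi
      rw [List.mem_range] at hi
      exact hω κ x (i + 1) hl h1 hi
    refine Or.inl ⟨κ, x, hS κ x hl h1, by rw [← hw]; exact h2, ?_⟩
    have := hω κ x 0 hl h1 (Nat.zero_le _)
    unfold Rl at h3 ⊢
    rw [← this]; exact h3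
  · exact Or.inr (Or.inl ⟨κ, x, m, h2, h3⟩)
  · have hl : lev κ x ≤ q.length := by
      have : lev κ x < 2 ^ lev κ x := Nat.lt_two_pow_self
      rw [h2, sq1_length]; omega
    refine Or.inr (Or.inr (Or.inl ⟨κ, x, m, hS κ x hl h1, h2, h3, ?_⟩))
    have := hω κ x 0 hl h1 (Nat.zero_le _)
    unfold Rl at h4 ⊢
    rw [← this]; exact h4
  · refine Or.inr (Or.inr (Or.inr ⟨u, h1, ?_⟩))
    rw [← hG u (by rw [h1]; simp)]
    exact h2

theorem oloc : T_OLOC := by
  intro S G G' ω ω' m hω hG q hq
  rw [Bool.eq_iff_iff]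
  constructor
  · apply orcV_congr_imp (fun _ _ _ h => h)
    · intro κ x i hl _ hi
      exact hω (κ, x, i) ⟨le_trans hl hq, hi⟩
    · intro u hu
      exact hG u (le_trans hu hq)
  · apply orcV_congr_imp (fun _ _ _ h => h)
    · intro κ x i hl _ hi
      exact (hω (κ, x, i) ⟨le_trans hl hq, hi⟩).symm
    · intro u hu
      exact (hG u (le_trans hu hq)).symm

theorem ovis : T_OVIS := by
  intro S G ω ω' hω q
  rw [Bool.eq_iff_iff]
  constructor
  · apply orcV_congr_imp (fun _ _ _ h => h)
    · intro κ x i _ hS _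
      exact hω κ x i hS
    · intro u _; rfl
  · apply orcV_congr_imp (fun _ _ _ h => h)
    · intro κ x i _ hS _
      exact (hω κ x i hS).symm
    · intro u _; rfl

theorem ohide : T_OHIDE := by
  intro S S' G ω q h
  rw [Bool.eq_iff_iff]
  constructor
  · exact orcV_congr_imp (fun κ x hl hS => (h κ x hl).1 hS) (fun _ _ _ _ _ _ => rfl)
      (fun _ _ => rfl)
  · exact orcV_congr_imp (fun κ x hl hS => (h κ x hl).2 hS) (fun _ _ _ _ _ _ => rfl)
      (fun _ _ => rfl)

theorem ocut : T_OCUT := by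
  intro S G ω q h
  by_contra hcon
  push Not at hcon
  obtain ⟨h1, h2⟩ := hcon
  apply h
  rw [Bool.eq_iff_iff]
  constructor
  · intro ho
    unfold orc at ho
    simp only [orcV, decide_eq_true_eq] at ho ⊢
    rcases ho with ⟨κ, x, -, h4, h5⟩ | h3 | ⟨κ, x, m, -, h4, h5, h6⟩ | h3
    · refine Or.inl ⟨κ, x, ?_, h4, h5⟩
      by_contra hS
      exact h1 κ x hS h4
    · exact Or.inr (Or.inl h3)
    · refine Or.inr (Or.inr (Or.inl ⟨κ, x, m, ?_, h4, h5, h6⟩))
      by_contra hS
      have := h2 κ x m hS h4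
      omega
    · exact Or.inr (Or.inr (Or.inr h3))
  · exact orcV_congr_imp (fun _ _ _ _ => trivial) (fun _ _ _ _ _ _ => rfl) (fun _ _ => rfl)

end Pool.Agent.RelM
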