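import Pool.Agent.RelM.MAIN

/-!
# Assembly, part 2: the full `NP`
-/

set_option autoImplicit false

namespace Pool.Agent.RelM

open MeasureTheory Set
open scoped ENNReal

lemma IsNullCover.mono {d : ℕ → List Bool → ℝ} {X Y : Set Lang} (h : IsNullCover d Y)
    (hXY : X ⊆ Y) : IsNullCover d X := fun k =>
  ⟨(h k).1, (h k).2.1, fun A hA => (h k).2.2 A (hXY hA)⟩

lemma Null2.mono {O : Lang} {X Y : Set Lang} (h : Null2 O Y) (hXY : X ⊆ Y) : Null2 O X := by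
  obtain ⟨d, h1, h2⟩ := h
  exact ⟨d, h1.mono hXY, h2⟩

lemma time_le (l c : ℕ) : (l + 2) ^ c ≤ 2 ^ ((Nat.log 2 l + 2) ^ (c + 1)) := by
  have h1 : l + 2 ≤ 2 ^ (Nat.log 2 l + 2) := by
    have h2 : l < 2 ^ (Nat.log 2 l + 1) := Nat.lt_pow_succ_log_self (by norm_num) l
    have h3 : 2 ^ (Nat.log 2 l + 2) = 2 ^ (Nat.log 2 l + 1) + 2 ^ (Nat.log 2 l + 1) := by
      rw [pow_succ]; ring
    have h4 : 2 ≤ 2 ^ (Nat.log 2 l + 1) := by
      calc 2 = 2 ^ 1 := by norm_num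
        _ ≤ _ := Nat.pow_le_pow_right (by norm_num) (by omega)
    omega
  calc (l + 2) ^ c ≤ (2 ^ (Nat.log 2 l + 2)) ^ c := Nat.pow_le_pow_left h1 _
    _ = 2 ^ ((Nat.log 2 l + 2) * c) := by rw [← pow_mul]
    _ ≤ 2 ^ ((Nat.log 2 l + 2) ^ (c + 1)) := by
        apply Nat.pow_le_pow_right (by norm_num)
        rw [pow_succ, mul_comm]
        apply Nat.mul_le_mul_right
        exact le_trans (le_of_lt Nat.lt_two_pow_self) (Nat.pow_le_pow_left (by omega) _)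

lemma Approx.mono (hs : T_STAY) {O : Lang} {P : List Instr} {T T' : ℕ → ℕ}
    {d : ℕ → List Bool → ℝ} (h : Approx O P T d) (hT : ∀ l, T l ≤ T' l) : Approx O P T' d := by
  intro k r w
  obtain ⟨h1, h2⟩ := h k r w
  have h3 := hs O P (triple k r w) _ _ h1 (hT (triple k r w).length)
  unfold Halts at h1 ⊢
  rw [h3]
  exact ⟨h1, h2⟩

lemma Null1.null2 (hs : T_STAY) {O : Lang} {X : Set Lang} (h : Null1 O X) : Null2 O X := by
  obtain ⟨d, h1, P, c, h2⟩ := h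
  exact ⟨d, h1, P, c + 1, h2.mono hs fun l => time_le l c⟩

theorem main2_of (hs : T_STAY) (h : T_MAIN) :
    ∃ O : Lang, Null1 O (NP O ∩ E1 O) ∧ ¬ Null1 O (NP O) ∧ ¬ Null2 O (NP O ∩ E2 O) := by
  obtain ⟨O, h1, h2⟩ := h
  exact ⟨O, h1, fun h3 => h2 ((h3.null2 hs).mono Set.inter_subset_left), h2⟩

end Pool.Agent.RelM
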