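import Pool.Agent.RelM.Targets

/-!
# The density functions (job DSTAR)
-/

set_option autoImplicit false

namespace Pool.Agent.RelM

open MeasureTheory Set

namespace Dstar

/-- the number of free places -/
def fr (n : ℕ) (w : List Bool) : ℕ := 2 ^ n - (w.length - (2 ^ n - 1))

theorem pr_eq {n : ℕ} (A : Set (Fin (2 ^ n) → Bool)) (w : List Bool) :
    pr A w = ({v | v ∈ A ∧ Compat n w v}.ncard : ℝ) / 2 ^ fr n w := rfl

theorem pr_nonneg {n : ℕ} (A : Set (Fin (2 ^ n) → Bool)) (w : List Bool) : 0 ≤ pr A w := by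
  rw [pr_eq]
  positivity

/-- there are at most `2 ^ fr` compatible slices -/
theorem card_compat (n : ℕ) (w : List Bool) :
    {v : Fin (2 ^ n) → Bool | Compat n w v}.ncard ≤ 2 ^ fr n w := by
  set m := w.length - (2 ^ n - 1) with hm
  have hcard : (Set.univ : Set (Fin (2 ^ n - m) → Bool)).ncard = 2 ^ fr n w := by
    rw [Set.ncard_univ, Nat.card_eq_fintype_card]
    simp [fr, ← hm]
  rw [← hcard]
  have hlt : ∀ i : Fin (2 ^ n - m), m + (i : ℕ) < 2 ^ n := fun i => by
    have := i.2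
    omega
  refine Set.ncard_le_ncard_of_injOn
    (fun v : Fin (2 ^ n) → Bool => fun i : Fin (2 ^ n - m) => v ⟨m + i, hlt i⟩)
    (fun v _ => Set.mem_univ _) ?_ (Set.toFinite _)
  intro v hv v' hv' h
  funext j
  by_cases hj : (j : ℕ) < m
  · have h1 : 2 ^ n - 1 + (j : ℕ) < w.length := by omega
    have h2 : w[2 ^ n - 1 + (j : ℕ)]? = some w[2 ^ n - 1 + (j : ℕ)] :=
      List.getElem?_eq_getElem h1
    have h3 : v j = w[2 ^ n - 1 + (j : ℕ)] := hv j _ h2
    have h4 : v' j = w[2 ^ n - 1 + (j : ℕ)] := hv' j _ h2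
    rw [h3, h4]
  · have h1 : (j : ℕ) - m < 2 ^ n - m := by
      have := j.2
      omega
    have h2 := congrFun h ⟨(j : ℕ) - m, h1⟩
    have h3 : (⟨m + ((⟨(j : ℕ) - m, h1⟩ : Fin (2 ^ n - m)) : ℕ), hlt _⟩ : Fin (2 ^ n)) = j := by
      apply Fin.ext
      simp only
      omega
    simp only [h3] at h2
    exact h2

theorem pr_le_one {n : ℕ} (A : Set (Fin (2 ^ n) → Bool)) (w : List Bool) : pr A w ≤ 1 := by
  rw [pr_eq, div_le_one (by positivity)]
  have h1 : {v | v ∈ A ∧ Compat n w v}.ncard ≤ {v : Fin (2 ^ n) → Bool | Compat n w v}.ncard :=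
    Set.ncard_le_ncard (fun v hv => hv.2) (Set.toFinite _)
  exact_mod_cast h1.trans (card_compat n w)

theorem fr_snoc_out {n : ℕ} {w : List Bool} (b : Bool)
    (h : w.length < 2 ^ n - 1 ∨ 2 ^ n + (2 ^ n - 1) ≤ w.length) :
    fr n (w ++ [b]) = fr n w := by
  simp only [fr, List.length_append, List.length_singleton]
  omega

theorem compat_snoc_out {n : ℕ} {w : List Bool} (b : Bool)
    (h : w.length < 2 ^ n - 1 ∨ 2 ^ n + (2 ^ n - 1) ≤ w.length) (v : Fin (2 ^ n) → Bool) :
    Compat n (w ++ [b]) v ↔ Compat n w v := by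
  have key : ∀ j : Fin (2 ^ n), (w ++ [b])[2 ^ n - 1 + (j : ℕ)]? = w[2 ^ n - 1 + (j : ℕ)]? := by
    intro j
    have hj := j.2
    rcases h with h | h
    · rw [List.getElem?_eq_none (by simp; omega), List.getElem?_eq_none (by omega)]
    · rw [List.getElem?_append_left (by omega)]
  unfold Compat
  simp only [key]

theorem compat_snoc_in {n : ℕ} {w : List Bool} (b : Bool) (h1 : 2 ^ n - 1 ≤ w.length)
    (h2 : w.length - (2 ^ n - 1) < 2 ^ n) (v : Fin (2 ^ n) → Bool) :
    Compat n (w ++ [b]) v ↔ Compat n w v ∧ v ⟨w.length - (2 ^ n - 1), h2⟩ = b := by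
  constructor
  · intro h
    refine ⟨fun j b' hb' => ?_, ?_⟩
    · apply h j b'
      have : 2 ^ n - 1 + (j : ℕ) < w.length := by
        by_contra hc
        rw [List.getElem?_eq_none (by omega)] at hb'
        simp at hb'
      rw [List.getElem?_append_left this]
      exact hb'
    · apply h
      have h3 : 2 ^ n - 1 + (w.length - (2 ^ n - 1)) = w.length := by omega
      simp only [h3]
      rw [List.getElem?_append_right (le_refl _)]
      simp
  · rintro ⟨h3, h4⟩ j b' hb'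
    by_cases hj : 2 ^ n - 1 + (j : ℕ) < w.length
    · rw [List.getElem?_append_left hj] at hb'
      exact h3 j b' hb'
    · by_cases hj2 : 2 ^ n - 1 + (j : ℕ) = w.length
      · have hj3 : j = ⟨w.length - (2 ^ n - 1), h2⟩ := by
          apply Fin.ext
          simp only
          omega
        rw [hj2, List.getElem?_append_right (le_refl _)] at hb'
        simp only [Nat.sub_self, List.getElem?_cons_zero, Option.some.injEq] at hb'
        rw [hj3, h4, hb']
      · rw [List.getElem?_eq_none (by simp; omega)] at hb'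
        simp at hb'

/-- `pr` is averaging -/
theorem pr_avg {n : ℕ} (A : Set (Fin (2 ^ n) → Bool)) (w : List Bool) :
    (pr A (w ++ [false]) + pr A (w ++ [true])) / 2 = pr A w := by
  by_cases h : w.length < 2 ^ n - 1 ∨ 2 ^ n + (2 ^ n - 1) ≤ w.length
  · have h1 : ∀ b, pr A (w ++ [b]) = pr A w := by
      intro b
      rw [pr_eq, pr_eq, fr_snoc_out b h]
      simp only [compat_snoc_out b h]
    rw [h1, h1]
    ring
  · have hp : 0 < 2 ^ n := by positivity
    have h1 : 2 ^ n - 1 ≤ w.length := by omega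
    have h2 : w.length - (2 ^ n - 1) < 2 ^ n := by omega
    have h3 : ∀ b, fr n (w ++ [b]) + 1 = fr n w := by
      intro b
      simp only [fr, List.length_append, List.length_singleton]
      omega
    have h4 : {v | v ∈ A ∧ Compat n w v}.ncard =
        {v | v ∈ A ∧ Compat n (w ++ [false]) v}.ncard +
          {v | v ∈ A ∧ Compat n (w ++ [true]) v}.ncard := by
      rw [← Set.ncard_union_eq ?_ (Set.toFinite _) (Set.toFinite _)]
      · congr 1
        ext v
        simp only [Set.mem_ofPred_eq, Set.mem_union, compat_snoc_in _ h1 h2]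
        rcases Bool.eq_false_or_eq_true (v ⟨w.length - (2 ^ n - 1), h2⟩) with hb | hb <;>
          simp [hb]
      · rw [Set.disjoint_left]
        rintro v ⟨_, hv⟩ ⟨_, hv'⟩
        rw [compat_snoc_in _ h1 h2] at hv hv'
        rw [hv.2] at hv'
        simp at hv'
    rw [pr_eq, pr_eq, pr_eq, h4, ← h3 false]
    have h5 : fr n (w ++ [true]) = fr n (w ++ [false]) := by
      have := h3 true
      have := h3 false
      omega
    rw [h5, pow_succ]
    push_cast
    field_simp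

theorem pr_small {A : (n : ℕ) → Set (Fin (2 ^ n) → Bool)} (hA : Thin A) {n : ℕ}
    {w : List Bool} (hn : 1 ≤ n) (h : w.length ≤ 2 ^ n - 1) :
    pr (A n) w ≤ (1 / 2 : ℝ) ^ 2 ^ (n - 1) := by
  have h1 : fr n w = 2 ^ (n - 1) + 2 ^ (n - 1) := by
    obtain ⟨k, rfl⟩ : ∃ k, n = k + 1 := ⟨n - 1, by omega⟩
    have h2 : (2 : ℕ) ^ (k + 1) = 2 ^ k + 2 ^ k := by ring
    have h3 : w.length - (2 ^ (k + 1) - 1) = 0 := Nat.sub_eq_zero_of_le h
    rw [fr, h3, Nat.sub_zero, h2, Nat.add_sub_cancel]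
  rw [pr_eq, h1, pow_add, one_div, inv_pow, div_le_iff₀ (by positivity), ← mul_assoc,
    inv_mul_cancel₀ (by positivity), one_mul]
  have h2 : {v | v ∈ A n ∧ Compat n w v}.ncard ≤ 2 ^ 2 ^ (n - 1) :=
    (Set.ncard_le_ncard (fun v hv => hv.1) (Set.toFinite _)).trans (hA n)
  exact_mod_cast h2

/-- the summand -/
noncomputable def f (A : (n : ℕ) → Set (Fin (2 ^ n) → Bool)) (k : ℕ) (w : List Bool) (n : ℕ) :
    ℝ := if k + 1 ≤ n then pr (A n) w else 0

theorem f_nonneg (A : (n : ℕ) → Set (Fin (2 ^ n) → Bool)) (k : ℕ) (w : List Bool) (n : ℕ) :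
    0 ≤ f A k w n := by
  unfold f
  split_ifs
  · exact pr_nonneg _ _
  · exact le_refl _

theorem f_le_one (A : (n : ℕ) → Set (Fin (2 ^ n) → Bool)) (k : ℕ) (w : List Bool) (n : ℕ) :
    f A k w n ≤ 1 := by
  unfold f
  split_ifs
  · exact pr_le_one _ _
  · exact zero_le_one

theorem f_small {A : (n : ℕ) → Set (Fin (2 ^ n) → Bool)} (hA : Thin A) (k : ℕ) {n : ℕ}
    {w : List Bool} (h : w.length ≤ 2 ^ n - 1) :
    f A k w n ≤ (1 / 2 : ℝ) ^ 2 ^ (n - 1) := by
  unfold f
  split_ifs with h1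
  · exact pr_small hA (by omega) h
  · positivity

theorem le_two_pow_pred {n : ℕ} (hn : 1 ≤ n) : n ≤ 2 ^ (n - 1) := by
  obtain ⟨k, rfl⟩ : ∃ k, n = k + 1 := ⟨n - 1, by omega⟩
  simp only [Nat.add_sub_cancel]
  exact Nat.lt_two_pow_self

theorem f_summable {A : (n : ℕ) → Set (Fin (2 ^ n) → Bool)} (hA : Thin A) (k : ℕ)
    (w : List Bool) : Summable (f A k w) := by
  set n₀ := w.length + 1 with hn₀
  have hs : Summable (fun n : ℕ => (2 : ℝ) ^ n₀ * (1 / 2 : ℝ) ^ n) :=
    (summable_geometric_two).mul_left _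
  refine Summable.of_nonneg_of_le (f_nonneg A k w) (fun n => ?_) hs
  by_cases hn : n ≤ n₀
  · refine (f_le_one A k w n).trans ?_
    have h1 : (1 / 2 : ℝ) ^ n₀ ≤ (1 / 2 : ℝ) ^ n :=
      pow_le_pow_of_le_one (by norm_num) (by norm_num) hn
    calc (1 : ℝ) = 2 ^ n₀ * (1 / 2 : ℝ) ^ n₀ := by
          rw [← mul_pow]
          norm_num
      _ ≤ 2 ^ n₀ * (1 / 2 : ℝ) ^ n := mul_le_mul_of_nonneg_left h1 (by positivity)
  · have h1 : n < 2 ^ n := Nat.lt_two_pow_self
    have h2 := f_small hA k (n := n) (w := w) (by omega)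
    have h3 : (1 / 2 : ℝ) ^ 2 ^ (n - 1) ≤ (1 / 2 : ℝ) ^ n :=
      pow_le_pow_of_le_one (by norm_num) (by norm_num) (le_two_pow_pred (by omega))
    have h4 : (1 : ℝ) ≤ 2 ^ n₀ := one_le_pow₀ (by norm_num)
    calc f A k w n ≤ (1 / 2 : ℝ) ^ n := h2.trans h3
      _ = 1 * (1 / 2 : ℝ) ^ n := (one_mul _).symm
      _ ≤ 2 ^ n₀ * (1 / 2 : ℝ) ^ n := mul_le_mul_of_nonneg_right h4 (by positivity)

theorem dst_eq (A : (n : ℕ) → Set (Fin (2 ^ n) → Bool)) (k : ℕ) (w : List Bool) :
    dst A k w = ∑' n, f A k w n := rfl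

/-- the tail estimate -/
theorem tail {A : (n : ℕ) → Set (Fin (2 ^ n) → Bool)} (hA : Thin A) (k : ℕ)
    (w : List Bool) (N q : ℕ)
    (h : ∀ i, f A k w (i + N) ≤ (1 / 2 : ℝ) ^ (q + 1 + i)) :
    0 ≤ ∑' n, f A k w n - ∑ n ∈ Finset.range N, f A k w n ∧
    ∑' n, f A k w n - ∑ n ∈ Finset.range N, f A k w n ≤ (1 / 2 : ℝ) ^ q := by
  have h1 := (f_summable hA k w).sum_add_tsum_nat_add N
  have h2 : ∑' n, f A k w n - ∑ n ∈ Finset.range N, f A k w n = ∑' i, f A k w (i + N) := by
    rw [← h1]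
    ring
  rw [h2]
  refine ⟨tsum_nonneg fun i => f_nonneg _ _ _ _, ?_⟩
  have h3 : HasSum (fun i : ℕ => (1 / 2 : ℝ) ^ (q + 1 + i)) ((1 / 2 : ℝ) ^ q) := by
    have h4 := (hasSum_geometric_two).mul_left ((1 / 2 : ℝ) ^ (q + 1))
    have h5 : (1 / 2 : ℝ) ^ (q + 1) * 2 = (1 / 2 : ℝ) ^ q := by
      rw [pow_succ]
      ring
    rw [h5] at h4
    refine h4.congr_fun ?_
    intro i
    rw [pow_add]
  rw [← h3.tsum_eq]
  have h6 : Summable (fun i => f A k w (i + N)) :=
    (summable_nat_add_iff N).2 (f_summable hA k w)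
  exact h6.tsum_le_tsum h h3.summable

end Dstar

open Dstar

theorem prr : T_PR := fun _ A w => ⟨pr_nonneg A w, pr_le_one A w⟩

theorem ddens : T_DDENS := by
  intro A hA k
  refine ⟨fun w => tsum_nonneg fun n => f_nonneg A k w n, fun w => le_of_eq ?_⟩
  rw [dst_eq, dst_eq, dst_eq, ← (f_summable hA k _).tsum_add (f_summable hA k _), ← tsum_div_const]
  congr 1
  funext n
  unfold f
  split_ifs
  · exact pr_avg _ _
  · simp

theorem dlam : T_DLAM := by
  intro A hA k
  have h := (tail hA k [] (k + 1) k (fun i => ?_)).2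
  · have h0 : ∑ n ∈ Finset.range (k + 1), f A k [] n = 0 := by
      refine Finset.sum_eq_zero fun n hn => ?_
      rw [Finset.mem_range] at hn
      unfold f
      rw [if_neg (by omega)]
    rw [h0, sub_zero] at h
    exact h
  · have h1 := f_small hA k (n := i + (k + 1)) (w := []) (by simp)
    refine h1.trans ?_
    have h2 : k + 1 + i ≤ 2 ^ (i + (k + 1) - 1) :=
      (le_of_eq (by omega)).trans (le_two_pow_pred (n := i + (k + 1)) (by omega))
    exact pow_le_pow_of_le_one (by norm_num) (by norm_num) h2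

theorem dapp : T_DAPP := by
  intro A hA k r w
  set N := Nlim r w with hN
  have hN2 : w.length + r + 2 < 2 ^ N := by
    rw [hN, Nlim]
    exact Nat.lt_pow_succ_log_self (by norm_num) _
  have h := tail hA k w (N + 1) (r + 1) (fun i => ?_)
  · have h0 : ∑ n ∈ Finset.range (N + 1), f A k w n =
        ∑ n ∈ Finset.Icc (k + 1) N, pr (A n) w := by
      unfold f
      rw [← Finset.sum_filter]
      congr 1
      ext n
      simp only [Finset.mem_filter, Finset.mem_range, Finset.mem_Icc]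
      omega
    rw [h0] at h
    rw [dst_eq, abs_of_nonneg h.1]
    exact h.2
  · have h4 : (2 : ℕ) ^ (i + (N + 1)) = 2 ^ i * 2 ^ N * 2 := by ring
    have h5 : 1 ≤ 2 ^ i := Nat.one_le_two_pow
    have h6 : 1 * 2 ^ N ≤ 2 ^ i * 2 ^ N := Nat.mul_le_mul_right _ h5
    have h1 := f_small hA k (n := i + (N + 1)) (w := w) (by omega)
    refine h1.trans ?_
    have h2 : r + 1 + 1 + i ≤ 2 ^ (i + (N + 1) - 1) := by
      have h3 : i + (N + 1) - 1 = i + N := by omega
      rw [h3, pow_add]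
      have h7 : i + 1 ≤ 2 ^ i := Nat.lt_two_pow_self
      have h8 : (i + 1) * (r + 2) ≤ 2 ^ i * 2 ^ N := Nat.mul_le_mul h7 (by omega)
      nlinarith
    exact pow_le_pow_of_le_one (by norm_num) (by norm_num) h2

theorem dcov : T_DCOV := by
  intro A hA L hL k
  obtain ⟨n, hn, hs⟩ := hL (k + 1)
  refine ⟨2 ^ n + (2 ^ n - 1), ?_⟩
  set w := pre L (2 ^ n + (2 ^ n - 1)) with hw
  have hlen : w.length = 2 ^ n + (2 ^ n - 1) := by simp [hw, pre]
  have hc : Compat n w (slice L n) := by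
    intro j b hb
    have hj := j.2
    have h1 : w[2 ^ n - 1 + (j : ℕ)]? = some (L (str (2 ^ n - 1 + (j : ℕ)))) := by
      rw [hw, pre, List.getElem?_map, List.getElem?_range (by omega)]
      rfl
    rw [h1, Option.some.injEq] at hb
    rw [← hb]
    rfl
  have hfr : fr n w = 0 := by
    simp only [fr, hlen]
    omega
  have h1 : 1 ≤ pr (A n) w := by
    rw [pr_eq, hfr, pow_zero, div_one]
    have h2 : 0 < {v | v ∈ A n ∧ Compat n w v}.ncard := by
      rw [Set.ncard_pos (Set.toFinite _)]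
      exact ⟨slice L n, hs, hc⟩
    exact_mod_cast h2
  rw [dst_eq]
  have h2 := (f_summable hA k w).le_tsum n (fun m _ => f_nonneg A k w m)
  refine le_trans ?_ h2
  unfold f
  rw [if_pos hn]
  exact h1

end Pool.Agent.RelM
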