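import Pool.Agent.RelM.Targets

/-! # The fixed part of the oracle (job HFIX) -/

set_option autoImplicit false

namespace Pool.Agent.RelM

open MeasureTheory Set
open scoped ENNReal

namespace HFIX_

/-- unary blocks can be read off -/
lemma block_inj : ∀ (j j' : ℕ) (l l' : List Bool),
    List.replicate j true ++ false :: l = List.replicate j' true ++ false :: l' →
      j = j' ∧ l = l' := by
  intro j
  induction j with
  | zero =>
    intro j' l l' h
    cases j' with
    | zero => simpa using h
    | succ j' => simp [List.replicate_succ] at h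
  | succ j ih =>
    intro j' l l' h
    cases j' with
    | zero => simp [List.replicate_succ] at h
    | succ j' =>
      simp only [List.replicate_succ, List.cons_append, List.cons.injEq, true_and] at h
      obtain ⟨h1, h2⟩ := ih j' l l' h
      exact ⟨by rw [h1], h2⟩

lemma triple_inj {k r k' r' : ℕ} {w w' : List Bool} (h : triple k r w = triple k' r' w') :
    k = k' ∧ r = r' ∧ w = w' := by
  obtain ⟨h1, h2⟩ := block_inj _ _ _ _ h
  obtain ⟨h3, h4⟩ := block_inj _ _ _ _ h2
  exact ⟨h1, h3, h4⟩

lemma hq_inj {a b a' b' : Bool} {j k r j' k' r' : ℕ} {w w' : List Bool}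
    (h : hq a b j k r w = hq a' b' j' k' r' w') :
    a = a' ∧ b = b' ∧ j = j' ∧ k = k' ∧ r = r' ∧ w = w' := by
  unfold hq at h
  simp only [List.cons.injEq] at h
  obtain ⟨h1, h2, h3⟩ := h
  obtain ⟨h4, h5⟩ := block_inj _ _ _ _ h3
  obtain ⟨h6, h7, h8⟩ := triple_inj h5
  exact ⟨h1, h2, h4, h6, h7, h8⟩

lemma triple_length (k r : ℕ) (w : List Bool) : (triple k r w).length = k + r + w.length + 2 := by
  simp only [triple, List.length_append, List.length_replicate, List.length_cons]
  omega

lemma hq_length (a b : Bool) (j k r : ℕ) (w : List Bool) :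
    (hq a b j k r w).length = j + k + r + w.length + 5 := by
  simp only [hq, List.length_append, List.length_replicate, List.length_cons, triple_length]
  omega

lemma pair_length (x y : List Bool) : (pair x y).length = 2 * x.length + 1 + y.length := by
  have h : ∀ x : List Bool, (x.flatMap fun b => [true, b]).length = 2 * x.length := by
    intro x
    induction x with
    | nil => rfl
    | cons a x ih => simp only [List.flatMap_cons, List.length_append, List.length_cons,
        List.length_nil, ih]; omega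
  simp only [pair, List.length_append, List.length_cons, h]
  omega

lemma qb_bound (v : List Instr × ℕ × ℕ) (n : ℕ) :
    2 * n + 1 + (n + 2) ^ v.2.1 + (n + 2) ^ v.2.2 ≤ qb v n := by
  unfold qb
  have hN : 1 ≤ n + 2 := by omega
  have h1 : (n + 2) ^ v.2.1 ≤ (n + 2) ^ (v.2.1 + v.2.2) := Nat.pow_le_pow_right hN (by omega)
  have h2 : (n + 2) ^ v.2.2 ≤ (n + 2) ^ (v.2.1 + v.2.2) := Nat.pow_le_pow_right hN (by omega)
  have h3 : 1 ≤ (n + 2) ^ (v.2.1 + v.2.2) := Nat.one_le_pow _ _ (by omega)
  rw [pow_add _ _ 3]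
  generalize (n + 2) ^ (v.2.1 + v.2.2) = A at *
  have h4 : 2 * n + 3 ≤ (n + 2) ^ 3 := by nlinarith [sq_nonneg n]
  have h5 : A * (2 * n + 3) ≤ A * (n + 2) ^ 3 := Nat.mul_le_mul_left _ h4
  nlinarith

lemma acc_congr (h1 : T_LOC) (h2 : T_LEN) (h3 : T_OLOC) {G G' : Lang}
    (v : List Instr × ℕ × ℕ) (x : List Bool)
    (hG : ∀ u : List Bool, u.length + 2 ≤ qb v x.length → G u = G' u) (ω : Om) :
    acc G ω v x ↔ acc G' ω v x := by
  unfold acc
  refine exists_congr fun y => and_congr_right fun hy => ?_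
  have hrun : run (orc G' ω) v.1 (pair x y) ((x.length + 2) ^ v.2.2) =
      run (orc G ω) v.1 (pair x y) ((x.length + 2) ^ v.2.2) := by
    refine h1 (orc G ω) (orc G' ω) v.1 (pair x y) ((x.length + 2) ^ v.2.2) ?_ _ le_rfl
    intro s hs q hq
    have hl := h2 _ _ _ _ _ hq
    rw [pair_length] at hl
    have hb := qb_bound v x.length
    refine h3 (fun _ _ => True) G G' ω ω (qb v x.length) (fun _ _ => rfl) hG q ?_
    omega
  rw [hrun]

lemma pred_congr (h1 : T_LOC) (h2 : T_LEN) (h3 : T_OLOC) {G G' : Lang}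
    (v : List Instr × ℕ × ℕ) (m : ℕ) (τ : Om) (x : List Bool)
    (hG : ∀ u : List Bool, u.length + 2 ≤ qb v x.length → G u = G' u) :
    pred G v m τ x = pred G' v m τ x := by
  have : {ω | acc G (mixP (Short m) τ ω) v x} = {ω | acc G' (mixP (Short m) τ ω) v x} := by
    ext ω
    exact acc_congr h1 h2 h3 v x hG _
  unfold pred
  rw [this]

lemma str_length (h4 : T_STRLEN) (n : ℕ) (j : Fin (2 ^ n)) :
    (str (2 ^ n - 1 + j)).length = n := by
  rw [h4]
  have h0 : 1 ≤ 2 ^ n := Nat.one_le_two_pow
  have hj := j.2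
  rw [Nat.log_eq_iff (Or.inr ⟨by norm_num, by omega⟩)]
  rw [pow_succ]
  constructor <;> omega

lemma V_congr (h1 : T_LOC) (h2 : T_LEN) (h3 : T_OLOC) (h4 : T_STRLEN) {G G' : Lang} (n : ℕ)
    (hG : ∀ u : List Bool, 4 * (u.length + 2) ≤ 2 ^ n → G u = G' u) : V G n = V G' n := by
  unfold V
  ext v
  simp only [mem_ofPred_eq]
  refine exists_congr fun e => and_congr_right fun _ => and_congr_right fun hgood =>
    exists_congr fun τ => ?_
  have : slice (pred G (code e).1 ((code e).2 * (n + 1)) τ) n =
      slice (pred G' (code e).1 ((code e).2 * (n + 1)) τ) n := by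
    funext j
    unfold slice
    refine pred_congr h1 h2 h3 _ _ _ _ fun u hu => hG u ?_
    rw [str_length h4] at hu
    have := hgood.1
    omega
  rw [this]

lemma num_congr (h1 : T_LOC) (h2 : T_LEN) (h3 : T_OLOC) (h4 : T_STRLEN) {G G' : Lang}
    (k r : ℕ) (w : List Bool)
    (hG : ∀ u : List Bool, u.length ≤ r + w.length → G u = G' u) :
    num G k r w = num G' k r w := by
  have : ∑ n ∈ Finset.Icc (k + 1) (Nlim r w), pr (V G n) w =
      ∑ n ∈ Finset.Icc (k + 1) (Nlim r w), pr (V G' n) w := by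
    refine Finset.sum_congr rfl fun n hn => ?_
    rw [Finset.mem_Icc] at hn
    rw [V_congr h1 h2 h3 h4 n fun u hu => hG u ?_]
    have h5 : 2 ^ n ≤ 2 ^ Nlim r w := Nat.pow_le_pow_right (by norm_num) hn.2
    have h6 : 2 ^ Nat.log 2 (w.length + r + 2) ≤ w.length + r + 2 :=
      Nat.pow_log_le_self 2 (by omega)
    unfold Nlim at h5
    rw [pow_succ] at h5
    omega
  unfold num
  rw [this]

end HFIX_

open HFIX_

theorem bloc (h1 : T_LOC) (h2 : T_LEN) (h3 : T_OLOC) (h4 : T_STRLEN) : T_BLOC := by
  intro G G' u hu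
  have key : ∀ (a b : Bool) (j k r : ℕ) (w : List Bool), u = hq a b j k r w →
      num G k r w = num G' k r w := by
    intro a b j k r w h
    refine num_congr h1 h2 h3 h4 k r w fun u' hu' => hu u' ?_
    rw [h, hq_length]
    omega
  unfold bitsOf
  rw [decide_eq_decide]
  refine or_congr ?_ (or_congr ?_ Iff.rfl)
  · refine exists_congr fun j => exists_congr fun k => exists_congr fun r =>
      exists_congr fun w => and_congr_right fun h => ?_
    rw [key _ _ _ _ _ _ h]
  · refine exists_congr fun j => exists_congr fun k => exists_congr fun r =>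
      exists_congr fun w => and_congr_right fun h => ?_
    rw [key _ _ _ _ _ _ h]

lemma Hn_eq (u : List Bool) : ∀ L : ℕ, u.length < L → Hn L u = H u := by
  intro L
  induction L with
  | zero => intro h; omega
  | succ L ih =>
    intro h
    by_cases hL : u.length = L
    · unfold H
      rw [hL]
    · have : Hn (L + 1) u = Hn L u := by
        rw [Hn]
        exact if_neg hL
      rw [this]
      exact ih (by omega)

theorem hfix (h : T_BLOC) : T_HFIX := by
  intro u
  have h1 : H u = bitsOf (Hn u.length) u := by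
    unfold H
    rw [Hn]
    exact if_pos rfl
  rw [h1]
  exact h _ _ u fun u' hu' => Hn_eq u' _ hu'

theorem bits : T_BITS := by
  classical
  intro G j k r w
  unfold bitsOf
  refine ⟨?_, ?_, ?_⟩
  · rw [decide_eq_true_eq]
    constructor
    · rintro (⟨j', k', r', w', h, h'⟩ | ⟨j', k', r', w', h, h'⟩ | ⟨j', k', r', w', h, h'⟩)
      · obtain ⟨-, -, rfl, rfl, rfl, rfl⟩ := hq_inj h
        exact h'
      · obtain ⟨-, h2, -⟩ := hq_inj h
        exact absurd h2 (by decide)
      · obtain ⟨h2, -⟩ := hq_inj h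
        exact absurd h2 (by decide)
    · intro h
      exact Or.inl ⟨j, k, r, w, rfl, h⟩
  · rw [decide_eq_true_eq]
    constructor
    · rintro (⟨j', k', r', w', h, h'⟩ | ⟨j', k', r', w', h, h'⟩ | ⟨j', k', r', w', h, h'⟩)
      · obtain ⟨-, h2, -⟩ := hq_inj h
        exact absurd h2 (by decide)
      · obtain ⟨-, -, rfl, rfl, rfl, rfl⟩ := hq_inj h
        exact h'
      · obtain ⟨h2, -⟩ := hq_inj h
        exact absurd h2 (by decide)
    · intro h
      exact Or.inr (Or.inl ⟨j, k, r, w, rfl, h⟩)
  · rw [decide_eq_true_eq]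
    constructor
    · rintro (⟨j', k', r', w', h, h'⟩ | ⟨j', k', r', w', h, h'⟩ | ⟨j', k', r', w', h, h'⟩)
      · obtain ⟨h2, -⟩ := hq_inj h
        exact absurd h2 (by decide)
      · obtain ⟨h2, -⟩ := hq_inj h
        exact absurd h2 (by decide)
      · obtain ⟨-, -, rfl, rfl, rfl, rfl⟩ := hq_inj h
        exact h'
    · intro h
      exact Or.inr (Or.inr ⟨j, k, r, w, rfl, h⟩)

theorem numsize (h : T_PR) : T_NUM := by
  intro G k r w
  rw [Nat.size_le]
  have h1 : ∑ n ∈ Finset.Icc (k + 1) (Nlim r w), pr (V G n) w ≤ (Nlim r w : ℝ) := by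
    refine (Finset.sum_le_card_nsmul _ _ 1 fun n _ => (h n (V G n) w).2).trans ?_
    rw [Nat.card_Icc, nsmul_eq_mul, mul_one]
    exact_mod_cast (by omega : Nlim r w + 1 - (k + 1) ≤ Nlim r w)
  have h2 : num G k r w ≤ 2 ^ (r + 1) * Nlim r w := by
    unfold num
    refine Nat.floor_le_of_le ?_
    push_cast
    exact mul_le_mul_of_nonneg_left h1 (by positivity)
  have h3 : Nlim r w < 2 ^ (w.length + r + 3) := by
    have h4 : Nat.log 2 (w.length + r + 2) ≤ w.length + r + 2 := Nat.log_le_self _ _
    have h5 : w.length + r + 3 < 2 ^ (w.length + r + 3) := Nat.lt_two_pow_self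
    unfold Nlim
    omega
  calc num G k r w ≤ 2 ^ (r + 1) * Nlim r w := h2
    _ < 2 ^ (r + 1) * 2 ^ (w.length + r + 3) :=
      Nat.mul_lt_mul_of_pos_left h3 (by positivity)
    _ = 2 ^ (r + 1 + (w.length + r + 3)) := (pow_add _ _ _).symm
    _ ≤ 2 ^ (2 * (triple k r w).length + 4) := by
      rw [triple_length]
      exact Nat.pow_le_pow_right (by norm_num) (by omega)

end Pool.Agent.RelM
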