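import Pool.Agent.RelM.Targets

/-!
# Reading a number from the oracle (job READ)

The program asks, for `j = 0, 1, 2, ...`, whether `j` is less than the size of the number, what its
bit number `j` is, and whether `j < r + 1`.
-/

set_option autoImplicit false

namespace Pool.Agent.RelM

namespace READ_

/-- stacks with contents `a`, `b`, `c` on the stacks 0, 1, 2 -/
def mk (a b c : List Bool) : ℕ → List Bool
  | 0 => a
  | 1 => b
  | 2 => c
  | _ => []

lemma upd0 (a b c x : List Bool) : Function.update (mk a b c) 0 x = mk x b c := by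
  funext i
  rcases i with _ | _ | _ | i <;> simp [Function.update, mk]

lemma upd1 (a b c x : List Bool) : Function.update (mk a b c) 1 x = mk a x c := by
  funext i
  rcases i with _ | _ | _ | i <;> simp [Function.update, mk]

lemma upd2 (a b c x : List Bool) : Function.update (mk a b c) 2 x = mk a b x := by
  funext i
  rcases i with _ | _ | _ | i <;> simp [Function.update, mk]

lemma start_eq (x : List Bool) : Function.update (fun _ => []) 0 x = mk x [] [] := by
  funext i
  rcases i with _ | _ | _ | i <;> simp [Function.update, mk]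

/-- the program -/
def prg : List Instr :=
  [ .push 0 false, .push 0 false, .push 0 false, .push 0 true, .push 0 true,
    .ask 0 34 6,
    .pop 0 7 7 7, .pop 0 8 8 8, .pop 0 9 9 9, .pop 0 10 10 10,
    .push 0 true, .push 0 false, .push 0 true, .push 0 true,
    .ask 0 15 17,
    .push 1 false, .pop 9 18 18 18, .push 1 true,
    .pop 0 19 19 19, .pop 0 20 20 20, .pop 0 21 21 21, .pop 0 22 22 22,
    .push 0 false, .push 0 true, .push 0 true, .push 0 true,
    .ask 0 28 27,
    .push 2 true,
    .pop 0 29 29 29, .pop 0 30 30 30, .pop 0 31 31 31, .pop 0 32 32 32,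
    .push 0 true, .pop 9 1 1 1,
    .pop 0 35 35 35, .pop 0 36 36 36, .pop 0 37 37 37, .pop 0 38 38 38,
    .push 0 false, .push 0 true, .push 0 true, .push 0 true,
    .ask 0 43 27 ]

lemma prg_length : prg.length = 43 := rfl

section Steps

variable {O : Lang} {P : List Instr} {pc l l₀ l₁ : ℕ} {a b c : List Bool} {x : Bool}

lemma st_push0 (h : P[pc]? = some (Instr.push 0 x)) :
    step O P ⟨pc, mk a b c⟩ = ⟨pc + 1, mk (x :: a) b c⟩ := by
  simp only [step, h, upd0]
  rfl

lemma st_push1 (h : P[pc]? = some (Instr.push 1 x)) :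
    step O P ⟨pc, mk a b c⟩ = ⟨pc + 1, mk a (x :: b) c⟩ := by
  simp only [step, h, upd1]
  rfl

lemma st_push2 (h : P[pc]? = some (Instr.push 2 x)) :
    step O P ⟨pc, mk a b c⟩ = ⟨pc + 1, mk a b (x :: c)⟩ := by
  simp only [step, h, upd2]
  rfl

lemma st_pop0 (h : P[pc]? = some (Instr.pop 0 l l l)) :
    step O P ⟨pc, mk (x :: a) b c⟩ = ⟨l, mk a b c⟩ := by
  have hm : mk (x :: a) b c 0 = x :: a := rfl
  simp only [step, h, hm]
  cases x <;> simp only [upd0]

lemma st_jmp (h : P[pc]? = some (Instr.pop 9 l l l)) :
    step O P ⟨pc, mk a b c⟩ = ⟨l, mk a b c⟩ := by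
  have hm : mk a b c 9 = [] := rfl
  simp only [step, h, hm]

lemma st_yes (h : P[pc]? = some (Instr.ask 0 l₀ l₁)) (ho : O a = true) :
    step O P ⟨pc, mk a b c⟩ = ⟨l₁, mk a b c⟩ := by
  have hm : mk a b c 0 = a := rfl
  simp only [step, h, hm, ho, if_true]

lemma st_no (h : P[pc]? = some (Instr.ask 0 l₀ l₁)) (ho : O a ≠ true) :
    step O P ⟨pc, mk a b c⟩ = ⟨l₀, mk a b c⟩ := by
  have hm : mk a b c 0 = a := rfl
  simp only [step, h, hm, if_neg ho]

end Steps

/-- `c'` is reached from `c` in exactly `n` steps -/
structure Rc (O : Lang) (n : ℕ) (c c' : Cfg) : Prop where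
  eq : (step O prg)^[n] c = c'

lemma Rc.one {O : Lang} {c c' : Cfg} (h : step O prg c = c') : Rc O 1 c c' := ⟨h⟩

lemma Rc.trans {O : Lang} {n m : ℕ} {c c' c'' : Cfg} (h : Rc O n c c') (h' : Rc O m c' c'') :
    Rc O (n + m) c c'' := by
  refine ⟨?_⟩
  rw [Nat.add_comm, Function.iterate_add_apply, h.eq, h'.eq]

variable {O : Lang}

/-- four pops -/
lemma pops {i : ℕ} (h1 : prg[i]? = some (.pop 0 (i + 1) (i + 1) (i + 1)))
    (h2 : prg[i + 1]? = some (.pop 0 (i + 2) (i + 2) (i + 2)))
    (h3 : prg[i + 2]? = some (.pop 0 (i + 3) (i + 3) (i + 3)))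
    (h4 : prg[i + 3]? = some (.pop 0 (i + 4) (i + 4) (i + 4)))
    (x1 x2 x3 x4 : Bool) (W b c : List Bool) :
    Rc O 4 ⟨i, mk (x1 :: x2 :: x3 :: x4 :: W) b c⟩ ⟨i + 4, mk W b c⟩ :=
  (((Rc.one (st_pop0 h1)).trans (Rc.one (st_pop0 h2))).trans (Rc.one (st_pop0 h3))).trans
    (Rc.one (st_pop0 h4))

/-- four pushes -/
lemma pushs {i : ℕ} (x1 x2 x3 x4 : Bool) (h1 : prg[i]? = some (.push 0 x1))
    (h2 : prg[i + 1]? = some (.push 0 x2)) (h3 : prg[i + 2]? = some (.push 0 x3))
    (h4 : prg[i + 3]? = some (.push 0 x4)) (W b c : List Bool) :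
    Rc O 4 ⟨i, mk W b c⟩ ⟨i + 4, mk (x4 :: x3 :: x2 :: x1 :: W) b c⟩ :=
  (((Rc.one (st_push0 h1)).trans (Rc.one (st_push0 h2))).trans (Rc.one (st_push0 h3))).trans
    (Rc.one (st_push0 h4))

/-- from 28 to the next round -/
lemma tail_seg (x1 x2 x3 x4 : Bool) (W b c : List Bool) :
    Rc O 6 ⟨28, mk (x1 :: x2 :: x3 :: x4 :: W) b c⟩ ⟨1, mk (true :: W) b c⟩ :=
  ((pops (i := 28) rfl rfl rfl rfl x1 x2 x3 x4 W b c).trans (Rc.one (st_push0 rfl))).trans
    (Rc.one (st_jmp rfl))

lemma tail_seg' (x1 x2 x3 x4 : Bool) (W b c : List Bool) :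
    Rc O 7 ⟨27, mk (x1 :: x2 :: x3 :: x4 :: W) b c⟩ ⟨1, mk (true :: W) b (true :: c)⟩ :=
  (Rc.one (st_push2 rfl)).trans (tail_seg x1 x2 x3 x4 W b (true :: c))

/-- the first question, answer yes -/
lemma first_yes (W b c : List Bool) (h : O (true :: true :: false :: false :: W) = true) :
    Rc O 5 ⟨1, mk W b c⟩ ⟨6, mk (true :: true :: false :: false :: W) b c⟩ :=
  (pushs (i := 1) false false true true rfl rfl rfl rfl W b c).trans (Rc.one (st_yes rfl h))

lemma first_no (W b c : List Bool) (h : O (true :: true :: false :: false :: W) ≠ true) :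
    Rc O 5 ⟨1, mk W b c⟩ ⟨34, mk (true :: true :: false :: false :: W) b c⟩ :=
  (pushs (i := 1) false false true true rfl rfl rfl rfl W b c).trans (Rc.one (st_no rfl h))

/-- the second question -/
lemma second_yes (x1 x2 x3 x4 : Bool) (W b c : List Bool)
    (h : O (true :: true :: false :: true :: W) = true) :
    Rc O 10 ⟨6, mk (x1 :: x2 :: x3 :: x4 :: W) b c⟩
      ⟨18, mk (true :: true :: false :: true :: W) (true :: b) c⟩ :=
  (((pops (i := 6) rfl rfl rfl rfl x1 x2 x3 x4 W b c).trans
    (pushs (i := 10) true false true true rfl rfl rfl rfl W b c)).trans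
    (Rc.one (st_yes rfl h))).trans (Rc.one (st_push1 rfl))

lemma second_no (x1 x2 x3 x4 : Bool) (W b c : List Bool)
    (h : O (true :: true :: false :: true :: W) ≠ true) :
    Rc O 11 ⟨6, mk (x1 :: x2 :: x3 :: x4 :: W) b c⟩
      ⟨18, mk (true :: true :: false :: true :: W) (false :: b) c⟩ :=
  ((((pops (i := 6) rfl rfl rfl rfl x1 x2 x3 x4 W b c).trans
    (pushs (i := 10) true false true true rfl rfl rfl rfl W b c)).trans
    (Rc.one (st_no rfl h))).trans (Rc.one (st_push1 rfl))).trans (Rc.one (st_jmp rfl))

/-- the third question after a positive first answer -/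
lemma third_yes (x1 x2 x3 x4 : Bool) (W b c : List Bool)
    (h : O (true :: true :: true :: false :: W) = true) :
    Rc O 16 ⟨18, mk (x1 :: x2 :: x3 :: x4 :: W) b c⟩ ⟨1, mk (true :: W) b (true :: c)⟩ :=
  (((pops (i := 18) rfl rfl rfl rfl x1 x2 x3 x4 W b c).trans
    (pushs (i := 22) false true true true rfl rfl rfl rfl W b c)).trans
    (Rc.one (st_yes rfl h))).trans (tail_seg' _ _ _ _ W b c)

lemma third_no (x1 x2 x3 x4 : Bool) (W b c : List Bool)
    (h : O (true :: true :: true :: false :: W) ≠ true) :
    Rc O 15 ⟨18, mk (x1 :: x2 :: x3 :: x4 :: W) b c⟩ ⟨1, mk (true :: W) b c⟩ :=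
  (((pops (i := 18) rfl rfl rfl rfl x1 x2 x3 x4 W b c).trans
    (pushs (i := 22) false true true true rfl rfl rfl rfl W b c)).trans
    (Rc.one (st_no rfl h))).trans (tail_seg _ _ _ _ W b c)

/-- the third question after a negative first answer -/
lemma last_yes (x1 x2 x3 x4 : Bool) (W b c : List Bool)
    (h : O (true :: true :: true :: false :: W) = true) :
    Rc O 16 ⟨34, mk (x1 :: x2 :: x3 :: x4 :: W) b c⟩ ⟨1, mk (true :: W) b (true :: c)⟩ :=
  (((pops (i := 34) rfl rfl rfl rfl x1 x2 x3 x4 W b c).trans
    (pushs (i := 38) false true true true rfl rfl rfl rfl W b c)).trans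
    (Rc.one (st_yes rfl h))).trans (tail_seg' _ _ _ _ W b c)

lemma last_no (x1 x2 x3 x4 : Bool) (W b c : List Bool)
    (h : O (true :: true :: true :: false :: W) ≠ true) :
    Rc O 9 ⟨34, mk (x1 :: x2 :: x3 :: x4 :: W) b c⟩
      ⟨43, mk (true :: true :: true :: false :: W) b c⟩ :=
  ((pops (i := 34) rfl rfl rfl rfl x1 x2 x3 x4 W b c).trans
    (pushs (i := 38) false true true true rfl rfl rfl rfl W b c)).trans
    (Rc.one (st_no rfl h))

/-! ### Binary numbers -/

/-- the lowest `j` bits of `n`, the highest one first -/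
def bl (n : ℕ) : ℕ → List Bool
  | 0 => []
  | j + 1 => Nat.testBit n j :: bl n j

lemma bl_length (n j : ℕ) : (bl n j).length = j := by
  induction j with
  | zero => rfl
  | succ j ih => simp [bl, ih]

lemma foldl_bin (l : List Bool) (a : ℕ) :
    l.foldl (fun a b => 2 * a + b.toNat) a =
      a * 2 ^ l.length + l.foldl (fun a b => 2 * a + b.toNat) 0 := by
  induction l generalizing a with
  | nil => simp
  | cons x l ih =>
    rw [List.foldl_cons, List.foldl_cons, ih, ih (2 * 0 + x.toNat), List.length_cons, pow_succ]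
    ring

lemma binVal_bl (n j : ℕ) : binVal (bl n j) = n % 2 ^ j := by
  induction j with
  | zero => simp [bl, binVal, Nat.mod_one]
  | succ j ih =>
    unfold binVal at ih ⊢
    rw [bl, List.foldl_cons, foldl_bin, ih, bl_length, Nat.mod_pow_succ, Nat.toNat_testBit]
    ring

lemma binVal_size (n : ℕ) : binVal (bl n (Nat.size n)) = n := by
  rw [binVal_bl]
  exact Nat.mod_eq_of_lt (Nat.lt_size_self n)

/-! ### The rounds -/

/-- the configuration at the beginning of round `j` -/
def cf (I : List Bool) (n r j : ℕ) : Cfg :=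
  ⟨1, mk (List.replicate j true ++ false :: I) (bl n (min j (Nat.size n)))
    (List.replicate (min j (r + 1)) true)⟩

lemma round {I : List Bool} {n r : ℕ}
    (h1 : ∀ j, O (true :: true :: false :: false :: (List.replicate j true ++ false :: I)) = true ↔
      j < Nat.size n)
    (h2 : ∀ j, O (true :: true :: false :: true :: (List.replicate j true ++ false :: I)) = true ↔
      Nat.testBit n j = true)
    (h3 : ∀ j, O (true :: true :: true :: false :: (List.replicate j true ++ false :: I)) = true ↔
      j < r + 1)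
    (j : ℕ) (hj : j < max (Nat.size n) (r + 1)) :
    ∃ t ≤ 40, Rc O t (cf I n r j) (cf I n r (j + 1)) := by
  have hrep : List.replicate (j + 1) true ++ false :: I =
      true :: (List.replicate j true ++ false :: I) := by
    rw [List.replicate_succ, List.cons_append]
  unfold cf
  rw [hrep]
  by_cases ha : j < Nat.size n
  · have e1 : min j (Nat.size n) = j := min_eq_left ha.le
    have e2 : min (j + 1) (Nat.size n) = j + 1 := min_eq_left ha
    rw [e1, e2]
    have s1 := first_yes (List.replicate j true ++ false :: I) (bl n j)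
      (List.replicate (min j (r + 1)) true) ((h1 j).2 ha)
    -- the second question
    have s2 : ∃ t ≤ 11, Rc O t
        ⟨6, mk (true :: true :: false :: false :: (List.replicate j true ++ false :: I)) (bl n j)
          (List.replicate (min j (r + 1)) true)⟩
        ⟨18, mk (true :: true :: false :: true :: (List.replicate j true ++ false :: I))
          (bl n (j + 1)) (List.replicate (min j (r + 1)) true)⟩ := by
      by_cases hb : Nat.testBit n j = true
      · refine ⟨10, by norm_num, ?_⟩
        have := second_yes true true false false (List.replicate j true ++ false :: I) (bl n j)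
          (List.replicate (min j (r + 1)) true) ((h2 j).2 hb)
        rw [bl, hb]
        exact this
      · refine ⟨11, le_refl _, ?_⟩
        have := second_no true true false false (List.replicate j true ++ false :: I) (bl n j)
          (List.replicate (min j (r + 1)) true) (fun h => hb ((h2 j).1 h))
        rw [Bool.not_eq_true] at hb
        rw [bl, hb]
        exact this
    obtain ⟨t2, ht2, s2⟩ := s2
    by_cases hc : j < r + 1
    · have e3 : min j (r + 1) = j := min_eq_left hc.le
      have e4 : min (j + 1) (r + 1) = j + 1 := min_eq_left hc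
      rw [e3] at s1 s2
      rw [e3, e4, List.replicate_succ]
      refine ⟨5 + t2 + 16, by omega, (s1.trans s2).trans ?_⟩
      exact third_yes _ _ _ _ _ _ _ ((h3 j).2 hc)
    · have e3 : min j (r + 1) = r + 1 := min_eq_right (by omega)
      have e4 : min (j + 1) (r + 1) = r + 1 := min_eq_right (by omega)
      rw [e3] at s1 s2
      rw [e3, e4]
      refine ⟨5 + t2 + 15, by omega, (s1.trans s2).trans ?_⟩
      exact third_no _ _ _ _ _ _ _ (fun h => hc ((h3 j).1 h))
  · have e1 : min j (Nat.size n) = Nat.size n := min_eq_right (by omega)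
    have e2 : min (j + 1) (Nat.size n) = Nat.size n := min_eq_right (by omega)
    have hc : j < r + 1 := by
      rcases lt_max_iff.1 hj with h | h
      · exact absurd h ha
      · exact h
    have e3 : min j (r + 1) = j := min_eq_left hc.le
    have e4 : min (j + 1) (r + 1) = j + 1 := min_eq_left hc
    rw [e1, e2, e3, e4, List.replicate_succ]
    refine ⟨5 + 16, by norm_num, ?_⟩
    exact (first_no _ _ _ (fun h => ha ((h1 j).1 h))).trans
      (last_yes _ _ _ _ _ _ _ ((h3 j).2 hc))

lemma rounds {I : List Bool} {n r : ℕ}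
    (h1 : ∀ j, O (true :: true :: false :: false :: (List.replicate j true ++ false :: I)) = true ↔
      j < Nat.size n)
    (h2 : ∀ j, O (true :: true :: false :: true :: (List.replicate j true ++ false :: I)) = true ↔
      Nat.testBit n j = true)
    (h3 : ∀ j, O (true :: true :: true :: false :: (List.replicate j true ++ false :: I)) = true ↔
      j < r + 1)
    (j : ℕ) (hj : j ≤ max (Nat.size n) (r + 1)) :
    ∃ t ≤ 40 * j, Rc O t (cf I n r 0) (cf I n r j) := by
  induction j with
  | zero => exact ⟨0, le_refl _, ⟨rfl⟩⟩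
  | succ j ih =>
    obtain ⟨t, ht, hr⟩ := ih (by omega)
    obtain ⟨t', ht', hr'⟩ := round h1 h2 h3 j (by omega)
    exact ⟨t + t', by omega, hr.trans hr'⟩

end READ_

open READ_ in
/-- Job READ. -/
theorem read (h : T_STAY) : T_READ := by
  refine ⟨prg, 9, fun O f h1 h2 h3 hs k r w => ?_⟩
  set I := triple k r w with hI
  set n := f k r w with hn
  set M := max (Nat.size n) (r + 1) with hM
  have h1' : ∀ j, O (true :: true :: false :: false :: (List.replicate j true ++ false :: I)) = true
      ↔ j < Nat.size n := fun j => h1 j k r w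
  have h2' : ∀ j, O (true :: true :: false :: true :: (List.replicate j true ++ false :: I)) = true
      ↔ Nat.testBit n j = true := fun j => h2 j k r w
  have h3' : ∀ j, O (true :: true :: true :: false :: (List.replicate j true ++ false :: I)) = true
      ↔ j < r + 1 := fun j => h3 j k r w
  obtain ⟨t, ht, hr⟩ := rounds h1' h2' h3' M le_rfl
  -- the first step
  have s0 : Rc O 1 ⟨0, mk I [] []⟩ (cf I n r 0) := by
    have : Rc O 1 ⟨0, mk I [] []⟩ ⟨1, mk (false :: I) [] []⟩ := Rc.one (st_push0 rfl)
    simpa [cf, bl] using this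
  -- the last round
  have hend : Rc O 14 (cf I n r M)
      ⟨43, mk (true :: true :: true :: false :: (List.replicate M true ++ false :: I))
        (bl n (Nat.size n)) (List.replicate (r + 1) true)⟩ := by
    have e1 : min M (Nat.size n) = Nat.size n := min_eq_right (le_max_left _ _)
    have e2 : min M (r + 1) = r + 1 := min_eq_right (le_max_right _ _)
    unfold cf
    rw [e1, e2]
    refine (first_no _ _ _ ?_).trans (last_no _ _ _ _ _ _ _ ?_)
    · intro h'
      have := (h1' M).1 h'
      have := le_max_left (Nat.size n) (r + 1)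
      omega
    · intro h'
      have := (h3' M).1 h'
      have := le_max_right (Nat.size n) (r + 1)
      omega
  have htot := (s0.trans hr).trans hend
  have hrun : run O prg I (1 + t + 14) =
      ⟨43, mk (true :: true :: true :: false :: (List.replicate M true ++ false :: I))
        (bl n (Nat.size n)) (List.replicate (r + 1) true)⟩ := by
    unfold run
    rw [start_eq]
    exact htot.eq
  have hhalt : Halts O prg I (1 + t + 14) := by
    unfold Halts
    rw [hrun, prg_length]
  have hlen : r + 1 ≤ I.length := by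
    rw [hI]
    unfold triple
    simp only [List.length_append, List.length_replicate, List.length_cons]
    omega
  have hsize : Nat.size n ≤ 2 * I.length + 4 := hs k r w
  have hMle : M ≤ 2 * I.length + 4 := max_le hsize (by omega)
  have hbig : 1 + t + 14 ≤ (I.length + 2) ^ 9 := by
    have hp : 2 ^ 8 ≤ (I.length + 2) ^ 8 := Nat.pow_le_pow_left (by omega) 8
    have hq : (I.length + 2) ^ 9 = (I.length + 2) ^ 8 * (I.length + 2) := pow_succ _ _
    have hp' : 2 ^ 8 * (I.length + 2) ≤ (I.length + 2) ^ 8 * (I.length + 2) :=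
      Nat.mul_le_mul_right _ hp
    omega
  have hfin : run O prg I ((I.length + 2) ^ 9) = run O prg I (1 + t + 14) :=
    h O prg I _ _ hhalt hbig
  refine ⟨?_, ?_⟩
  · unfold Halts
    rw [hfin]
    exact hhalt
  · rw [hfin, hrun]
    unfold outVal
    have g1 : (mk (true :: true :: true :: false :: (List.replicate M true ++ false :: I))
        (bl n (Nat.size n)) (List.replicate (r + 1) true)) 1 = bl n (Nat.size n) := rfl
    have g2 : (mk (true :: true :: true :: false :: (List.replicate M true ++ false :: I))
        (bl n (Nat.size n)) (List.replicate (r + 1) true)) 2 = List.replicate (r + 1) true := rfl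
    have g3 : (mk (true :: true :: true :: false :: (List.replicate M true ++ false :: I))
        (bl n (Nat.size n)) (List.replicate (r + 1) true)) 3 = [] := rfl
    simp only [g1, g2, g3, if_true, binVal_size, List.length_replicate, one_mul]

end Pool.Agent.RelM
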