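import Pool.Agent.RelM.Targets

/-!
# Finding a hidden key (job RM-HIT)
-/

set_option autoImplicit false

namespace Pool.Agent.RelM

open MeasureTheory Set
open scoped ENNReal

namespace HitJob

lemma unary_inj {κ κ' : ℕ} {u u' : List Bool}
    (h : List.replicate κ true ++ false :: u = List.replicate κ' true ++ false :: u') :
    κ = κ' ∧ u = u' := by
  induction κ generalizing κ' with
  | zero =>
    cases κ' with
    | zero => simpa using h
    | succ n => simp [List.replicate_succ] at h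
  | succ m ih =>
    cases κ' with
    | zero => simp [List.replicate_succ] at h
    | succ n =>
      simp only [List.replicate_succ, List.cons_append, List.cons.injEq, true_and] at h
      obtain ⟨h1, h2⟩ := ih h
      exact ⟨by rw [h1], h2⟩

lemma pair_inj' {x x' y y' : List Bool} (h : pair x y = pair x' y') : x = x' ∧ y = y' := by
  induction x generalizing x' with
  | nil =>
    cases x' with
    | nil => simpa [pair] using h
    | cons b l => simp [pair] at h
  | cons a l ih =>
    cases x' with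
    | nil => simp [pair] at h
    | cons b l' =>
      have h' : a = b ∧ pair l y = pair l' y' := by
        simpa [pair] using h
      obtain ⟨h1, h2⟩ := ih h'.2
      exact ⟨by rw [h'.1, h1], h2⟩

lemma wq_inj' {κ κ' : ℕ} {x x' y y' : List Bool} (h : wq κ x y = wq κ' x' y') :
    κ = κ' ∧ x = x' ∧ y = y' := by
  unfold wq at h
  simp only [List.cons.injEq, true_and] at h
  obtain ⟨h1, h2⟩ := unary_inj h
  obtain ⟨h3, h4⟩ := pair_inj' h2
  exact ⟨h1, h3, h4⟩

lemma length_wit (ω : Om) (κ : ℕ) (x : List Bool) : (wit ω κ x).length = lev κ x := by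
  simp [wit]

lemma lev_le_length_wq (ω : Om) (κ : ℕ) (x : List Bool) :
    lev κ x ≤ (wq κ x (wit ω κ x)).length := by
  have h1 := length_wit ω κ x
  unfold wq pair
  simp only [List.length_cons, List.length_append, List.length_replicate]
  omega

lemma le_length_sq1 (κ : ℕ) (x : List Bool) (m : ℕ) : m ≤ (sq1 κ x m).length := by
  unfold sq1 triple
  simp only [List.length_cons, List.length_append, List.length_replicate]
  omega

/-- the runs on a fixed input depend on finitely many coins -/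
lemma run_congr (hLoc : T_LOC) (hLen : T_LEN) (hOloc : T_OLOC) (G : Lang)
    (S : ℕ → List Bool → Prop) (P : List Instr) (a : List Bool) (s : ℕ) {ω ω' : Om}
    (h : ∀ i ∈ Short (a.length + s), ω i = ω' i) :
    ∀ s' ≤ s, run (orcV S G ω') P a s' = run (orcV S G ω) P a s' := by
  refine hLoc _ _ P a s fun s' hs' q hq => ?_
  exact hOloc S G G ω ω' (a.length + s) h (fun _ _ => rfl) q ((hLen _ _ _ _ _ hq).trans (by omega))

lemma wit_congr {ω ω' : Om} {m κ : ℕ} {x : List Bool} (hm : lev κ x ≤ m)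
    (h : ∀ i ∈ Short m, ω i = ω' i) : wit ω κ x = wit ω' κ x := by
  unfold wit
  refine List.map_congr_left fun i hi => ?_
  rw [List.mem_range] at hi
  exact h _ ⟨hm, by show i + 1 ≤ lev κ x; omega⟩

/-- the event that a hidden key is asked at step `s` on input `a` -/
def K (G : Lang) (S : ℕ → List Bool → Prop) (P : List Instr) (s : ℕ) (a : List Bool) : Set Om :=
  {ω | ∃ κ x, ¬ S κ x ∧ Asks (orcV S G ω) P a s (wq κ x (wit ω κ x))}

lemma K_sub (hLoc : T_LOC) (hLen : T_LEN) (hOloc : T_OLOC) (G : Lang)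
    (S : ℕ → List Bool → Prop) (P : List Instr) (s : ℕ) (a : List Bool) {ω ω' : Om}
    (h : ∀ i ∈ Short (a.length + s), ω i = ω' i) (hK : ω ∈ K G S P s a) : ω' ∈ K G S P s a := by
  obtain ⟨κ, x, hS, hq⟩ := hK
  have hr := run_congr hLoc hLen hOloc G S P a s h s le_rfl
  have hl : lev κ x ≤ a.length + s := (lev_le_length_wq ω κ x).trans (hLen _ _ _ _ _ hq)
  have hw := wit_congr hl h
  refine ⟨κ, x, hS, ?_⟩
  rw [← hw]
  obtain ⟨i, l₀, l₁, h1, h2⟩ := hq
  refine ⟨i, l₀, l₁, ?_, ?_⟩
  · rw [hr]; exact h1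
  · rw [hr]; exact h2

lemma measurable_K (hLoc : T_LOC) (hLen : T_LEN) (hOloc : T_OLOC) (hFD : T_FD)
    (hShort : T_SHORTFIN) (G : Lang) (S : ℕ → List Bool → Prop) (P : List Instr) (s : ℕ)
    (a : List Bool) : MeasurableSet (K G S P s a) := by
  refine hFD (Short (a.length + s)) (hShort _) _ fun ω ω' h => ⟨?_, ?_⟩
  · exact K_sub hLoc hLen hOloc G S P s a h
  · exact K_sub hLoc hLen hOloc G S P s a fun i hi => (h i hi).symm

lemma measure_KX (hLoc : T_LOC) (hLen : T_LEN) (hOne : T_ONE) (hOvis : T_OVIS)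
    (hOloc : T_OLOC) (hMix : T_MIXP) (hFD : T_FD) (hWit : T_WIT) (hShort : T_SHORTFIN)
    (G : Lang) (S : ℕ → List Bool → Prop) (P : List Instr) (X : Om → List Bool) (s ℓ : ℕ)
    (hXm : ∀ a : List Bool, MeasurableSet {ω | X ω = a})
    (hX : ∀ ω ω' : Om, (∀ κ x i, S κ x → ω (κ, x, i) = ω' (κ, x, i)) → X ω = X ω')
    (hℓ : ∀ κ x, ¬ S κ x → ℓ ≤ lev κ x) :
    coin {ω | ω ∈ K G S P s (X ω)} ≤ (2⁻¹ : ℝ≥0∞) ^ ℓ := by
  have hmeas : MeasurableSet {ω | ω ∈ K G S P s (X ω)} := by
    have : {ω | ω ∈ K G S P s (X ω)} = ⋃ a : List Bool, ({ω | X ω = a} ∩ K G S P s a) := by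
      ext ω
      simp
    rw [this]
    exact MeasurableSet.iUnion fun a => (hXm a).inter
      (measurable_K hLoc hLen hOloc hFD hShort G S P s a)
  set p : Set Idx := {i | S i.1 i.2.1} with hp
  have hmp := hMix p
  rw [← hmp.measure_preimage hmeas.nullMeasurableSet,
    Measure.prod_apply (hmp.measurable hmeas)]
  calc ∫⁻ τ, coin (Prod.mk τ ⁻¹' ((fun z : Om × Om => mixP p z.1 z.2) ⁻¹'
        {ω | ω ∈ K G S P s (X ω)})) ∂coin ≤ ∫⁻ _τ : Om, (2⁻¹ : ℝ≥0∞) ^ ℓ ∂coin := by
        refine lintegral_mono fun τ => ?_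
        -- the visible coins come from `τ`
        have hv : ∀ ω : Om, ∀ κ x i, S κ x → mixP p τ ω (κ, x, i) = τ (κ, x, i) := by
          intro ω κ x i hS
          have : (κ, x, i) ∈ p := hS
          unfold mixP
          rw [if_pos this]
        have hw : ∀ ω : Om, ∀ κ x, ¬ S κ x → wit (mixP p τ ω) κ x = wit ω κ x := by
          intro ω κ x hS
          unfold wit
          refine List.map_congr_left fun i _ => ?_
          have : (κ, x, i + 1) ∉ p := hS
          unfold mixP
          rw [if_neg this]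
        have hO : ∀ ω : Om, orcV S G (mixP p τ ω) = orcV S G τ := fun ω =>
          funext fun q => hOvis S G _ _ (hv ω) q
        have hXX : ∀ ω : Om, X (mixP p τ ω) = X τ := fun ω => hX _ _ (hv ω)
        have hset : (Prod.mk τ ⁻¹' ((fun z : Om × Om => mixP p z.1 z.2) ⁻¹'
            {ω | ω ∈ K G S P s (X ω)})) =
            {ω | ∃ κ x, ¬ S κ x ∧ Asks (orcV S G τ) P (X τ) s (wq κ x (wit ω κ x))} := by
          ext ω
          show (∃ κ x, ¬ S κ x ∧ Asks (orcV S G (mixP p τ ω)) P (X (mixP p τ ω)) s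
            (wq κ x (wit (mixP p τ ω) κ x))) ↔ _
          rw [hO, hXX]
          refine exists_congr fun κ => exists_congr fun x => ?_
          constructor
          · rintro ⟨h1, h2⟩
            rw [hw ω κ x h1] at h2
            exact ⟨h1, h2⟩
          · rintro ⟨h1, h2⟩
            rw [← hw ω κ x h1] at h2
            exact ⟨h1, h2⟩
        rw [hset]
        by_cases hne : ∃ κ x y, ¬ S κ x ∧ Asks (orcV S G τ) P (X τ) s (wq κ x y)
        · obtain ⟨κ, x, y, hS, hq⟩ := hne
          calc coin {ω | ∃ κ x, ¬ S κ x ∧ Asks (orcV S G τ) P (X τ) s (wq κ x (wit ω κ x))}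
              ≤ coin {ω | wit ω κ x = y} := by
                refine measure_mono ?_
                rintro ω ⟨κ', x', hS', hq'⟩
                obtain ⟨h1, h2, h3⟩ := wq_inj' (hOne _ _ _ _ _ _ hq hq')
                show wit ω κ x = y
                rw [h1, h2]
                exact h3.symm
            _ ≤ (2⁻¹ : ℝ≥0∞) ^ lev κ x := hWit κ x y
            _ ≤ (2⁻¹ : ℝ≥0∞) ^ ℓ := by
                refine pow_le_pow_of_le_one (by positivity) ?_ (hℓ κ x hS)
                exact ENNReal.inv_le_one.2 (by norm_num)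
        · have : {ω : Om | ∃ κ x, ¬ S κ x ∧
              Asks (orcV S G τ) P (X τ) s (wq κ x (wit ω κ x))} = ∅ := by
            ext ω
            constructor
            · rintro ⟨κ, x, h1, h2⟩
              exact hne ⟨κ, x, _, h1, h2⟩
            · intro h
              exact h.elim
          rw [this, measure_empty]
          exact zero_le
    _ = (2⁻¹ : ℝ≥0∞) ^ ℓ := by
        rw [lintegral_const, measure_univ, mul_one]

end HitJob

open HitJob in
/-- Finding a hidden key. -/
theorem hit (hLoc : T_LOC) (hLen : T_LEN) (hOne : T_ONE) (hOvis : T_OVIS) (hOcut : T_OCUT)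
    (hOloc : T_OLOC) (hMix : T_MIXP) (hFD : T_FD) (hWit : T_WIT) (hShort : T_SHORTFIN) :
    T_HIT := by
  intro G S P X t ℓ hXm hX hXl hℓ
  have hsub : {ω | ∃ s ≤ t, run (orc G ω) P (X ω) s ≠ run (orcV S G ω) P (X ω) s} ⊆
      ⋃ s ∈ Finset.range t, {ω | ω ∈ K G S P s (X ω)} := by
    intro ω hω
    by_contra hcon
    simp only [Set.mem_iUnion, Finset.mem_range, not_exists, exists_prop, not_and] at hcon
    obtain ⟨s, hs, hne⟩ := hω
    apply hne
    refine hLoc _ _ P (X ω) t (fun s' hs' q hq => ?_) s hs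
    by_contra hne'
    rcases hOcut S G ω q (fun h => hne' h.symm) with ⟨κ, x, hS, hq'⟩ | ⟨κ, x, m, hS, hq', hm⟩
    · refine hcon s' hs' ?_
      refine ⟨κ, x, hS, ?_⟩
      rw [← hq']
      exact hq
    · have h1 := hLen _ _ _ _ _ hq
      have h2 := le_length_sq1 κ x m
      rw [← hq'] at h2
      have h3 := hXl ω
      have h4 : 2 ^ ℓ ≤ 2 ^ lev κ x := Nat.pow_le_pow_right (by norm_num) (hℓ κ x hS)
      omega
  calc coin {ω | ∃ s ≤ t, run (orc G ω) P (X ω) s ≠ run (orcV S G ω) P (X ω) s}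
      ≤ coin (⋃ s ∈ Finset.range t, {ω | ω ∈ K G S P s (X ω)}) := measure_mono hsub
    _ ≤ ∑ s ∈ Finset.range t, coin {ω | ω ∈ K G S P s (X ω)} :=
        measure_biUnion_finset_le _ _
    _ ≤ ∑ _s ∈ Finset.range t, (2⁻¹ : ℝ≥0∞) ^ ℓ := Finset.sum_le_sum fun s _ =>
        measure_KX hLoc hLen hOne hOvis hOloc hMix hFD hWit hShort G S P X s ℓ hXm hX hℓ
    _ = t * (2⁻¹ : ℝ≥0∞) ^ ℓ := by
        rw [Finset.sum_const, Finset.card_range, nsmul_eq_mul]

end Pool.Agent.RelM
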