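import Pool.Agent.RelM.NPR

/-!
# Job E2R: the languages `R κ` are in `E_2`
-/

set_option autoImplicit false

namespace Pool.Agent.RelM

open MeasureTheory Set
open scoped ENNReal

/-- The stacks with `w` on stack `0`. -/
def E0 (w : List Bool) : ℕ → List Bool := Function.update (fun _ => []) 0 w

lemma E0_zero (w : List Bool) : E0 w 0 = w := by simp [E0]

lemma E0_ne (w : List Bool) (i : ℕ) (h : i ≠ 0) : E0 w i = [] := by simp [E0, h]

lemma E0_upd (w u : List Bool) : Function.update (E0 w) 0 u = E0 u := by simp [E0]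

lemma step_push (O : Lang) (P : List Instr) (pc : ℕ) (st : ℕ → List Bool) (s : ℕ) (b : Bool)
    (h : P[pc]? = some (Instr.push s b)) :
    step O P ⟨pc, st⟩ = ⟨pc + 1, Function.update st s (b :: st s)⟩ := by
  simp only [step, h]

lemma step_ask (O : Lang) (P : List Instr) (pc : ℕ) (st : ℕ → List Bool) (s l₀ l₁ : ℕ)
    (h : P[pc]? = some (Instr.ask s l₀ l₁)) :
    step O P ⟨pc, st⟩ = ⟨if O (st s) then l₁ else l₀, st⟩ := by
  simp only [step, h]

lemma step_pop_nil (O : Lang) (P : List Instr) (pc : ℕ) (st : ℕ → List Bool) (s l₀ l₁ l₂ : ℕ)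
    (h : P[pc]? = some (Instr.pop s l₀ l₁ l₂)) (h2 : st s = []) :
    step O P ⟨pc, st⟩ = ⟨l₂, st⟩ := by
  simp only [step, h, h2]

lemma step_pop_cons (O : Lang) (P : List Instr) (pc : ℕ) (st : ℕ → List Bool) (s l l₂ : ℕ)
    (b : Bool) (u : List Bool)
    (h : P[pc]? = some (Instr.pop s l l l₂)) (h2 : st s = b :: u) :
    step O P ⟨pc, st⟩ = ⟨l, Function.update st s u⟩ := by
  cases b <;> simp only [step, h, h2]

/-- The instructions that build the question. -/
def eset (κ : ℕ) : List Instr :=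
  (false :: (List.replicate κ true ++ [false])).map (Instr.push 0)

/-- The loop. -/
def eloop (a : ℕ) : List Instr :=
  [Instr.push 0 true, Instr.push 0 false, Instr.ask 0 (a + 3) (a + 7),
    Instr.pop 0 (a + 4) (a + 4) (a + 4), Instr.pop 0 (a + 5) (a + 5) (a + 5),
    Instr.push 0 true, Instr.pop 9 a a a,
    Instr.pop 0 (a + 8) (a + 8) (a + 8), Instr.pop 0 (a + 9) (a + 9) (a + 9),
    Instr.push 0 false, Instr.push 0 true, Instr.ask 0 (a + 12) (a + 14),
    Instr.push 1 false, Instr.pop 9 (a + 15) (a + 15) (a + 15), Instr.push 1 true]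

/-- The program for `R κ` in `E_2`. -/
def eprog (κ : ℕ) : List Instr := eset κ ++ eloop (κ + 2)

lemma eset_length (κ : ℕ) : (eset κ).length = κ + 2 := by simp [eset]

lemma eprog_length (κ : ℕ) : (eprog κ).length = κ + 17 := by
  simp [eprog, eset_length, eloop]

lemma eprog_get (κ i : ℕ) : (eprog κ)[κ + 2 + i]? = (eloop (κ + 2))[i]? := by
  unfold eprog
  rw [List.getElem?_append_right (by rw [eset_length]; omega), eset_length]
  congr 1
  omega

lemma eprog_set (O : Lang) (κ : ℕ) (x : List Bool) :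
    run O (eprog κ) x (κ + 2) = ⟨κ + 2, E0 (triple 0 κ x)⟩ := by
  have h := push_seg O (eprog κ) 0 (false :: (List.replicate κ true ++ [false]))
    ⟨0, Function.update (fun _ => []) 0 x⟩ (by
      intro j hj
      simp only [zero_add]
      unfold eprog eset
      rw [List.getElem?_append_left (by simpa using hj), List.getElem?_map,
        List.getElem?_eq_getElem hj]
      rfl)
  have hl : (false :: (List.replicate κ true ++ [false])).length = κ + 2 := by simp
  rw [hl] at h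
  unfold run
  rw [h]
  simp [triple, E0, Function.update_idem]

/-- One round of the loop with the answer no. -/
lemma eprog_round (O : Lang) (κ m : ℕ) (x : List Bool) (h : ¬ O (sq0 κ x m) = true) :
    (step O (eprog κ))^[7] ⟨κ + 2, E0 (triple m κ x)⟩ = ⟨κ + 2, E0 (triple (m + 1) κ x)⟩ := by
  have h0 : (eprog κ)[κ + 2 + 0]? = _ := eprog_get κ 0
  have h1 : (eprog κ)[κ + 2 + 1]? = _ := eprog_get κ 1
  have h2 : (eprog κ)[κ + 2 + 2]? = _ := eprog_get κ 2
  have h3 : (eprog κ)[κ + 2 + 3]? = _ := eprog_get κ 3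
  have h4 : (eprog κ)[κ + 2 + 4]? = _ := eprog_get κ 4
  have h5 : (eprog κ)[κ + 2 + 5]? = _ := eprog_get κ 5
  have h6 : (eprog κ)[κ + 2 + 6]? = _ := eprog_get κ 6
  simp only [eloop, List.getElem?_cons_zero, List.getElem?_cons_succ] at h0 h1 h2 h3 h4 h5 h6
  simp only [Function.iterate_succ_apply, Function.iterate_zero_apply]
  rw [step_push O _ _ _ _ _ h0, E0_zero, E0_upd]
  rw [step_push O _ _ _ _ _ h1, E0_zero, E0_upd]
  rw [step_ask O _ _ _ _ _ _ h2, E0_zero]
  rw [if_neg (show ¬ O (false :: true :: triple m κ x) = true from h)]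
  rw [step_pop_cons O _ _ _ _ _ _ _ _ h3 (E0_zero _), E0_upd]
  rw [step_pop_cons O _ _ _ _ _ _ _ _ h4 (E0_zero _), E0_upd]
  rw [step_push O _ _ _ _ _ h5, E0_zero, E0_upd]
  rw [step_pop_nil O _ _ _ _ _ _ _ h6 (E0_ne _ _ (by norm_num))]
  rfl

/-- The last round, with the answer `b`. -/
lemma eprog_last (O : Lang) (κ m : ℕ) (x : List Bool) (h : O (sq0 κ x m) = true) :
    (step O (eprog κ))^[10] ⟨κ + 2, E0 (triple m κ x)⟩ =
      ⟨κ + 17, Function.update (E0 (sq1 κ x m)) 1 [O (sq1 κ x m)]⟩ := by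
  have h0 : (eprog κ)[κ + 2 + 0]? = _ := eprog_get κ 0
  have h1 : (eprog κ)[κ + 2 + 1]? = _ := eprog_get κ 1
  have h2 : (eprog κ)[κ + 2 + 2]? = _ := eprog_get κ 2
  have h7 : (eprog κ)[κ + 2 + 7]? = _ := eprog_get κ 7
  have h8 : (eprog κ)[κ + 2 + 8]? = _ := eprog_get κ 8
  have h9 : (eprog κ)[κ + 2 + 9]? = _ := eprog_get κ 9
  have h10 : (eprog κ)[κ + 2 + 10]? = _ := eprog_get κ 10
  have h11 : (eprog κ)[κ + 2 + 11]? = _ := eprog_get κ 11
  have h12 : (eprog κ)[κ + 2 + 12]? = _ := eprog_get κ 12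
  have h13 : (eprog κ)[κ + 2 + 13]? = _ := eprog_get κ 13
  have h14 : (eprog κ)[κ + 2 + 14]? = _ := eprog_get κ 14
  have h15 : (eprog κ)[κ + 2 + 15]? = none := by
    rw [List.getElem?_eq_none_iff, eprog_length]
  simp only [eloop, List.getElem?_cons_zero, List.getElem?_cons_succ] at h0 h1 h2 h7 h8 h9 h10 h11 h12 h13 h14
  simp only [Function.iterate_succ_apply, Function.iterate_zero_apply]
  rw [step_push O _ _ _ _ _ h0, E0_zero, E0_upd]
  rw [step_push O _ _ _ _ _ h1, E0_zero, E0_upd]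
  rw [step_ask O _ _ _ _ _ _ h2, E0_zero]
  rw [if_pos (show O (false :: true :: triple m κ x) = true from h)]
  rw [step_pop_cons O _ _ _ _ _ _ _ _ h7 (E0_zero _), E0_upd]
  rw [step_pop_cons O _ _ _ _ _ _ _ _ h8 (E0_zero _), E0_upd]
  rw [step_push O _ _ _ _ _ h9, E0_zero, E0_upd]
  rw [step_push O _ _ _ _ _ h10, E0_zero, E0_upd]
  rw [step_ask O _ _ _ _ _ _ h11, E0_zero]
  change step O (eprog κ) (step O (eprog κ)
    ⟨if O (sq1 κ x m) = true then _ else _, E0 (sq1 κ x m)⟩) = _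
  by_cases hb : O (sq1 κ x m) = true
  · rw [if_pos hb, step_push O _ _ _ _ _ h14, E0_ne _ _ (by norm_num), hb]
    simp only [step, h15]
  · rw [if_neg hb, step_push O _ _ _ _ _ h12, E0_ne _ _ (by norm_num)]
    rw [step_pop_nil O _ _ _ _ _ _ _ h13 (by simp [E0])]
    simp only [Bool.not_eq_true] at hb
    rw [hb]

lemma eprog_loop (O : Lang) (κ M : ℕ) (x : List Bool)
    (h : ∀ m < M, ¬ O (sq0 κ x m) = true) (m : ℕ) (hm : m ≤ M) :
    run O (eprog κ) x (7 * m + (κ + 2)) = ⟨κ + 2, E0 (triple m κ x)⟩ := by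
  induction m with
  | zero => rw [mul_zero, zero_add]; exact eprog_set O κ x
  | succ m ih =>
    have h1 : 7 * (m + 1) + (κ + 2) = 7 + (7 * m + (κ + 2)) := by ring
    rw [h1]
    unfold run at ih ⊢
    rw [Function.iterate_add_apply, ih (by omega), eprog_round O κ m x (h m (by omega))]

lemma eprog_run (O : Lang) (κ M : ℕ) (x : List Bool)
    (h : ∀ m < M, ¬ O (sq0 κ x m) = true) (h' : O (sq0 κ x M) = true) :
    run O (eprog κ) x (7 * M + κ + 12) =
      ⟨κ + 17, Function.update (E0 (sq1 κ x M)) 1 [O (sq1 κ x M)]⟩ := by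
  have h1 : 7 * M + κ + 12 = 10 + (7 * M + (κ + 2)) := by ring
  have h2 := eprog_loop O κ M x h M le_rfl
  rw [h1]
  unfold run at h2 ⊢
  rw [Function.iterate_add_apply, h2, eprog_last O κ M x h']

theorem e2r (hs : T_STAY) : T_E2R := by
  intro G ω κ
  refine ⟨eprog κ, κ + 6, ?_⟩
  intro x
  set O := orc G ω with hO
  set M := 2 ^ lev κ x with hM
  have hrun := eprog_run O κ M x
    (fun m hm h => by
      have := (osq0 _ G ω κ x m).1 h
      omega) ((osq0 _ G ω κ x M).2 le_rfl)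
  have hhalt : Halts O (eprog κ) x (7 * M + κ + 12) := by
    unfold Halts
    rw [hrun, eprog_length]
  have htime : 7 * M + κ + 12 ≤ 2 ^ ((x.length + 2) ^ (κ + 6)) := by
    have h1 : κ + 12 ≤ 2 ^ (κ + 4) := by
      have : κ < 2 ^ κ := Nat.lt_two_pow_self
      have h2 : 2 ^ (κ + 4) = 16 * 2 ^ κ := by rw [pow_add]; ring
      omega
    have h2 : 2 ^ (κ + 4) ≤ 2 ^ (lev κ x + κ + 4) := Nat.pow_le_pow_right (by norm_num) (by omega)
    have h3 : 7 * M ≤ 2 ^ (lev κ x + κ + 4) := by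
      have : 2 ^ (lev κ x + κ + 4) = 2 ^ lev κ x * (16 * 2 ^ κ) := by
        rw [add_assoc, pow_add, pow_add]; ring
      rw [this, hM, mul_comm]
      have : 1 ≤ 2 ^ κ := Nat.one_le_two_pow
      exact Nat.mul_le_mul_left _ (by omega)
    have h4 : 7 * M + κ + 12 ≤ 2 ^ (lev κ x + κ + 5) := by
      have : 2 ^ (lev κ x + κ + 5) = 2 ^ (lev κ x + κ + 4) + 2 ^ (lev κ x + κ + 4) := by
        rw [pow_succ]; ring
      omega
    refine le_trans h4 (Nat.pow_le_pow_right (by norm_num) ?_)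
    unfold lev
    have h5 : (x.length + 2) ^ (κ + 6) = (x.length + 2) ^ (κ + 2) * (x.length + 2) ^ 4 := by
      rw [← pow_add]
    have h6 : 16 ≤ (x.length + 2) ^ 4 := by
      calc 16 = 2 ^ 4 := by norm_num
        _ ≤ _ := Nat.pow_le_pow_left (by omega) _
    have h7 : κ + 2 < (x.length + 2) ^ (κ + 2) :=
      lt_of_lt_of_le Nat.lt_two_pow_self (Nat.pow_le_pow_left (by omega) _)
    have h8 : 0 < (x.length + 2) ^ (κ + 2) := by positivity
    rw [h5]
    nlinarith
  have hrun' : run O (eprog κ) x (2 ^ ((x.length + 2) ^ (κ + 6))) =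
      run O (eprog κ) x (7 * M + κ + 12) := hs _ _ _ _ _ hhalt htime
  constructor
  · unfold Halts at hhalt ⊢
    simp only
    rw [hrun']
    exact hhalt
  · simp only
    rw [hrun', hrun]
    simp only [Function.update_self, List.cons.injEq, and_true]
    rw [Bool.eq_iff_iff]
    rw [hO, orc, osq1 _ G ω κ x M]
    simp [hM]

end Pool.Agent.RelM
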