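import Pool.Agent.RelM.QRY

/-!
# Job NPR: the languages `R κ` are in `NP`
-/

set_option autoImplicit false

namespace Pool.Agent.RelM

open MeasureTheory Set
open scoped ENNReal

lemma run_succ_step (O : Lang) (P : List Instr) (x : List Bool) (t : ℕ) :
    run O P x (t + 1) = step O P (run O P x t) := Function.iterate_succ_apply' _ _ _

/-- A block of `push` instructions. -/
lemma push_seg (O : Lang) (P : List Instr) (s : ℕ) (l : List Bool) (c : Cfg)
    (h : ∀ j (hj : j < l.length), P[c.pc + j]? = some (Instr.push s l[j])) :
    (step O P)^[l.length] c = ⟨c.pc + l.length, Function.update c.st s (l.reverse ++ c.st s)⟩ := by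
  induction l generalizing c with
  | nil => simp
  | cons b l ih =>
    rw [List.length_cons, Function.iterate_succ_apply]
    have h0 : step O P c = ⟨c.pc + 1, Function.update c.st s (b :: c.st s)⟩ := by
      have := h 0 (by simp)
      simp only [add_zero, List.getElem_cons_zero] at this
      simp only [step, this]
    rw [h0, ih]
    · simp only [Function.update_self, Function.update_idem, List.reverse_cons,
        List.append_assoc, List.singleton_append]
      congr 1
      ring
    · intro j hj
      have := h (j + 1) (by simpa using hj)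
      simp only [List.getElem_cons_succ] at this
      rw [← this]
      congr 1
      simp only
      ring

/-- The verifier of `R κ`. -/
def vprog (κ : ℕ) : List Instr :=
  (false :: (List.replicate κ true ++ [false, false])).map (Instr.push 0) ++
    [Instr.ask 0 (κ + 5) (κ + 4), Instr.push 1 true]

lemma vprog_length (κ : ℕ) : (vprog κ).length = κ + 5 := by
  simp [vprog]

lemma vprog_run (O : Lang) (κ : ℕ) (x y : List Bool) :
    run O (vprog κ) (pair x y) (κ + 3) = ⟨κ + 3, Function.update (fun _ => []) 0 (wq κ x y)⟩ := by
  have h := push_seg O (vprog κ) 0 (false :: (List.replicate κ true ++ [false, false]))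
    ⟨0, Function.update (fun _ => []) 0 (pair x y)⟩ (by
      intro j hj
      simp only [zero_add]
      unfold vprog
      rw [List.getElem?_append_left (by simpa using hj), List.getElem?_map,
        List.getElem?_eq_getElem hj]
      rfl)
  have hl : (false :: (List.replicate κ true ++ [false, false])).length = κ + 3 := by simp
  rw [hl] at h
  unfold run
  rw [h]
  simp [wq, Function.update_idem]

lemma vprog_run_yes (O : Lang) (κ : ℕ) (x y : List Bool) (h : O (wq κ x y) = true) :
    (run O (vprog κ) (pair x y) (κ + 5)).pc = κ + 5 ∧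
      (run O (vprog κ) (pair x y) (κ + 5)).st 1 = [true] := by
  have h1 : run O (vprog κ) (pair x y) (κ + 5) =
      step O (vprog κ) (step O (vprog κ) (run O (vprog κ) (pair x y) (κ + 3))) := by
    rw [← run_succ_step, ← run_succ_step]
  rw [h1, vprog_run]
  have h2 : (vprog κ)[κ + 3]? = some (Instr.ask 0 (κ + 5) (κ + 4)) := by
    unfold vprog
    rw [List.getElem?_append_right (by simp)]
    simp
  have h3 : (vprog κ)[κ + 4]? = some (Instr.push 1 true) := by
    unfold vprog
    rw [List.getElem?_append_right (by simp)]
    simp
  simp [step, h2, h3, h]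

lemma vprog_run_no (O : Lang) (κ : ℕ) (x y : List Bool) (h : ¬ O (wq κ x y) = true) :
    (run O (vprog κ) (pair x y) (κ + 5)).pc = κ + 5 ∧
      (run O (vprog κ) (pair x y) (κ + 5)).st 1 = [] := by
  have h1 : run O (vprog κ) (pair x y) (κ + 5) =
      step O (vprog κ) (step O (vprog κ) (run O (vprog κ) (pair x y) (κ + 3))) := by
    rw [← run_succ_step, ← run_succ_step]
  rw [h1, vprog_run]
  have h2 : (vprog κ)[κ + 3]? = some (Instr.ask 0 (κ + 5) (κ + 4)) := by
    unfold vprog
    rw [List.getElem?_append_right (by simp)]
    simp
  have h3 : (vprog κ)[κ + 5]? = none := by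
    rw [List.getElem?_eq_none_iff, vprog_length]
  simp [step, h2, h3, h]

theorem npr (hs : T_STAY) : T_NPR := by
  intro G ω κ
  refine ⟨vprog κ, κ + 2, κ + 5, ?_⟩
  intro x
  have htime : κ + 5 ≤ (x.length + 2) ^ (κ + 5) :=
    le_trans (le_of_lt Nat.lt_two_pow_self) (Nat.pow_le_pow_left (by omega) _)
  have hhalt : ∀ y, Halts (orc G ω) (vprog κ) (pair x y) (κ + 5) := by
    intro y
    unfold Halts
    rw [vprog_length]
    by_cases h : orc G ω (wq κ x y) = true
    · exact (vprog_run_yes _ κ x y h).1.ge
    · exact (vprog_run_no _ κ x y h).1.ge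
  have hrun : ∀ y, run (orc G ω) (vprog κ) (pair x y) ((x.length + 2) ^ (κ + 5)) =
      run (orc G ω) (vprog κ) (pair x y) (κ + 5) := fun y => hs _ _ _ _ _ (hhalt y) htime
  have hyes : ∀ y, (run (orc G ω) (vprog κ) (pair x y) (κ + 5)).st 1 = [true] ↔
      orc G ω (wq κ x y) = true := by
    intro y
    constructor
    · intro h
      by_contra hno
      rw [(vprog_run_no _ κ x y hno).2] at h
      simp at h
    · intro h
      exact (vprog_run_yes _ κ x y h).2
  constructor
  · intro y _
    have := hhalt y
    unfold Halts at this ⊢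
    rw [hrun y]
    exact this
  · constructor
    · intro hR
      refine ⟨wit ω κ x, ?_, ?_⟩
      · rw [wit_length]; exact le_refl _
      · rw [hrun, hyes]
        exact (owq _ G ω κ x _).2 ⟨trivial, rfl, hR⟩
    · rintro ⟨y, -, hy⟩
      rw [hrun, hyes] at hy
      exact ((owq _ G ω κ x y).1 hy).2.2

end Pool.Agent.RelM
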