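import Pool.Agent.RelM.Core

/-!
# The targets of the jobs
-/

set_option autoImplicit false

namespace Pool.Agent.RelM

open MeasureTheory Set
open scoped ENNReal

/-! ## Machines (job LOC) -/

/-- Two oracles that agree on all queries of the first `t` steps give the same run. -/
def T_LOC : Prop := ∀ (O O' : Lang) (P : List Instr) (x : List Bool) (t : ℕ),
  (∀ s < t, ∀ q, Asks O P x s q → O q = O' q) → ∀ s ≤ t, run O' P x s = run O P x s

/-- Queries are short. -/
def T_LEN : Prop := ∀ (O : Lang) (P : List Instr) (x : List Bool) (s : ℕ) (q : List Bool),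
  Asks O P x s q → q.length ≤ x.length + s

/-- A run that has halted does not change. -/
def T_STAY : Prop := ∀ (O : Lang) (P : List Instr) (x : List Bool) (t t' : ℕ),
  Halts O P x t → t ≤ t' → run O P x t' = run O P x t

/-- At most one word is asked at a step. -/
def T_ONE : Prop := ∀ (O : Lang) (P : List Instr) (x : List Bool) (s : ℕ) (q q' : List Bool),
  Asks O P x s q → Asks O P x s q' → q = q'

/-! ## The enumeration of the words (job STR) -/

def T_STRLEN : Prop := ∀ n, (str n).length = Nat.log 2 (n + 1)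

def T_STRINJ : Prop := Function.Injective str

def T_STRSURJ : Prop := Function.Surjective str

/-! ## Values of the oracle (job QRY) -/

def T_OWQ : Prop := ∀ (S : ℕ → List Bool → Prop) (G : Lang) (ω : Om) (κ : ℕ) (x y : List Bool),
  orcV S G ω (wq κ x y) = true ↔ S κ x ∧ y = wit ω κ x ∧ Rl ω κ x = true

def T_OSQ0 : Prop := ∀ (S : ℕ → List Bool → Prop) (G : Lang) (ω : Om) (κ : ℕ) (x : List Bool)
  (m : ℕ), orcV S G ω (sq0 κ x m) = true ↔ 2 ^ lev κ x ≤ m

def T_OSQ1 : Prop := ∀ (S : ℕ → List Bool → Prop) (G : Lang) (ω : Om) (κ : ℕ) (x : List Bool)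
  (m : ℕ), orcV S G ω (sq1 κ x m) = true ↔ S κ x ∧ 2 ^ lev κ x ≤ m ∧ Rl ω κ x = true

def T_OTT : Prop := ∀ (S : ℕ → List Bool → Prop) (G : Lang) (ω : Om) (u : List Bool),
  orcV S G ω (true :: true :: u) = G u

/-- The answer to a word of length at most `m` depends only on the coins in `Short m` and on the
words of length at most `m - 2` of `G`. -/
def T_OLOC : Prop := ∀ (S : ℕ → List Bool → Prop) (G G' : Lang) (ω ω' : Om) (m : ℕ),
  (∀ a ∈ Short m, ω a = ω' a) → (∀ u : List Bool, u.length + 2 ≤ m → G u = G' u) →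
  ∀ q : List Bool, q.length ≤ m → orcV S G ω q = orcV S G' ω' q

/-- The answers depend only on the coins of the pairs in `S`. -/
def T_OVIS : Prop := ∀ (S : ℕ → List Bool → Prop) (G : Lang) (ω ω' : Om),
  (∀ κ x i, S κ x → ω (κ, x, i) = ω' (κ, x, i)) → ∀ q : List Bool, orcV S G ω q = orcV S G ω' q

/-- The oracle with hidden pairs differs from the oracle only at the keys of the hidden pairs and
at the paid questions about them. -/
def T_OCUT : Prop := ∀ (S : ℕ → List Bool → Prop) (G : Lang) (ω : Om) (q : List Bool),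
  orc G ω q ≠ orcV S G ω q →
    (∃ κ x, ¬ S κ x ∧ q = wq κ x (wit ω κ x)) ∨
    (∃ κ x m, ¬ S κ x ∧ q = sq1 κ x m ∧ 2 ^ lev κ x ≤ m)

/-- For `m` such that all keys of hidden pairs are longer than `m`, the answers to words of length
at most `m` are not changed by hiding. -/
def T_OHIDE : Prop := ∀ (S S' : ℕ → List Bool → Prop) (G : Lang) (ω : Om) (q : List Bool),
  (∀ κ x, lev κ x ≤ q.length → (S κ x ↔ S' κ x)) → orcV S G ω q = orcV S' G ω q

/-! ## Coins (job PROB) -/

/-- Mixing two samples gives a sample. -/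
def T_MIXP : Prop := ∀ p : Set Idx,
  MeasurePreserving (fun z : Om × Om => mixP p z.1 z.2) (coin.prod coin) coin

/-- Turning one coin over. -/
def T_FLIP : Prop := ∀ a : Idx,
  MeasurePreserving (fun ω : Om => Function.update ω a (!ω a)) coin coin

/-- A set that depends on finitely many coins is measurable. -/
def T_FD : Prop := ∀ (F : Set Idx), F.Finite → ∀ s : Set Om,
  (∀ ω ω' : Om, (∀ a ∈ F, ω a = ω' a) → (ω ∈ s ↔ ω' ∈ s)) → MeasurableSet s

/-- A key takes any value with small probability. -/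
def T_WIT : Prop := ∀ (κ : ℕ) (x y : List Bool),
  coin {ω | wit ω κ x = y} ≤ (2⁻¹ : ℝ≥0∞) ^ lev κ x

/-! ## Finding a hidden key (job HIT) -/

/-- A machine that runs for `t` steps with the coins of the pairs in `S` known and all others
hidden behind keys of length at least `ℓ` finds a hidden key with probability at most
`t * 2 ^ (-ℓ)`. The input `X` may depend on the visible coins. -/
def T_HIT : Prop := ∀ (G : Lang) (S : ℕ → List Bool → Prop) (P : List Instr)
  (X : Om → List Bool) (t ℓ : ℕ),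
  (∀ a : List Bool, MeasurableSet {ω | X ω = a}) →
  (∀ ω ω' : Om, (∀ κ x i, S κ x → ω (κ, x, i) = ω' (κ, x, i)) → X ω = X ω') →
  (∀ ω, (X ω).length + t < 2 ^ ℓ) →
  (∀ κ x, ¬ S κ x → ℓ ≤ lev κ x) →
  coin {ω | ∃ s ≤ t, run (orc G ω) P (X ω) s ≠ run (orcV S G ω) P (X ω) s}
    ≤ t * (2⁻¹ : ℝ≥0∞) ^ ℓ

/-! ## Machines running in time `2 ^ O(n)` (job ALPHA) -/

/-- Almost surely, a machine running in time `2 ^ (c (n + 1))` finds no key longer than
(c + 2) (n + 1), for all but finitely many inputs. -/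
def T_ALPHA : Prop := ∀ (G : Lang) (P : List Instr) (c : ℕ), ∀ᵐ ω ∂coin, ∃ n₀ : ℕ,
  ∀ x : List Bool, n₀ ≤ x.length → ∀ s ≤ 2 ^ (c * (x.length + 1)),
    run (orc G ω) P x s =
      run (orcV (fun κ y => lev κ y ≤ (c + 2) * (x.length + 1)) G ω) P x s

/-! ## Prediction (job BETA) -/

/-- Almost surely, if a nondeterministic machine `v` and a machine running in time
`2 ^ (c (n + 1))` accept the same words, then for infinitely many `n` all answers of `v` on words
of length `n` are the predicted ones. -/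
def T_BETA : Prop := ∀ (G : Lang) (v : List Instr × ℕ × ℕ) (P : List Instr) (c : ℕ),
  ∀ᵐ ω ∂coin,
    (∀ x : List Bool, acc G ω v x ↔
      (run (orc G ω) P x (2 ^ (c * (x.length + 1)))).st 1 = [true]) →
    ∀ N : ℕ, ∃ n : ℕ, N ≤ n ∧ ∀ x : List Bool, x.length = n →
      (acc G ω v x ↔ pred G v ((c + 2) * (n + 1)) ω x = true)

/-! ## Crossing (job CROSS) -/

/-- The maximal inequality. The value at time `t + 1` is `X t i` with `i` the bit number `t`; the
map `φ t` turns the bit number `t` over and changes neither the earlier bits nor the numbers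
`X s i` for `s ≤ t`. If the mean of the two possible values at time `t + 1` is at most the value
at time `t` plus `ε t`, then the value `1/2` is reached with small probability. -/
def T_CROSS : Prop := ∀ (Ω : Type) (_ : MeasurableSpace Ω) (μ : Measure Ω)
  (_ : IsProbabilityMeasure μ)
  (b : ℕ → Ω → Bool) (X : ℕ → Bool → Ω → ℝ) (Y : Ω → ℝ) (φ : ℕ → Ω → Ω) (ε : ℕ → ℝ) (a : ℝ),
  (∀ t, Measurable (b t)) → (∀ t i, Measurable (X t i)) → Measurable Y →
  (∀ t, MeasurePreserving (φ t) μ μ) →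
  (∀ t ω, b t (φ t ω) = !b t ω) → (∀ s t, s < t → ∀ ω, b s (φ t ω) = b s ω) →
  (∀ s t, s ≤ t → ∀ i ω, X s i (φ t ω) = X s i ω) → (∀ t ω, Y (φ t ω) = Y ω) →
  (∀ t i ω, 0 ≤ X t i ω) → (∀ ω, 0 ≤ Y ω) → (∀ t, 0 ≤ ε t) → Summable ε → 0 ≤ a →
  μ {ω | Y ω ≤ a ∧ (∀ t, (X t false ω + X t true ω) / 2 ≤ proc b X Y t ω + ε t) ∧
      ∃ t, 1 / 2 ≤ proc b X Y t ω} ≤ ENNReal.ofReal (2 * (a + ∑' t, ε t))

/-! ## The languages `R κ` are not covered (job NONNULL) -/

def T_NONNULL : Prop := ∀ (G : Lang) (P : List Instr) (c : ℕ), ∀ᵐ ω ∂coin,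
  ¬ ∃ d : ℕ → List Bool → ℝ, IsNullCover d {Rl ω (c + 1)} ∧
    Approx (orc G ω) P (fun l => 2 ^ ((Nat.log 2 l + 2) ^ c)) d

/-! ## The languages `R κ` are in the classes (jobs NPR, E2R) -/

def T_NPR : Prop := ∀ (G : Lang) (ω : Om) (κ : ℕ), Rl ω κ ∈ NP (orc G ω)

def T_E2R : Prop := ∀ (G : Lang) (ω : Om) (κ : ℕ), Rl ω κ ∈ E2 (orc G ω)

/-! ## Reading a number from the oracle (job READ) -/

/-- One program reads numbers `f k r w` of at most `2 |(k, r, w)| + 4` bits from any oracle that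
shows their bits. -/
def T_READ : Prop := ∃ (P : List Instr) (c : ℕ), ∀ (O : Lang) (f : ℕ → ℕ → List Bool → ℕ),
  (∀ j k r w, O (true :: true :: hq false false j k r w) = true ↔ j < Nat.size (f k r w)) →
  (∀ j k r w, O (true :: true :: hq false true j k r w) = true ↔
    Nat.testBit (f k r w) j = true) →
  (∀ j k r w, O (true :: true :: hq true false j k r w) = true ↔ j < r + 1) →
  (∀ k r w, Nat.size (f k r w) ≤ 2 * (triple k r w).length + 4) →
  ∀ k r w, Halts O P (triple k r w) (((triple k r w).length + 2) ^ c) ∧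
    outVal (run O P (triple k r w) (((triple k r w).length + 2) ^ c)) =
      (f k r w : ℝ) / 2 ^ (r + 1)

/-! ## The density functions (job DSTAR) -/

/-- Small sets of slices. -/
def Thin (A : (n : ℕ) → Set (Fin (2 ^ n) → Bool)) : Prop :=
  ∀ n, (A n).ncard ≤ 2 ^ 2 ^ (n - 1)

def T_DDENS : Prop := ∀ A : (n : ℕ) → Set (Fin (2 ^ n) → Bool), Thin A →
  ∀ k, IsDensity (dst A k)

def T_DLAM : Prop := ∀ A : (n : ℕ) → Set (Fin (2 ^ n) → Bool), Thin A →
  ∀ k, dst A k [] ≤ (1 / 2 : ℝ) ^ k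

def T_DCOV : Prop := ∀ A : (n : ℕ) → Set (Fin (2 ^ n) → Bool), Thin A → ∀ L : Lang,
  (∀ N, ∃ n, N ≤ n ∧ slice L n ∈ A n) → ∀ k, ∃ m, 1 ≤ dst A k (pre L m)

def T_DAPP : Prop := ∀ A : (n : ℕ) → Set (Fin (2 ^ n) → Bool), Thin A →
  ∀ (k r : ℕ) (w : List Bool),
    |dst A k w - ∑ n ∈ Finset.Icc (k + 1) (Nlim r w), pr (A n) w| ≤ (1 / 2 : ℝ) ^ (r + 1)

def T_PR : Prop := ∀ (n : ℕ) (A : Set (Fin (2 ^ n) → Bool)) (w : List Bool),
  0 ≤ pr A w ∧ pr A w ≤ 1

/-! ## Counting (job SHORT) -/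

def T_SHORTFIN : Prop := ∀ m, (Short m).Finite

def T_SHORTCARD : Prop := ∀ c : ℕ, ∃ n₀ : ℕ, ∀ n, n₀ ≤ n →
  (n + 1) * 2 ^ (Short (c * (n + 1))).ncard ≤ 2 ^ 2 ^ (n - 1)

/-! ## The sets of predicted slices (job VCARD) -/

def T_VTHIN : Prop := ∀ G : Lang, Thin (V G)

def T_GOOD : Prop := ∀ e : ℕ, ∃ n₀ : ℕ, ∀ n, n₀ ≤ n → Good e n

/-! ## The fixed part of the oracle (job HFIX) -/

/-- The bits for `u` depend only on the shorter words. -/
def T_BLOC : Prop := ∀ (G G' : Lang) (u : List Bool),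
  (∀ u' : List Bool, u'.length < u.length → G u' = G' u') → bitsOf G u = bitsOf G' u

def T_HFIX : Prop := ∀ u, H u = bitsOf H u

/-- The values of `bitsOf`. -/
def T_BITS : Prop := ∀ (G : Lang) (j k r : ℕ) (w : List Bool),
  (bitsOf G (hq false false j k r w) = true ↔ j < Nat.size (num G k r w)) ∧
  (bitsOf G (hq false true j k r w) = true ↔ Nat.testBit (num G k r w) j = true) ∧
  (bitsOf G (hq true false j k r w) = true ↔ j < r + 1)

/-- The sizes of the numerators. -/
def T_NUM : Prop := ∀ (G : Lang) (k r : ℕ) (w : List Bool),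
  Nat.size (num G k r w) ≤ 2 * (triple k r w).length + 4

/-! ## The theorem (job MAIN) -/

/-- Relative to some oracle, `NP ∩ E` has `p`-measure `0` and `NP ∩ E_2` does not have
`p_2`-measure `0`. -/
def T_MAIN : Prop := ∃ O : Lang, Null1 O (NP O ∩ E1 O) ∧ ¬ Null2 O (NP O ∩ E2 O)

end Pool.Agent.RelM
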