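import Pool.Agent.RelM.Targets

/-!
# The sets of predicted slices (job VCARD)
-/

set_option autoImplicit false

namespace Pool.Agent.RelM

open MeasureTheory Set
open scoped ENNReal

/-- The prediction depends only on the coins in `Short m`. -/
lemma pred_congr (G : Lang) (v : List Instr × ℕ × ℕ) (m : ℕ) (τ τ' : Om)
    (h : ∀ a ∈ Short m, τ a = τ' a) : pred G v m τ = pred G v m τ' := by
  have h1 : ∀ ω, mixP (Short m) τ ω = mixP (Short m) τ' ω := by
    intro ω
    funext a
    unfold mixP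
    by_cases ha : a ∈ Short m
    · rw [if_pos ha, if_pos ha]
      exact h a ha
    · rw [if_neg ha, if_neg ha]
  funext x
  unfold pred
  simp only [h1]

open Classical in
/-- The slices predicted by one machine are few. -/
lemma ncard_predicted (h : T_SHORTFIN) (G : Lang) (v : List Instr × ℕ × ℕ) (m n : ℕ) :
    {u : Fin (2 ^ n) → Bool | ∃ τ : Om, u = slice (pred G v m τ) n}.ncard
      ≤ 2 ^ (Short m).ncard := by
  have hfin : (Short m).Finite := h m
  haveI : Fintype (Short m) := hfin.fintype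
  let ext : (Short m → Bool) → Om := fun g a => if ha : a ∈ Short m then g ⟨a, ha⟩ else false
  have hsub : {u : Fin (2 ^ n) → Bool | ∃ τ : Om, u = slice (pred G v m τ) n}
      ⊆ Set.range (fun g : Short m → Bool => slice (pred G v m (ext g)) n) := by
    rintro u ⟨τ, rfl⟩
    refine ⟨fun a => τ a.1, ?_⟩
    have : pred G v m (ext fun a => τ a.1) = pred G v m τ := by
      apply pred_congr
      intro a ha
      simp only [ext, dif_pos ha]
    simp only [this]
  calc {u : Fin (2 ^ n) → Bool | ∃ τ : Om, u = slice (pred G v m τ) n}.ncard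
      ≤ (Set.range (fun g : Short m → Bool => slice (pred G v m (ext g)) n)).ncard :=
        Set.ncard_le_ncard hsub (Set.toFinite _)
    _ ≤ Nat.card (Short m → Bool) := by
        rw [← Set.image_univ]
        refine (Set.ncard_image_le (Set.toFinite _)).trans ?_
        rw [Set.ncard_univ]
    _ = 2 ^ (Short m).ncard := by
        rw [Nat.card_eq_fintype_card, Fintype.card_fun, Fintype.card_bool, Set.ncard_eq_toFinset_card',
          Set.toFinset_card]

open Classical in
theorem vthin (h : T_SHORTFIN) : T_VTHIN := by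
  intro G n
  have hV : V G n ⊆ ⋃ e ∈ (Finset.range (n + 1)).filter (fun e => Good e n),
      {u : Fin (2 ^ n) → Bool | ∃ τ : Om,
        u = slice (pred G (code e).1 ((code e).2 * (n + 1)) τ) n} := by
    rintro u ⟨e, hen, hg, τ, rfl⟩
    simp only [Set.mem_iUnion]
    refine ⟨e, ?_, τ, rfl⟩
    rw [Finset.mem_filter, Finset.mem_range]
    exact ⟨Nat.lt_succ_of_le hen, hg⟩
  have h1 : (V G n).ncard ≤ ∑ e ∈ (Finset.range (n + 1)).filter (fun e => Good e n),
      {u : Fin (2 ^ n) → Bool | ∃ τ : Om,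
        u = slice (pred G (code e).1 ((code e).2 * (n + 1)) τ) n}.ncard :=
    (Set.ncard_le_ncard hV (Set.toFinite _)).trans (Finset.set_ncard_biUnion_le _ _)
  by_cases hemp : ((Finset.range (n + 1)).filter (fun e => Good e n)) = ∅
  · rw [hemp] at h1
    simp only [Finset.sum_empty] at h1
    exact h1.trans (Nat.zero_le _)
  have h2 : ∀ e ∈ (Finset.range (n + 1)).filter (fun e => Good e n),
      (n + 1) * {u : Fin (2 ^ n) → Bool | ∃ τ : Om,
        u = slice (pred G (code e).1 ((code e).2 * (n + 1)) τ) n}.ncard ≤ 2 ^ 2 ^ (n - 1) := by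
    intro e he
    rw [Finset.mem_filter] at he
    exact (Nat.mul_le_mul_left _ (ncard_predicted h G _ _ n)).trans he.2.2
  have h3 : (n + 1) * ∑ e ∈ (Finset.range (n + 1)).filter (fun e => Good e n),
      {u : Fin (2 ^ n) → Bool | ∃ τ : Om,
        u = slice (pred G (code e).1 ((code e).2 * (n + 1)) τ) n}.ncard
      ≤ (n + 1) * 2 ^ 2 ^ (n - 1) := by
    rw [Finset.mul_sum]
    refine (Finset.sum_le_card_nsmul _ _ _ h2).trans ?_
    rw [smul_eq_mul]
    apply Nat.mul_le_mul_right
    exact (Finset.card_filter_le _ _).trans (by rw [Finset.card_range])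
  exact h1.trans (Nat.le_of_mul_le_mul_left h3 (Nat.succ_pos n))

/-- A power of `n + 2` is eventually smaller than `2 ^ n`. -/
lemma poly_lt_exp (K : ℕ) : ∃ n₀ : ℕ, ∀ n, n₀ ≤ n → 4 * (n + 2) ^ K ≤ 2 ^ n := by
  have ht : Filter.Tendsto (fun n : ℕ => (n : ℝ) ^ K / (2 : ℝ) ^ n) Filter.atTop (nhds 0) :=
    tendsto_pow_const_div_const_pow_of_one_lt K (by norm_num)
  have ht2 : Filter.Tendsto (fun n : ℕ => ((n + 2 : ℕ) : ℝ) ^ K / (2 : ℝ) ^ (n + 2))
      Filter.atTop (nhds 0) := ht.comp (Filter.tendsto_add_atTop_nat 2)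
  have hev : ∀ᶠ n : ℕ in Filter.atTop, ((n + 2 : ℕ) : ℝ) ^ K / (2 : ℝ) ^ (n + 2) < 1 / 16 :=
    ht2.eventually (gt_mem_nhds (by norm_num))
  obtain ⟨n₀, hn₀⟩ := Filter.eventually_atTop.1 hev
  refine ⟨n₀, fun n hn => ?_⟩
  have h1 := hn₀ n hn
  rw [div_lt_iff₀ (by positivity)] at h1
  have h2 : (4 * (n + 2) ^ K : ℝ) ≤ 2 ^ n := by
    have : (2 : ℝ) ^ (n + 2) = 4 * 2 ^ n := by ring
    rw [this] at h1
    push_cast at h1
    nlinarith
  exact_mod_cast h2

theorem good (h1 : T_SHORTCARD) : T_GOOD := by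
  intro e
  obtain ⟨n₁, hn₁⟩ := h1 (code e).2
  obtain ⟨n₂, hn₂⟩ := poly_lt_exp ((code e).1.2.1 + (code e).1.2.2 + 3)
  refine ⟨max n₁ n₂, fun n hn => ⟨?_, hn₁ n (le_trans (le_max_left _ _) hn)⟩⟩
  unfold qb
  exact hn₂ n (le_trans (le_max_right _ _) hn)

end Pool.Agent.RelM
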