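import Pool.Agent.RelM.Targets

/-!
# Assembly
-/

set_option autoImplicit false

namespace Pool.Agent.RelM

open MeasureTheory Set
open scoped ENNReal

lemma str_len_slice (h : T_STRLEN) (n j : ℕ) (hj : j < 2 ^ n) :
    (str (2 ^ n - 1 + j)).length = n := by
  rw [h]
  have h1 : 1 ≤ 2 ^ n := Nat.one_le_two_pow
  have h2 : 2 ^ n - 1 + j + 1 = 2 ^ n + j := by omega
  rw [h2]
  rw [Nat.log_eq_iff]
  · constructor
    · omega
    · rw [pow_succ]; omega
  · right
    exact ⟨by norm_num, by omega⟩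

theorem main_of (hβ : T_BETA) (hN : T_NONNULL) (hNPR : T_NPR) (hE2R : T_E2R) (hREAD : T_READ)
    (hDD : T_DDENS) (hDL : T_DLAM) (hDC : T_DCOV) (hDA : T_DAPP) (hPR : T_PR)
    (hVT : T_VTHIN) (hG : T_GOOD) (hHF : T_HFIX) (hB : T_BITS) (hNUM : T_NUM) (hOTT : T_OTT)
    (hSL : T_STRLEN) : T_MAIN := by
  have hae : ∀ᵐ ω ∂coin,
      (∀ (v : List Instr × ℕ × ℕ) (P : List Instr) (c : ℕ),
        (∀ x : List Bool, acc H ω v x ↔
          (run (orc H ω) P x (2 ^ (c * (x.length + 1)))).st 1 = [true]) →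
        ∀ N : ℕ, ∃ n : ℕ, N ≤ n ∧ ∀ x : List Bool, x.length = n →
          (acc H ω v x ↔ pred H v ((c + 2) * (n + 1)) ω x = true)) ∧
      (∀ (P : List Instr) (c : ℕ),
        ¬ ∃ d : ℕ → List Bool → ℝ, IsNullCover d {Rl ω (c + 1)} ∧
          Approx (orc H ω) P (fun l => 2 ^ ((Nat.log 2 l + 2) ^ c)) d) := by
    refine Filter.Eventually.and ?_ ?_
    · rw [ae_all_iff]; intro v
      rw [ae_all_iff]; intro P
      rw [ae_all_iff]; intro c
      exact hβ H v P c
    · rw [ae_all_iff]; intro P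
      rw [ae_all_iff]; intro c
      exact hN H P c
  obtain ⟨ω, hω1, hω2⟩ := hae.exists
  refine ⟨orc H ω, ?_, ?_⟩
  · -- the null cover
    refine ⟨dst (V H), ?_, ?_⟩
    · intro k
      refine ⟨hDD _ (hVT H) k, hDL _ (hVT H) k, ?_⟩
      intro A hA
      obtain ⟨⟨P, j, k', hPA⟩, M, c, hM⟩ := hA
      refine hDC _ (hVT H) A ?_ k
      -- infinitely many slices are predicted
      have hacc : ∀ x : List Bool, A x = true ↔ acc H ω (P, j, k') x := fun x => (hPA x).2
      have hM' : ∀ x : List Bool, acc H ω (P, j, k') x ↔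
          (run (orc H ω) M x (2 ^ (c * (x.length + 1)))).st 1 = [true] := by
        intro x
        rw [← hacc x]
        have h2 := (hM x).2
        rw [h2]
        simp
      obtain ⟨e, he⟩ := code_surj ((P, j, k'), c + 2)
      obtain ⟨n₀, hn₀⟩ := hG e
      intro N
      obtain ⟨n, hn, hx⟩ := hω1 (P, j, k') M c hM' (max N (max e n₀))
      refine ⟨n, le_trans (le_max_left _ _) hn, ?_⟩
      refine ⟨e, le_trans (le_trans (le_max_left _ _) (le_max_right _ _)) hn,
        hn₀ n (le_trans (le_trans (le_max_right _ _) (le_max_right _ _)) hn), ω, ?_⟩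
      rw [he]
      funext i
      have hl := str_len_slice hSL n i i.2
      have h3 := hx _ hl
      rw [← hacc] at h3
      unfold slice
      simp only
      cases h4 : A (str (2 ^ n - 1 + (i : ℕ))) <;>
        cases h5 : pred H (P, j, k') ((c + 2) * (n + 1)) ω (str (2 ^ n - 1 + (i : ℕ))) <;>
        simp_all
    · obtain ⟨P, c, hPc⟩ := hREAD
      refine ⟨P, c, ?_⟩
      intro k r w
      have h := hPc (orc H ω) (num H)
        (fun j k r w => by
          rw [orc, hOTT, hHF]; exact (hB H j k r w).1)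
        (fun j k r w => by
          rw [orc, hOTT, hHF]; exact (hB H j k r w).2.1)
        (fun j k r w => by
          rw [orc, hOTT, hHF]; exact (hB H j k r w).2.2)
        (hNUM H) k r w
      refine ⟨h.1, ?_⟩
      simp only
      rw [h.2]
      have hd := hDA _ (hVT H) k r w
      set s : ℝ := ∑ n ∈ Finset.Icc (k + 1) (Nlim r w), pr (V H n) w with hs
      have hs0 : 0 ≤ s := Finset.sum_nonneg fun n _ => (hPR n _ w).1
      have hf1 : (num H k r w : ℝ) ≤ 2 ^ (r + 1) * s := Nat.floor_le (by positivity)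
      have hf2 : (2 : ℝ) ^ (r + 1) * s < (num H k r w : ℝ) + 1 := Nat.lt_floor_add_one _
      have h2 : (0 : ℝ) < 2 ^ (r + 1) := by positivity
      have h3 : |(num H k r w : ℝ) / 2 ^ (r + 1) - s| ≤ (1 / 2 : ℝ) ^ (r + 1) := by
        rw [abs_le]
        constructor
        · rw [le_sub_iff_add_le, one_div, inv_pow]
          have : (-((2 : ℝ) ^ (r + 1))⁻¹ + s) ≤ (num H k r w : ℝ) / 2 ^ (r + 1) := by
            rw [le_div_iff₀ h2]
            have : (-((2 : ℝ) ^ (r + 1))⁻¹ + s) * 2 ^ (r + 1) = 2 ^ (r + 1) * s - 1 := by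
              field_simp
              ring
            rw [this]; linarith
          exact this
        · rw [sub_le_iff_le_add, div_le_iff₀ h2]
          have : ((1 / 2 : ℝ) ^ (r + 1) + s) * 2 ^ (r + 1) = 2 ^ (r + 1) * s + 1 := by
            rw [one_div, inv_pow]
            field_simp
            ring
          rw [this]; linarith
      have h4 : (1 / 2 : ℝ) ^ r = (1 / 2 : ℝ) ^ (r + 1) + (1 / 2 : ℝ) ^ (r + 1) := by
        rw [pow_succ]; ring
      rw [h4]
      calc |(num H k r w : ℝ) / 2 ^ (r + 1) - dst (V H) k w|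
          = |((num H k r w : ℝ) / 2 ^ (r + 1) - s) - (dst (V H) k w - s)| := by ring_nf
        _ ≤ |(num H k r w : ℝ) / 2 ^ (r + 1) - s| + |dst (V H) k w - s| := abs_sub _ _
        _ ≤ _ := add_le_add h3 hd
  · -- not a null set in the larger class
    rintro ⟨d, hd, P, c, hP⟩
    refine hω2 P c ⟨d, ?_, hP⟩
    intro k
    refine ⟨(hd k).1, (hd k).2.1, ?_⟩
    intro A hA
    rw [mem_singleton_iff] at hA
    subst hA
    exact (hd k).2.2 _ ⟨hNPR H ω (c + 1), hE2R H ω (c + 1)⟩

end Pool.Agent.RelM
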