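import Pool.Agent.RelM.Targets

/-!
# Machines running in time `2 ^ O(n)` find no long keys
-/

set_option autoImplicit false

namespace Pool.Agent.RelM

open MeasureTheory Set Filter
open scoped ENNReal

theorem alpha (h : T_HIT) : T_ALPHA := by
  intro G P c
  set bad : List Bool → Set Om := fun x => {ω | ∃ s ≤ 2 ^ (c * (x.length + 1)),
    run (orc G ω) P x s ≠
      run (orcV (fun κ y => lev κ y ≤ (c + 2) * (x.length + 1)) G ω) P x s} with hbad
  have hb : ∀ x : List Bool, coin (bad x) ≤ (2⁻¹ : ℝ≥0∞) ^ (2 * x.length + 1) := by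
    intro x
    have h1 := h G (fun κ y => lev κ y ≤ (c + 2) * (x.length + 1)) P (fun _ => x)
      (2 ^ (c * (x.length + 1))) ((c + 2) * (x.length + 1) + 1)
      (fun a => MeasurableSet.const _) (fun _ _ _ => rfl)
      (fun ω => by
        have h2 : x.length < 2 ^ x.length := Nat.lt_two_pow_self
        have h3 : 2 ^ x.length ≤ 2 ^ ((c + 2) * (x.length + 1)) :=
          Nat.pow_le_pow_right (by norm_num) (by nlinarith)
        have h4 : 2 ^ (c * (x.length + 1)) ≤ 2 ^ ((c + 2) * (x.length + 1)) :=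
          Nat.pow_le_pow_right (by norm_num) (by nlinarith)
        show x.length + 2 ^ (c * (x.length + 1)) < 2 ^ ((c + 2) * (x.length + 1) + 1)
        rw [pow_succ]
        omega)
      (fun κ y hy => by
        have : ¬ lev κ y ≤ (c + 2) * (x.length + 1) := hy
        omega)
    refine h1.trans ?_
    have h5 : (((2 ^ (c * (x.length + 1)) : ℕ)) : ℝ≥0∞) = 2 ^ (c * (x.length + 1)) := by
      push_cast; rfl
    rw [h5]
    have h6 : (c + 2) * (x.length + 1) + 1 = c * (x.length + 1) + (2 * x.length + 3) := by ring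
    rw [h6, pow_add, ← mul_assoc, ← mul_pow, ENNReal.mul_inv_cancel (by norm_num) (by norm_num),
      one_pow, one_mul]
    exact pow_le_pow_right_of_le_one' (by norm_num) (by omega)
  set A : ℕ → Set Om := fun n => ⋃ v : List.Vector Bool n, bad v.1 with hA
  have hAn : ∀ n, coin (A n) ≤ (2⁻¹ : ℝ≥0∞) ^ n := by
    intro n
    refine (measure_iUnion_fintype_le coin _).trans ?_
    have h7 : ∀ v : List.Vector Bool n, coin (bad v.1) ≤ (2⁻¹ : ℝ≥0∞) ^ (2 * n + 1) := by
      intro v
      have := hb v.1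
      rwa [v.2] at this
    refine (Finset.sum_le_sum fun v _ => h7 v).trans ?_
    rw [Finset.sum_const, Finset.card_univ, card_vector, Fintype.card_bool, nsmul_eq_mul]
    have h8 : ((2 ^ n : ℕ) : ℝ≥0∞) = 2 ^ n := by push_cast; rfl
    rw [h8]
    have h9 : 2 * n + 1 = n + (n + 1) := by ring
    rw [h9, pow_add, ← mul_assoc, ← mul_pow, ENNReal.mul_inv_cancel (by norm_num) (by norm_num),
      one_pow, one_mul]
    exact pow_le_pow_right_of_le_one' (by norm_num) (by omega)
  have hsum : ∑' n, coin (A n) ≠ ∞ := by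
    refine ne_top_of_le_ne_top ?_ (ENNReal.tsum_le_tsum hAn)
    rw [ENNReal.tsum_geometric]
    simp
  filter_upwards [ae_eventually_notMem hsum] with ω hω
  obtain ⟨n₀, hn₀⟩ := eventually_atTop.1 hω
  refine ⟨n₀, fun x hx s hs => ?_⟩
  by_contra hne
  exact hn₀ x.length hx (mem_iUnion.2 ⟨⟨x, rfl⟩, s, hs, hne⟩)

end Pool.Agent.RelM
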