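import Pool.Agent.RelM.Targets

/-!
# Prediction of the languages in `NP ∩ E` (job BETA)
-/

set_option autoImplicit false

namespace Pool.Agent.RelM

open MeasureTheory Set
open scoped ENNReal

namespace Beta

/-- Two samples agree on the coins of the pairs with keys of length at most `m`. -/
def Agree (m : ℕ) (ω ω' : Om) : Prop := ∀ a ∈ Short m, ω a = ω' a

lemma Agree.mono {m m' : ℕ} {ω ω' : Om} (h : Agree m' ω ω') (hm : m ≤ m') : Agree m ω ω' :=
  fun a ha => h a ⟨ha.1.trans hm, ha.2⟩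

lemma Agree.symm {m : ℕ} {ω ω' : Om} (h : Agree m ω ω') : Agree m ω' ω := fun a ha => (h a ha).symm

lemma wit_eq {m : ℕ} {ω ω' : Om} (h : Agree m ω ω') {κ : ℕ} {x : List Bool} (hl : lev κ x ≤ m) :
    wit ω κ x = wit ω' κ x := by
  unfold wit
  refine List.map_congr_left fun i hi => ?_
  rw [List.mem_range] at hi
  exact h _ ⟨hl, hi⟩

lemma rl_eq {m : ℕ} {ω ω' : Om} (h : Agree m ω ω') {κ : ℕ} {x : List Bool} (hl : lev κ x ≤ m) :
    Rl ω κ x = Rl ω' κ x := h _ ⟨hl, Nat.zero_le _⟩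

lemma orcV_eq {m : ℕ} {ω ω' : Om} (h : Agree m ω ω') (G : Lang) :
    orcV (fun κ x => lev κ x ≤ m) G ω = orcV (fun κ x => lev κ x ≤ m) G ω' := by
  funext q
  unfold orcV
  rw [decide_eq_decide]
  have h1 : (∃ κ x, lev κ x ≤ m ∧ q = wq κ x (wit ω κ x) ∧ Rl ω κ x = true) ↔
      (∃ κ x, lev κ x ≤ m ∧ q = wq κ x (wit ω' κ x) ∧ Rl ω' κ x = true) := by
    refine exists_congr fun κ => exists_congr fun x => and_congr_right fun hl => ?_
    rw [wit_eq h hl, rl_eq h hl]
  have h2 : (∃ κ x m', lev κ x ≤ m ∧ q = sq1 κ x m' ∧ 2 ^ lev κ x ≤ m' ∧ Rl ω κ x = true) ↔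
      (∃ κ x m', lev κ x ≤ m ∧ q = sq1 κ x m' ∧ 2 ^ lev κ x ≤ m' ∧ Rl ω' κ x = true) := by
    refine exists_congr fun κ => exists_congr fun x => exists_congr fun m' =>
      and_congr_right fun hl => ?_
    rw [rl_eq h hl]
  rw [h1, h2]

lemma mixP_agree (m : ℕ) (τ ω : Om) : Agree m (mixP (Short m) τ ω) τ := fun a ha => by
  simp only [mixP, if_pos ha]

lemma mixP_congr {m : ℕ} {τ τ' : Om} (h : Agree m τ τ') (ω : Om) :
    mixP (Short m) τ ω = mixP (Short m) τ' ω := by
  funext a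
  by_cases ha : a ∈ Short m
  · simp only [mixP, if_pos ha]; exact h a ha
  · simp only [mixP, if_neg ha]

lemma pred_eq {G : Lang} {v : List Instr × ℕ × ℕ} {m : ℕ} {τ τ' : Om} (h : Agree m τ τ')
    (x : List Bool) : pred G v m τ x = pred G v m τ' x := by
  unfold pred
  rw [decide_eq_decide]
  simp only [mixP_congr h]

lemma pair_length (x y : List Bool) : (pair x y).length = 2 * x.length + 1 + y.length := by
  have h : (x.flatMap (fun b => [true, b])).length = 2 * x.length := by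
    induction x with
    | nil => rfl
    | cons b x ih =>
      rw [List.flatMap_cons, List.length_append, ih]
      simp only [List.length_cons, List.length_nil]
      omega
  rw [pair, List.length_append, h, List.length_cons]
  omega

lemma qb_bound (v : List Instr × ℕ × ℕ) (n : ℕ) :
    2 * n + 1 + (n + 2) ^ v.2.1 + (n + 2) ^ v.2.2 ≤ qb v n := by
  unfold qb
  set a := n + 2 with ha
  have ha2 : 2 ≤ a := by omega
  set M := a ^ (v.2.1 + v.2.2) with hM
  have hM1 : 1 ≤ M := Nat.one_le_pow _ _ (by omega)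
  have h1 : a ^ v.2.1 ≤ M := Nat.pow_le_pow_right (by omega) (by omega)
  have h2 : a ^ v.2.2 ≤ M := Nat.pow_le_pow_right (by omega) (by omega)
  have h3 : a ^ (v.2.1 + v.2.2 + 3) = M * a ^ 3 := by rw [pow_add]
  rw [h3]
  have h4 : 4 * a ≤ a ^ 3 := by
    have : 4 ≤ a ^ 2 := by nlinarith
    calc 4 * a ≤ a ^ 2 * a := Nat.mul_le_mul_right _ this
      _ = a ^ 3 := by ring
  have h5 : M * (4 * a) ≤ M * a ^ 3 := Nat.mul_le_mul_left _ h4
  have h6 : 2 * a ≤ 2 * (M * a) := by nlinarith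
  have h7 : 2 * M ≤ 2 * (M * a) := by nlinarith
  have h8 : M * (4 * a) = 2 * (M * a) + 2 * (M * a) := by ring
  omega

lemma acc_eq (hLOC : T_LOC) (hLEN : T_LEN) (hOLOC : T_OLOC) {G : Lang} {v : List Instr × ℕ × ℕ}
    {ω ω' : Om} {x : List Bool} (h : Agree (qb v x.length) ω ω') :
    acc G ω v x ↔ acc G ω' v x := by
  unfold acc
  refine exists_congr fun y => and_congr_right fun hy => ?_
  have h1 : run (orc G ω') v.1 (pair x y) ((x.length + 2) ^ v.2.2) =
      run (orc G ω) v.1 (pair x y) ((x.length + 2) ^ v.2.2) := by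
    refine hLOC (orc G ω) (orc G ω') v.1 (pair x y) _ (fun s hs q hq => ?_) _ le_rfl
    have h2 := hLEN _ _ _ _ _ hq
    have h3 := qb_bound v x.length
    have h4 := pair_length x y
    exact hOLOC _ G G ω ω' (qb v x.length) h (fun _ _ => rfl) q (by omega)
  rw [h1]

variable (G : Lang) (v : List Instr × ℕ × ℕ) (P : List Instr) (c : ℕ)

/-- The answer of the machine if all keys longer than `(c + 2) (n + 1)` are hidden. -/
def out (n : ℕ) (ω : Om) (x : List Bool) : Prop :=
  (run (orcV (fun κ y => lev κ y ≤ (c + 2) * (n + 1)) G ω) P x (2 ^ (c * (n + 1)))).st 1 = [true]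

/-- The answer on `x` is not the predicted one. -/
def bad (n : ℕ) (ω : Om) (x : List Bool) : Prop :=
  x.length = n ∧ ¬ (out G P c n ω x ↔ pred G v ((c + 2) * (n + 1)) ω x = true)

/-- A word with an answer that is not the predicted one. -/
noncomputable def xs (n : ℕ) (ω : Om) : List Bool := Classical.epsilon (bad G v P c n ω)

/-- The prediction fails for length `n` but the machines agree at the failure. -/
def SS (n : ℕ) : Set Om :=
  {ω | (∃ x, bad G v P c n ω x) ∧ (acc G ω v (xs G v P c n ω) ↔ out G P c n ω (xs G v P c n ω))}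

lemma out_eq {n : ℕ} {ω ω' : Om} (h : Agree ((c + 2) * (n + 1)) ω ω') (x : List Bool) :
    out G P c n ω x ↔ out G P c n ω' x := by
  unfold out
  rw [orcV_eq h]

lemma bad_eq {n : ℕ} {ω ω' : Om} (h : Agree ((c + 2) * (n + 1)) ω ω') :
    bad G v P c n ω = bad G v P c n ω' := by
  funext x
  unfold bad
  rw [out_eq G P c h, pred_eq h]

lemma xs_eq {n : ℕ} {ω ω' : Om} (h : Agree ((c + 2) * (n + 1)) ω ω') :
    xs G v P c n ω = xs G v P c n ω' := by
  unfold xs
  rw [bad_eq G v P c h]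

lemma xs_spec {n : ℕ} {ω : Om} (h : ∃ x, bad G v P c n ω x) : bad G v P c n ω (xs G v P c n ω) :=
  Classical.epsilon_spec h

lemma ss_eq (hLOC : T_LOC) (hLEN : T_LEN) (hOLOC : T_OLOC) {n : ℕ} {ω ω' : Om}
    (h : Agree (max ((c + 2) * (n + 1)) (qb v n)) ω ω') :
    ω ∈ SS G v P c n ↔ ω' ∈ SS G v P c n := by
  have h1 : Agree ((c + 2) * (n + 1)) ω ω' := h.mono (le_max_left _ _)
  have h2 : Agree (qb v n) ω ω' := h.mono (le_max_right _ _)
  unfold SS
  simp only [Set.mem_ofPred_eq]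
  rw [← xs_eq G v P c h1, ← bad_eq G v P c h1, ← out_eq G P c h1]
  refine and_congr_right fun he => ?_
  have h3 := (xs_spec G v P c he).1
  have h4 : acc G ω v (xs G v P c n ω) ↔ acc G ω' v (xs G v P c n ω) :=
    acc_eq hLOC hLEN hOLOC (by rw [h3]; exact h2)
  rw [h4]

lemma half (hLOC : T_LOC) (hLEN : T_LEN) (hOLOC : T_OLOC) (hMIX : T_MIXP) (hFD : T_FD)
    (hSF : T_SHORTFIN) (n : ℕ) (A : Set Om)
    (hA : ∀ ω ω', Agree ((c + 2) * (n + 1)) ω ω' → (ω ∈ A ↔ ω' ∈ A)) :
    coin (A ∩ SS G v P c n) ≤ 2⁻¹ * coin A := by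
  set m := (c + 2) * (n + 1) with hm
  have mA : MeasurableSet A := hFD (Short m) (hSF m) A hA
  have mS : MeasurableSet (SS G v P c n) := hFD _ (hSF (max m (qb v n))) _
    (fun ω ω' h => ss_eq G v P c hLOC hLEN hOLOC h)
  have hmp := hMIX (Short m)
  have mAS := mA.inter mS
  rw [← hmp.measure_preimage mAS.nullMeasurableSet, Measure.prod_apply (hmp.measurable mAS)]
  have key : ∀ τ : Om, coin (Prod.mk τ ⁻¹' ((fun z : Om × Om => mixP (Short m) z.1 z.2) ⁻¹'
      (A ∩ SS G v P c n))) ≤ A.indicator (fun _ => (2⁻¹ : ℝ≥0∞)) τ := by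
    intro τ
    have hag : ∀ ω, Agree m (mixP (Short m) τ ω) τ := fun ω => mixP_agree m τ ω
    by_cases hτ : τ ∈ A
    swap
    · have : (Prod.mk τ ⁻¹' ((fun z : Om × Om => mixP (Short m) z.1 z.2) ⁻¹'
          (A ∩ SS G v P c n))) = ∅ := by
        ext ω
        simp only [Set.mem_preimage, Set.mem_inter_iff, Set.mem_empty_iff_false, iff_false, not_and]
        intro h
        exact absurd ((hA _ _ (hag ω)).1 h) hτ
      rw [this, measure_empty]
      exact zero_le
    rw [Set.indicator_of_mem hτ]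
    by_cases hF : ∃ x, bad G v P c n τ x
    swap
    · have : (Prod.mk τ ⁻¹' ((fun z : Om × Om => mixP (Short m) z.1 z.2) ⁻¹'
          (A ∩ SS G v P c n))) = ∅ := by
        ext ω
        simp only [Set.mem_preimage, Set.mem_inter_iff, Set.mem_empty_iff_false, iff_false, not_and]
        intro _ h
        have h1 := h.1
        rw [bad_eq G v P c (hag ω)] at h1
        exact hF h1
      rw [this, measure_empty]
      exact zero_le
    have hx := xs_spec G v P c hF
    set x := xs G v P c n τ with hxdef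
    have hsub : (Prod.mk τ ⁻¹' ((fun z : Om × Om => mixP (Short m) z.1 z.2) ⁻¹'
        (A ∩ SS G v P c n))) ⊆ {ω | acc G (mixP (Short m) τ ω) v x ↔ out G P c n τ x} := by
      intro ω hω
      have h1 := hω.2.2
      rw [xs_eq G v P c (hag ω), ← hxdef, out_eq G P c (hag ω)] at h1
      exact h1
    refine (measure_mono hsub).trans ?_
    set E : Set Om := {ω | acc G (mixP (Short m) τ ω) v x} with hE
    have mE : MeasurableSet E := by
      refine hFD _ (hSF (qb v n)) E (fun ω ω' h => ?_)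
      have h1 : acc G (mixP (Short m) τ ω) v x ↔ acc G (mixP (Short m) τ ω') v x := by
        refine acc_eq hLOC hLEN hOLOC (fun a ha => ?_)
        rw [hx.1] at ha
        by_cases hp : a ∈ Short m
        · simp only [mixP, if_pos hp]
        · simp only [mixP, if_neg hp]; exact h a ha
      exact h1
    by_cases ho : out G P c n τ x
    · have h1 : {ω | acc G (mixP (Short m) τ ω) v x ↔ out G P c n τ x} = E := by
        ext ω
        simp only [hE, Set.mem_ofPred_eq, ho, iff_true]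
      rw [h1]
      have h2 : ¬ (pred G v m τ x = true) := fun h => hx.2 ⟨fun _ => h, fun _ => ho⟩
      unfold pred at h2
      rw [decide_eq_true_iff] at h2
      exact (not_le.1 h2).le
    · have h1 : {ω | acc G (mixP (Short m) τ ω) v x ↔ out G P c n τ x} = Eᶜ := by
        ext ω
        simp only [hE, Set.mem_ofPred_eq, Set.mem_compl_iff, ho, iff_false]
      rw [h1, prob_compl_eq_one_sub mE]
      have h2 : pred G v m τ x = true := by
        by_contra h
        exact hx.2 ⟨fun h' => absurd h' ho, fun h' => absurd h' h⟩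
      unfold pred at h2
      rw [decide_eq_true_iff] at h2
      rw [tsub_le_iff_right, ← ENNReal.inv_two_add_inv_two]
      gcongr
  calc ∫⁻ τ, coin (Prod.mk τ ⁻¹' ((fun z : Om × Om => mixP (Short m) z.1 z.2) ⁻¹'
        (A ∩ SS G v P c n))) ∂coin
      ≤ ∫⁻ τ, A.indicator (fun _ => (2⁻¹ : ℝ≥0∞)) τ ∂coin := lintegral_mono key
    _ = 2⁻¹ * coin A := lintegral_indicator_const mA _

/-- The lengths at which independent trials are made. -/
def nn (N : ℕ) : ℕ → ℕ
  | 0 => N
  | j + 1 => max ((c + 2) * (nn N j + 1)) (qb v (nn N j)) + nn N j + 1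

lemma nn_mono (N : ℕ) {i j : ℕ} (h : i ≤ j) : nn v c N i ≤ nn v c N j := by
  induction h with
  | refl => exact le_rfl
  | step _ ih => exact ih.trans (by rw [nn]; omega)

lemma le_nn (N j : ℕ) : N ≤ nn v c N j := nn_mono v c N (Nat.zero_le j)

/-- All trials before number `J` fail. -/
def TT (N J : ℕ) : Set Om := {ω | ∀ j < J, ω ∈ SS G v P c (nn v c N j)}

lemma tt_eq (hLOC : T_LOC) (hLEN : T_LEN) (hOLOC : T_OLOC) (N J : ℕ) (ω ω' : Om)
    (h : Agree ((c + 2) * (nn v c N J + 1)) ω ω') : ω ∈ TT G v P c N J ↔ ω' ∈ TT G v P c N J := by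
  unfold TT
  simp only [Set.mem_ofPred_eq]
  refine forall_congr' fun j => forall_congr' fun hj => ?_
  apply ss_eq G v P c hLOC hLEN hOLOC
  apply h.mono
  have h1 : max ((c + 2) * (nn v c N j + 1)) (qb v (nn v c N j)) ≤ nn v c N (j + 1) := by
    rw [nn]; omega
  have h2 := nn_mono v c N (show j + 1 ≤ J from hj)
  have h3 : nn v c N J ≤ (c + 2) * (nn v c N J + 1) := by nlinarith
  omega

lemma tt_le (hLOC : T_LOC) (hLEN : T_LEN) (hOLOC : T_OLOC) (hMIX : T_MIXP) (hFD : T_FD)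
    (hSF : T_SHORTFIN) (N J : ℕ) : coin (TT G v P c N J) ≤ (2⁻¹ : ℝ≥0∞) ^ J := by
  induction J with
  | zero => rw [pow_zero]; exact prob_le_one
  | succ J ih =>
    have h1 : TT G v P c N (J + 1) ⊆ TT G v P c N J ∩ SS G v P c (nn v c N J) := by
      intro ω hω
      exact ⟨fun j hj => hω j (hj.trans (Nat.lt_succ_self J)), hω J (Nat.lt_succ_self J)⟩
    have h2 := half G v P c hLOC hLEN hOLOC hMIX hFD hSF (nn v c N J) (TT G v P c N J)
      (fun ω ω' h => tt_eq G v P c hLOC hLEN hOLOC N J ω ω' h)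
    calc coin (TT G v P c N (J + 1)) ≤ _ := measure_mono h1
      _ ≤ 2⁻¹ * coin (TT G v P c N J) := h2
      _ ≤ 2⁻¹ * 2⁻¹ ^ J := by gcongr
      _ = 2⁻¹ ^ (J + 1) := by rw [pow_succ, mul_comm]

lemma ae_fail (hLOC : T_LOC) (hLEN : T_LEN) (hOLOC : T_OLOC) (hMIX : T_MIXP) (hFD : T_FD)
    (hSF : T_SHORTFIN) : ∀ᵐ ω ∂coin, ∀ N : ℕ, ∃ n, N ≤ n ∧ ω ∉ SS G v P c n := by
  rw [ae_all_iff]
  intro N
  have h0 : coin {ω | ∀ n, N ≤ n → ω ∈ SS G v P c n} = 0 := by
    apply le_antisymm _ zero_le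
    have h1 : ∀ J, coin {ω | ∀ n, N ≤ n → ω ∈ SS G v P c n} ≤ (2⁻¹ : ℝ≥0∞) ^ J := by
      intro J
      have hsub : {ω | ∀ n, N ≤ n → ω ∈ SS G v P c n} ⊆ TT G v P c N J := by
        intro ω hω j _
        exact hω _ (le_nn v c N j)
      exact (measure_mono hsub).trans (tt_le G v P c hLOC hLEN hOLOC hMIX hFD hSF N J)
    have h2 : Filter.Tendsto (fun J : ℕ => (2⁻¹ : ℝ≥0∞) ^ J) Filter.atTop (nhds 0) :=
      ENNReal.tendsto_pow_atTop_nhds_zero_of_lt_one (by
        rw [ENNReal.inv_lt_one]; exact ENNReal.one_lt_two)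
    exact ge_of_tendsto' h2 h1
  have h3 := measure_eq_zero_iff_ae_notMem.1 h0
  filter_upwards [h3] with ω hω
  by_contra hcon
  apply hω
  intro n hn
  by_contra hn2
  exact hcon ⟨n, hn, hn2⟩

end Beta

open Beta in
theorem beta (hALPHA : T_ALPHA) (hLOC : T_LOC) (hLEN : T_LEN) (hOLOC : T_OLOC) (hMIX : T_MIXP)
    (hFD : T_FD) (hSF : T_SHORTFIN) : T_BETA := by
  intro G v P c
  filter_upwards [hALPHA G P c, ae_fail G v P c hLOC hLEN hOLOC hMIX hFD hSF] with ω hω1 hω2
  intro hacc N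
  obtain ⟨n₀, hn₀⟩ := hω1
  obtain ⟨n, hn, hnS⟩ := hω2 (max N n₀)
  have hout : ∀ x : List Bool, x.length = n → (acc G ω v x ↔ out G P c n ω x) := by
    intro x hx
    rw [hacc x]
    have h1 := hn₀ x (by rw [hx]; exact (le_max_right _ _).trans hn) _ le_rfl
    rw [h1]
    unfold out
    rw [hx]
  refine ⟨n, (le_max_left _ _).trans hn, fun x hx => ?_⟩
  rw [hout x hx]
  by_contra hbad
  have he : ∃ x, bad G v P c n ω x := ⟨x, hx, hbad⟩
  apply hnS
  exact ⟨he, hout _ (xs_spec G v P c he).1⟩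

end Pool.Agent.RelM
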