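import Pool.Agent.RelM.Targets

/-!
# The maximal inequality (job CROSS)
-/

set_option autoImplicit false

namespace Pool.Agent.RelM

open MeasureTheory Set
open scoped ENNReal

/-- The maximal inequality. -/
theorem cross : T_CROSS := by
  intro Ω _ μ _ b X Y φ ε a hb hX hY hφ hbf hbs hXf hYf hX0 hY0 hε hs ha
  obtain ⟨D, hD⟩ : ∃ D : ℕ → Ω → ℝ, D = proc b X Y := ⟨_, rfl⟩
  have D0 : D 0 = Y := by rw [hD]; rfl
  have DS : ∀ t ω, D (t + 1) ω = X t (b t ω) ω := by intro t ω; rw [hD]; rfl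
  rw [← hD]
  have Dm : ∀ t, Measurable (D t) := by
    intro t
    cases t with
    | zero => rw [D0]; exact hY
    | succ t =>
      have h : D (t + 1) = fun ω => if b t ω = true then X t true ω else X t false ω := by
        funext ω
        rw [DS]
        cases b t ω <;> simp
      rw [h]
      exact Measurable.ite (hb t (measurableSet_singleton true)) (hX t true) (hX t false)
  have Dn : ∀ t ω, 0 ≤ D t ω := by
    intro t ω
    cases t with
    | zero => rw [D0]; exact hY0 ω
    | succ t => rw [DS]; exact hX0 _ _ _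
  have Df : ∀ s t, s ≤ t → ∀ ω, D s (φ t ω) = D s ω := by
    intro s t hst ω
    cases s with
    | zero => rw [D0]; exact hYf t ω
    | succ s =>
      rw [DS, DS, hbs s t (by omega), hXf s t (by omega)]
  -- the sets on which the process is still running
  obtain ⟨A, hA⟩ : ∃ A : ℕ → Set Ω, ∀ t, A t = {ω | Y ω ≤ a ∧ ∀ s < t, D s ω < 1 / 2 ∧
      (X s false ω + X s true ω) / 2 ≤ D s ω + ε s} := ⟨_, fun _ => rfl⟩
  have Am : ∀ t, MeasurableSet (A t) := by
    intro t
    rw [hA]
    have h : {ω | Y ω ≤ a ∧ ∀ s < t, D s ω < 1 / 2 ∧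
        (X s false ω + X s true ω) / 2 ≤ D s ω + ε s} = {ω | Y ω ≤ a} ∩ ⋂ s, ⋂ (_ : s < t),
        ({ω | D s ω < 1 / 2} ∩ {ω | (X s false ω + X s true ω) / 2 ≤ D s ω + ε s}) := by
      ext ω
      simp only [mem_ofPred_eq, mem_inter_iff, mem_iInter]
    rw [h]
    refine (measurableSet_le hY measurable_const).inter ?_
    refine MeasurableSet.iInter fun s => MeasurableSet.iInter fun _ => ?_
    refine (measurableSet_lt (Dm s) measurable_const).inter ?_
    exact measurableSet_le (((hX s false).add (hX s true)).div_const 2) ((Dm s).add_const (ε s))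
  have Af : ∀ t ω, φ t ω ∈ A (t + 1) ↔ ω ∈ A (t + 1) := by
    intro t ω
    simp only [hA, mem_ofPred_eq]
    rw [hYf t ω]
    refine and_congr_right fun _ => forall_congr' fun s => forall_congr' fun hst => ?_
    rw [Df s t (by omega), hXf s t (by omega), hXf s t (by omega)]
  obtain ⟨H, hH⟩ : ∃ H : ℕ → Set Ω, ∀ t, H t = A t ∩ {ω | 1 / 2 ≤ D t ω} := ⟨_, fun _ => rfl⟩
  have Hm : ∀ t, MeasurableSet (H t) := by
    intro t
    rw [hH]
    exact (Am t).inter (measurableSet_le measurable_const (Dm t))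
  obtain ⟨U, hU⟩ : ∃ U : ℕ → ℝ≥0∞, ∀ t, U t = ∫⁻ ω in A t, ENNReal.ofReal (D t ω) ∂μ :=
    ⟨_, fun _ => rfl⟩
  -- one step
  have hstep : ∀ t, U (t + 1) + 2⁻¹ * μ (H t) ≤ U t + ENNReal.ofReal (ε t) := by
    intro t
    have hsubA : A (t + 1) ⊆ A t := by
      intro ω hω
      rw [hA, mem_ofPred_eq] at hω ⊢
      exact ⟨hω.1, fun s hs => hω.2 s (by omega)⟩
    -- turning the bit over
    have hmX : Measurable (fun ω => X t (!b t ω) ω) := by
      have h : (fun ω => X t (!b t ω) ω) =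
          fun ω => if b t ω = true then X t false ω else X t true ω := by
        funext ω
        cases b t ω <;> simp
      rw [h]
      exact Measurable.ite (hb t (measurableSet_singleton true)) (hX t false) (hX t true)
    have h1 : U (t + 1) = ∫⁻ ω in A (t + 1), ENNReal.ofReal (X t (!b t ω) ω) ∂μ := by
      rw [hU, ← lintegral_indicator (Am (t + 1)), ← lintegral_indicator (Am (t + 1))]
      have h2 := (hφ t).lintegral_comp
        (f := (A (t + 1)).indicator fun ω => ENNReal.ofReal (D (t + 1) ω))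
        ((Dm (t + 1)).ennreal_ofReal.indicator (Am (t + 1)))
      rw [← h2]
      refine lintegral_congr fun ω => ?_
      by_cases hω : ω ∈ A (t + 1)
      · rw [indicator_of_mem hω, indicator_of_mem ((Af t ω).2 hω), DS, hbf, hXf t t le_rfl]
      · rw [indicator_of_notMem hω, indicator_of_notMem (fun h => hω ((Af t ω).1 h))]
    have h2 : U (t + 1) = ∫⁻ ω in A (t + 1), ENNReal.ofReal (X t (b t ω) ω) ∂μ := by
      rw [hU]
      exact lintegral_congr fun ω => by rw [DS]
    have hmX' : Measurable (fun ω => X t (b t ω) ω) := by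
      have h := Dm (t + 1)
      have h' : D (t + 1) = fun ω => X t (b t ω) ω := funext fun ω => DS t ω
      rwa [h'] at h
    have h3 : U (t + 1) + U (t + 1) =
        ∫⁻ ω in A (t + 1), ENNReal.ofReal (X t false ω + X t true ω) ∂μ := by
      nth_rewrite 1 [h2]
      nth_rewrite 1 [h1]
      rw [← lintegral_add_left hmX'.ennreal_ofReal]
      refine lintegral_congr fun ω => ?_
      rw [← ENNReal.ofReal_add (hX0 _ _ _) (hX0 _ _ _)]
      congr 1
      cases b t ω
      · rfl
      · exact add_comm _ _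
    have h4 : ∫⁻ ω in A (t + 1), ENNReal.ofReal (X t false ω + X t true ω) ∂μ ≤
        ∫⁻ ω in A (t + 1), (ENNReal.ofReal (D t ω) + ENNReal.ofReal (ε t)) * 2 ∂μ := by
      refine setLIntegral_mono (((Dm t).ennreal_ofReal.add_const _).mul_const _) ?_
      intro ω hω
      rw [hA, mem_ofPred_eq] at hω
      have h5 := (hω.2 t (by omega)).2
      rw [← ENNReal.ofReal_add (Dn t ω) (hε t)]
      have h6 : ENNReal.ofReal (D t ω + ε t) * 2 = ENNReal.ofReal ((D t ω + ε t) * 2) := by
        rw [ENNReal.ofReal_mul (add_nonneg (Dn t ω) (hε t)), ENNReal.ofReal_ofNat]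
      rw [h6]
      exact ENNReal.ofReal_le_ofReal (by linarith)
    have h5 : ∫⁻ ω in A (t + 1), (ENNReal.ofReal (D t ω) + ENNReal.ofReal (ε t)) * 2 ∂μ ≤
        ((∫⁻ ω in A (t + 1), ENNReal.ofReal (D t ω) ∂μ) + ENNReal.ofReal (ε t)) * 2 := by
      rw [lintegral_mul_const _ ((Dm t).ennreal_ofReal.add_const _),
        lintegral_add_right _ measurable_const]
      gcongr
      rw [setLIntegral_const]
      calc ENNReal.ofReal (ε t) * μ (A (t + 1)) ≤ ENNReal.ofReal (ε t) * 1 := by
            gcongr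
            exact prob_le_one
        _ = ENNReal.ofReal (ε t) := mul_one _
    have h6 : U (t + 1) ≤ (∫⁻ ω in A (t + 1), ENNReal.ofReal (D t ω) ∂μ) +
        ENNReal.ofReal (ε t) := by
      have h7 : U (t + 1) * 2 ≤ ((∫⁻ ω in A (t + 1), ENNReal.ofReal (D t ω) ∂μ) +
        ENNReal.ofReal (ε t)) * 2 := by
        rw [mul_two, h3]
        exact h4.trans h5
      exact (ENNReal.mul_le_mul_iff_left (by norm_num) (by norm_num)).1 h7
    have hdisj : Disjoint (A (t + 1)) (H t) := by
      rw [Set.disjoint_left]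
      intro ω h7 h8
      rw [hA, mem_ofPred_eq] at h7
      rw [hH] at h8
      have h9 := (h7.2 t (by omega)).1
      have h10 : 1 / 2 ≤ D t ω := h8.2
      linarith
    have h7 : (∫⁻ ω in A (t + 1), ENNReal.ofReal (D t ω) ∂μ) + 2⁻¹ * μ (H t) ≤ U t := by
      have h8 : 2⁻¹ * μ (H t) ≤ ∫⁻ ω in H t, ENNReal.ofReal (D t ω) ∂μ := by
        rw [← setLIntegral_const]
        refine setLIntegral_mono (Dm t).ennreal_ofReal ?_
        intro ω hω
        rw [hH] at hω
        have h9 : 1 / 2 ≤ D t ω := hω.2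
        calc (2⁻¹ : ℝ≥0∞) = ENNReal.ofReal (1 / 2) := by
              rw [one_div, ENNReal.ofReal_inv_of_pos (by norm_num), ENNReal.ofReal_ofNat]
          _ ≤ _ := ENNReal.ofReal_le_ofReal h9
      calc (∫⁻ ω in A (t + 1), ENNReal.ofReal (D t ω) ∂μ) + 2⁻¹ * μ (H t)
          ≤ (∫⁻ ω in A (t + 1), ENNReal.ofReal (D t ω) ∂μ) +
            ∫⁻ ω in H t, ENNReal.ofReal (D t ω) ∂μ := by gcongr
        _ = ∫⁻ ω in A (t + 1) ∪ H t, ENNReal.ofReal (D t ω) ∂μ :=
            (lintegral_union (Hm t) hdisj).symm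
        _ ≤ U t := by
            rw [hU]
            refine lintegral_mono_set (union_subset hsubA ?_)
            rw [hH]
            exact inter_subset_left
    calc U (t + 1) + 2⁻¹ * μ (H t) ≤ ((∫⁻ ω in A (t + 1), ENNReal.ofReal (D t ω) ∂μ) +
        ENNReal.ofReal (ε t)) + 2⁻¹ * μ (H t) := by gcongr
      _ = ((∫⁻ ω in A (t + 1), ENNReal.ofReal (D t ω) ∂μ) + 2⁻¹ * μ (H t)) +
        ENNReal.ofReal (ε t) := by ring
      _ ≤ U t + ENNReal.ofReal (ε t) := by gcongr
  -- summation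
  have hsum : ∀ T, U T + ∑ t ∈ Finset.range T, 2⁻¹ * μ (H t) ≤
      ENNReal.ofReal a + ∑ t ∈ Finset.range T, ENNReal.ofReal (ε t) := by
    intro T
    induction T with
    | zero =>
      simp only [Finset.range_zero, Finset.sum_empty, add_zero]
      rw [hU]
      calc ∫⁻ ω in A 0, ENNReal.ofReal (D 0 ω) ∂μ ≤ ∫⁻ _ in A 0, ENNReal.ofReal a ∂μ := by
            refine setLIntegral_mono measurable_const ?_
            intro ω hω
            rw [hA, mem_ofPred_eq] at hω
            rw [D0]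
            exact ENNReal.ofReal_le_ofReal hω.1
        _ = ENNReal.ofReal a * μ (A 0) := setLIntegral_const _ _
        _ ≤ ENNReal.ofReal a * 1 := by
            gcongr
            exact prob_le_one
        _ = ENNReal.ofReal a := mul_one _
    | succ T ih =>
      rw [Finset.sum_range_succ, Finset.sum_range_succ]
      calc U (T + 1) + (∑ t ∈ Finset.range T, 2⁻¹ * μ (H t) + 2⁻¹ * μ (H T))
          = (U (T + 1) + 2⁻¹ * μ (H T)) + ∑ t ∈ Finset.range T, 2⁻¹ * μ (H t) := by ring
        _ ≤ (U T + ENNReal.ofReal (ε T)) + ∑ t ∈ Finset.range T, 2⁻¹ * μ (H t) :=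
            add_le_add_left (hstep T) _
        _ = (U T + ∑ t ∈ Finset.range T, 2⁻¹ * μ (H t)) + ENNReal.ofReal (ε T) := by ring
        _ ≤ (ENNReal.ofReal a + ∑ t ∈ Finset.range T, ENNReal.ofReal (ε t)) +
            ENNReal.ofReal (ε T) := by gcongr
        _ = _ := by ring
  have htot : ∑' t, 2⁻¹ * μ (H t) ≤ ENNReal.ofReal (a + ∑' t, ε t) := by
    refine ENNReal.tsum_le_of_sum_range_le fun T => ?_
    calc ∑ t ∈ Finset.range T, 2⁻¹ * μ (H t) ≤ U T + ∑ t ∈ Finset.range T, 2⁻¹ * μ (H t) :=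
          le_add_self
      _ ≤ ENNReal.ofReal a + ∑ t ∈ Finset.range T, ENNReal.ofReal (ε t) := hsum T
      _ = ENNReal.ofReal (a + ∑ t ∈ Finset.range T, ε t) := by
          rw [← ENNReal.ofReal_sum_of_nonneg (fun t _ => hε t),
            ← ENNReal.ofReal_add ha (Finset.sum_nonneg fun t _ => hε t)]
      _ ≤ _ := by
          apply ENNReal.ofReal_le_ofReal
          have := hs.sum_le_tsum (Finset.range T) (fun t _ => hε t)
          linarith
  -- the event is covered
  have hcov : {ω | Y ω ≤ a ∧ (∀ t, (X t false ω + X t true ω) / 2 ≤ D t ω + ε t) ∧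
      ∃ t, 1 / 2 ≤ D t ω} ⊆ ⋃ t, H t := by
    rintro ω ⟨h1, h2, h3⟩
    classical
    refine mem_iUnion.2 ⟨Nat.find h3, ?_⟩
    rw [hH]
    refine ⟨?_, Nat.find_spec h3⟩
    rw [hA, mem_ofPred_eq]
    exact ⟨h1, fun s hs => ⟨not_le.1 (Nat.find_min h3 hs), h2 s⟩⟩
  calc μ {ω | Y ω ≤ a ∧ (∀ t, (X t false ω + X t true ω) / 2 ≤ D t ω + ε t) ∧
      ∃ t, 1 / 2 ≤ D t ω} ≤ μ (⋃ t, H t) := measure_mono hcov
    _ ≤ ∑' t, μ (H t) := measure_iUnion_le _
    _ = 2 * ∑' t, 2⁻¹ * μ (H t) := by
        rw [ENNReal.tsum_mul_left, ← mul_assoc, ENNReal.mul_inv_cancel (by norm_num) (by norm_num),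
          one_mul]
    _ ≤ 2 * ENNReal.ofReal (a + ∑' t, ε t) := by gcongr
    _ = ENNReal.ofReal (2 * (a + ∑' t, ε t)) := by
        rw [ENNReal.ofReal_mul (by norm_num), ENNReal.ofReal_ofNat]

end Pool.Agent.RelM
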