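import Pool.Agent.RelM.Defs

/-!
# The random oracle of the separation

The oracle has four parts. Part `00` holds the languages `R κ`: the bit of `x` in `R κ` is a fair
coin and is hidden behind a random key of length `lev κ x = (|x| + 2)^(κ + 2)`. Parts `01` and `10` give the
bit of `x` to those who pay `2 ^ ((|x| + 2)^(κ + 2))`. Part `11` is a fixed language `G`.
-/

set_option autoImplicit false

namespace Pool.Agent.RelM

open MeasureTheory Set
open scoped ENNReal

/-! ## The coins -/

/-- Names of coins: the coin κ, x, 0 is the bit of `x` in the language `R κ` and κ, x, i + 1 is the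
bit number `i` of the key of `x`. -/
abbrev Idx : Type := ℕ × List Bool × ℕ

/-- A sample: the values of all coins. -/
abbrev Om : Type := Idx → Bool

/-- A fair coin. -/
noncomputable def fair : Measure Bool := (PMF.uniformOfFintype Bool).toMeasure

/-- Independent fair coins. -/
noncomputable def coin : Measure Om := Measure.infinitePi fun _ => fair

instance : IsProbabilityMeasure fair := by unfold fair; infer_instance

instance : IsProbabilityMeasure coin := by unfold coin; infer_instance

/-- The length of the key of `x` in `R κ`. -/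
def lev (κ : ℕ) (x : List Bool) : ℕ := (x.length + 2) ^ (κ + 2)

/-- The language `R κ`. -/
def Rl (ω : Om) (κ : ℕ) : Lang := fun x => ω (κ, x, 0)

/-- The key of `x` in `R κ`. -/
def wit (ω : Om) (κ : ℕ) (x : List Bool) : List Bool :=
  (List.range (lev κ x)).map fun i => ω (κ, x, i + 1)

/-! ## The oracle -/

/-- The query about the word `y` as a key of `x`. -/
def wq (κ : ℕ) (x y : List Bool) : List Bool :=
  false :: false :: (List.replicate κ true ++ false :: pair x y)

/-- The query whether `m` is large enough. -/
def sq0 (κ : ℕ) (x : List Bool) (m : ℕ) : List Bool := false :: true :: triple m κ x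

/-- The query about the bit of `x`, paid by `m`. -/
def sq1 (κ : ℕ) (x : List Bool) (m : ℕ) : List Bool := true :: false :: triple m κ x

open Classical in
/-- The oracle, in which the bits of the pairs κ, x outside `S` are hidden. -/
noncomputable def orcV (S : ℕ → List Bool → Prop) (G : Lang) (ω : Om) : Lang := fun q => decide (
  (∃ κ x, S κ x ∧ q = wq κ x (wit ω κ x) ∧ Rl ω κ x = true) ∨
  (∃ κ x m, q = sq0 κ x m ∧ 2 ^ lev κ x ≤ m) ∨
  (∃ κ x m, S κ x ∧ q = sq1 κ x m ∧ 2 ^ lev κ x ≤ m ∧ Rl ω κ x = true) ∨
  (∃ u, q = true :: true :: u ∧ G u = true))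

/-- The oracle. -/
noncomputable def orc (G : Lang) (ω : Om) : Lang := orcV (fun _ _ => True) G ω

/-- The coins of the pairs κ, x with keys of length at most `m`. -/
def Short (m : ℕ) : Set Idx := {a | lev a.1 a.2.1 ≤ m ∧ a.2.2 ≤ lev a.1 a.2.1}

open Classical in
/-- The sample with the coins in `p` from `τ` and the others from `ω`. -/
noncomputable def mixP (p : Set Idx) (τ ω : Om) : Om := fun a => if a ∈ p then τ a else ω a

/-- The word `q` is asked by `P` at step `s`. -/
def Asks (O : Lang) (P : List Instr) (x : List Bool) (s : ℕ) (q : List Bool) : Prop :=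
  ∃ i l₀ l₁, P[(run O P x s).pc]? = some (Instr.ask i l₀ l₁) ∧ q = (run O P x s).st i

/-! ## The nondeterministic machines and their prediction -/

/-- The machine `v = (P, j, k)` accepts `x`. -/
def acc (G : Lang) (ω : Om) (v : List Instr × ℕ × ℕ) (x : List Bool) : Prop :=
  ∃ y : List Bool, y.length ≤ (x.length + 2) ^ v.2.1 ∧
    (run (orc G ω) v.1 (pair x y) ((x.length + 2) ^ v.2.2)).st 1 = [true]

open Classical in
/-- The more probable answer of `v` on `x`, given the coins in `Short m`. -/
noncomputable def pred (G : Lang) (v : List Instr × ℕ × ℕ) (m : ℕ) (τ : Om) (x : List Bool) :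
    Bool :=
  decide (2⁻¹ ≤ coin {ω | acc G (mixP (Short m) τ ω) v x})

/-- Bound for the lengths of the queries of `v` on inputs of length `n`. -/
def qb (v : List Instr × ℕ × ℕ) (n : ℕ) : ℕ := (n + 2) ^ (v.2.1 + v.2.2 + 3)

instance : Countable Instr := by
  let f : Instr → ℕ × ℕ × Bool × ℕ × ℕ × ℕ := fun i => match i with
    | Instr.push s b => (0, s, b, 0, 0, 0)
    | Instr.pop s l₀ l₁ l₂ => (1, s, false, l₀, l₁, l₂)
    | Instr.ask s l₀ l₁ => (2, s, false, l₀, l₁, 0)
  refine Function.Injective.countable (f := f) ?_
  intro i j h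
  cases i <;> cases j <;> simp_all [f]

/-- The codes: a nondeterministic machine `v` and a number `c`. -/
abbrev Code : Type := (List Instr × ℕ × ℕ) × ℕ

/-- An enumeration of the codes. -/
noncomputable def code : ℕ → Code := (exists_surjective_nat Code).choose

lemma code_surj : Function.Surjective code := (exists_surjective_nat Code).choose_spec

/-- The code number `e` is used for words of length `n`. -/
def Good (e n : ℕ) : Prop :=
  4 * qb (code e).1 n ≤ 2 ^ n ∧
    (n + 1) * 2 ^ (Short ((code e).2 * (n + 1))).ncard ≤ 2 ^ 2 ^ (n - 1)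

/-- The words of length `n` of a language. -/
def slice (A : Lang) (n : ℕ) : Fin (2 ^ n) → Bool := fun j => A (str (2 ^ n - 1 + j))

/-- The slices of length `n` that are predicted. -/
def V (G : Lang) (n : ℕ) : Set (Fin (2 ^ n) → Bool) :=
  {v | ∃ e ≤ n, Good e n ∧
    ∃ τ : Om, v = slice (pred G (code e).1 ((code e).2 * (n + 1)) τ) n}

/-! ## The density functions -/

/-- The slice `v` agrees with the beginning `w` of a characteristic sequence. -/
def Compat (n : ℕ) (w : List Bool) (v : Fin (2 ^ n) → Bool) : Prop :=
  ∀ (j : Fin (2 ^ n)) (b : Bool), w[2 ^ n - 1 + (j : ℕ)]? = some b → v j = b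

/-- The probability that the slice of length `n` of a random language that begins with `w` is in `A`. -/
noncomputable def pr {n : ℕ} (A : Set (Fin (2 ^ n) → Bool)) (w : List Bool) : ℝ :=
  ({v | v ∈ A ∧ Compat n w v}.ncard : ℝ) / 2 ^ (2 ^ n - (w.length - (2 ^ n - 1)))

/-- The density function number `k`. -/
noncomputable def dst (A : (n : ℕ) → Set (Fin (2 ^ n) → Bool)) (k : ℕ) (w : List Bool) : ℝ :=
  ∑' n : ℕ, if k + 1 ≤ n then pr (A n) w else 0

/-- Only slices of length at most `Nlim r w` matter for the first `r + 1` bits of the value. -/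
def Nlim (r : ℕ) (w : List Bool) : ℕ := Nat.log 2 (w.length + r + 2) + 1

/-- The numerator of the approximation. -/
noncomputable def num (G : Lang) (k r : ℕ) (w : List Bool) : ℕ :=
  ⌊(2 : ℝ) ^ (r + 1) * ∑ n ∈ Finset.Icc (k + 1) (Nlim r w), pr (V G n) w⌋₊

/-- The queries about the numerator. -/
def hq (a b : Bool) (j k r : ℕ) (w : List Bool) : List Bool :=
  a :: b :: (List.replicate j true ++ false :: triple k r w)

open Classical in
/-- The bits of the numerators of the approximations, for the fixed part `G`. -/
noncomputable def bitsOf (G : Lang) : Lang := fun u => decide (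
  (∃ j k r w, u = hq false false j k r w ∧ j < Nat.size (num G k r w)) ∨
  (∃ j k r w, u = hq false true j k r w ∧ Nat.testBit (num G k r w) j = true) ∨
  (∃ j k r w, u = hq true false j k r w ∧ j < r + 1))

/-- The fixed part of the oracle for words of length less than `L`. -/
noncomputable def Hn : ℕ → Lang
  | 0 => fun _ => false
  | L + 1 => fun u => if u.length = L then bitsOf (Hn L) u else Hn L u

/-- The fixed part of the oracle. -/
noncomputable def H : Lang := fun u => Hn (u.length + 1) u

/-! ## Crossing -/

/-- The process with start `Y` which at time `t + 1` is `X t (b t)`. -/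
def proc {Ω : Type} (b : ℕ → Ω → Bool) (X : ℕ → Bool → Ω → ℝ) (Y : Ω → ℝ) : ℕ → Ω → ℝ
  | 0 => Y
  | t + 1 => fun ω => X t (b t ω) ω

end Pool.Agent.RelM
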