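import Mathlib

/-!
# Resource-bounded measure relative to an oracle

Languages, machines with an oracle, the classes `NP`, `E`, `E_2` relative to an oracle, and the
null covers computable in the classes `p` and `p_2` relative to an oracle. For the empty oracle
`fun _ => false` these are the notions of the problem file.
-/

set_option autoImplicit false

namespace Pool.Agent.RelM

/-- A language over `{0,1}`, given by its characteristic function; oracles are languages. -/
abbrev Lang : Type := List Bool → Bool

/-- Instructions of a machine with finitely many stacks of bits (the top of a stack is the head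
of the list) and an oracle:
* `push s b` puts the bit `b` on stack `s` and goes to the next instruction;
* `pop s l₀ l₁ l₂` removes the top bit of stack `s` and goes to instruction `l₀` if it was `0`
  and to `l₁` if it was `1`; if the stack is empty it goes to `l₂`;
* `ask s l₀ l₁` asks the oracle about the word on stack `s` (the stack is not changed) and goes
  to `l₀` if the answer is no and to `l₁` if the answer is yes. -/
inductive Instr : Type
  | push (s : ℕ) (b : Bool)
  | pop (s l₀ l₁ l₂ : ℕ)
  | ask (s l₀ l₁ : ℕ)

/-- A configuration: the number of the next instruction and the contents of the stacks. -/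
structure Cfg : Type where
  pc : ℕ
  st : ℕ → List Bool

/-- One step of the program `P` with the oracle `O`. The machine halts when the number of the
next instruction is at least the length of `P`; a halted configuration does not change. -/
def step (O : Lang) (P : List Instr) (c : Cfg) : Cfg :=
  match P[c.pc]? with
  | none => c
  | some (Instr.push s b) => ⟨c.pc + 1, Function.update c.st s (b :: c.st s)⟩
  | some (Instr.pop s l₀ l₁ l₂) =>
    match c.st s with
    | [] => ⟨l₂, c.st⟩
    | false :: u => ⟨l₀, Function.update c.st s u⟩
    | true :: u => ⟨l₁, Function.update c.st s u⟩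
  | some (Instr.ask s l₀ l₁) => ⟨if O (c.st s) then l₁ else l₀, c.st⟩

/-- The configuration after `t` steps on input `x`: the machine starts at instruction `0` with `x`
on stack `0` and all other stacks empty. -/
def run (O : Lang) (P : List Instr) (x : List Bool) (t : ℕ) : Cfg :=
  (step O P)^[t] ⟨0, Function.update (fun _ => []) 0 x⟩

/-- The program `P` with oracle `O` halts on input `x` within `t` steps. -/
def Halts (O : Lang) (P : List Instr) (x : List Bool) (t : ℕ) : Prop :=
  P.length ≤ (run O P x t).pc

/-- `P` with oracle `O` decides `A` in time `T` (a function of the length of the input); the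
output is read on stack `1`. -/
def Decides (O : Lang) (P : List Instr) (A : Lang) (T : ℕ → ℕ) : Prop :=
  ∀ x : List Bool, Halts O P x (T x.length) ∧ (run O P x (T x.length)).st 1 = [A x]

/-- The class `E = DTIME(2^O(n))` relative to `O`. -/
def E1 (O : Lang) : Set Lang :=
  {A | ∃ (P : List Instr) (c : ℕ), Decides O P A (fun n => 2 ^ (c * (n + 1)))}

/-- The class `E_2`, the union of the classes `DTIME(2^(n^c))`, relative to `O`. -/
def E2 (O : Lang) : Set Lang :=
  {A | ∃ (P : List Instr) (c : ℕ), Decides O P A (fun n => 2 ^ ((n + 2) ^ c))}

/-- The code of a pair of words: every bit of `x` is preceded by a `1`, then come `0` and `y`. -/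
def pair (x y : List Bool) : List Bool := x.flatMap (fun b => [true, b]) ++ false :: y

/-- The class `NP` relative to `O`: polynomial-time verification of witnesses of polynomial
length. -/
def NP (O : Lang) : Set Lang :=
  {A | ∃ (P : List Instr) (j k : ℕ), ∀ x : List Bool,
    (∀ y : List Bool, y.length ≤ (x.length + 2) ^ j →
      Halts O P (pair x y) ((x.length + 2) ^ k)) ∧
    (A x = true ↔ ∃ y : List Bool, y.length ≤ (x.length + 2) ^ j ∧
      (run O P (pair x y) ((x.length + 2) ^ k)).st 1 = [true])}

/-- The code `1^k 0 1^r 0 w` of a triple: the numbers are given in unary. -/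
def triple (k r : ℕ) (w : List Bool) : List Bool :=
  List.replicate k true ++ false :: (List.replicate r true ++ false :: w)

/-- The number with the binary representation `l`, the most significant bit first. -/
def binVal (l : List Bool) : ℕ := l.foldl (fun a b => 2 * a + b.toNat) 0

/-- The dyadic rational given as output: stack `1` holds the numerator in binary, the number of
bits on stack `2` is the exponent of the denominator, and the sign is `-` if stack `3` is not
empty. -/
noncomputable def outVal (c : Cfg) : ℝ :=
  (if c.st 3 = [] then 1 else -1) * (binVal (c.st 1) : ℝ) / 2 ^ (c.st 2).length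

/-- `P` with oracle `O` computes, in time `T` of the length of its input, for all `k`, `r` (in
unary) and `w` a dyadic rational at distance at most `2^(-r)` from `d k w`. -/
def Approx (O : Lang) (P : List Instr) (T : ℕ → ℕ) (d : ℕ → List Bool → ℝ) : Prop :=
  ∀ (k r : ℕ) (w : List Bool),
    Halts O P (triple k r w) (T (triple k r w).length) ∧
    |outVal (run O P (triple k r w) (T (triple k r w).length)) - d k w| ≤ (1 / 2 : ℝ) ^ r

/-- A density function. -/
structure IsDensity (d : List Bool → ℝ) : Prop where
  nonneg : ∀ w, 0 ≤ d w
  avg : ∀ w, (d (w ++ [false]) + d (w ++ [true])) / 2 ≤ d w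

/-- The standard enumeration `s_0, s_1, s_2, ...` of `{0,1}^*` in length-lexicographic order:
`s_n` is the binary representation of `n + 1` without its leading `1`. -/
def str (n : ℕ) : List Bool := ((Nat.bits (n + 1)).dropLast).reverse

/-- The first `n` bits of the characteristic sequence of `A`. -/
def pre (A : Lang) (n : ℕ) : List Bool := (List.range n).map (fun i => A (str i))

/-- `d` is a null cover of the set `X` of languages. -/
def IsNullCover (d : ℕ → List Bool → ℝ) (X : Set Lang) : Prop :=
  ∀ k : ℕ, IsDensity (d k) ∧ d k [] ≤ (1 / 2 : ℝ) ^ k ∧ ∀ A ∈ X, ∃ n : ℕ, 1 ≤ d k (pre A n)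

/-- `X` has `p`-measure `0` relative to `O`: it has a null cover computable in polynomial time
relative to `O`. -/
def Null1 (O : Lang) (X : Set Lang) : Prop :=
  ∃ d : ℕ → List Bool → ℝ, IsNullCover d X ∧
    ∃ (P : List Instr) (c : ℕ), Approx O P (fun l => (l + 2) ^ c) d

/-- `X` has `p_2`-measure `0` relative to `O`: it has a null cover computable relative to `O` in
time `l^((log l)^O(1)) = 2^((log l)^O(1))`. -/
def Null2 (O : Lang) (X : Set Lang) : Prop :=
  ∃ d : ℕ → List Bool → ℝ, IsNullCover d X ∧
    ∃ (P : List Instr) (c : ℕ), Approx O P (fun l => 2 ^ ((Nat.log 2 l + 2) ^ c)) d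

end Pool.Agent.RelM
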