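import Pool.Agent.RelM.Targets

/-!
# The languages `R κ` are not covered (job NONNULL)
-/

set_option autoImplicit false

namespace Pool.Agent.RelM

open MeasureTheory Set
open scoped ENNReal

namespace NN

/-- The time bound. -/
def TT (c l : ℕ) : ℕ := 2 ^ ((Nat.log 2 l + 2) ^ c)

/-- The visible pairs: all but the pairs κ, str t' with t' at least t. -/
def SS (κ t : ℕ) : ℕ → List Bool → Prop := fun κ' x => ¬ (κ' = κ ∧ ∃ t', t ≤ t' ∧ x = str t')

/-- The value computed. -/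
noncomputable def val (S : ℕ → List Bool → Prop) (G : Lang) (P : List Instr) (c : ℕ)
    (I : List Bool) (ω : Om) : ℝ :=
  |outVal (run (orcV S G ω) P I (TT c I.length))|

/-- The input. -/
def inp (κ k r t : ℕ) (e : List Bool) (ω : Om) : List Bool :=
  triple k r (pre (Rl ω κ) t ++ e)

theorem pre_length (A : Lang) (n : ℕ) : (pre A n).length = n := by simp [pre]

theorem pre_succ (A : Lang) (n : ℕ) : pre A (n + 1) = pre A n ++ [A (str n)] := by
  unfold pre
  rw [List.range_succ, List.map_append]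
  rfl

theorem triple_length (k r : ℕ) (w : List Bool) :
    (triple k r w).length = k + r + w.length + 2 := by
  simp [triple]; omega

theorem inp_length (κ k r t : ℕ) (e : List Bool) (ω : Om) :
    (inp κ k r t e ω).length = k + r + (t + e.length) + 2 := by
  unfold inp
  rw [triple_length, List.length_append, pre_length]

theorem pre_congr (κ t : ℕ) (ω ω' : Om) (h : ∀ i < t, ω (κ, str i, 0) = ω' (κ, str i, 0)) :
    pre (Rl ω κ) t = pre (Rl ω' κ) t := by
  unfold pre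
  refine List.map_congr_left fun i hi => ?_
  exact h i (List.mem_range.mp hi)

/-! ### Densities -/

theorem dens_step {d : List Bool → ℝ} (hd : IsDensity d) (w : List Bool) (b : Bool) :
    d (w ++ [b]) ≤ 2 * d w := by
  have h1 := hd.avg w
  have h2 := hd.nonneg (w ++ [false])
  have h3 := hd.nonneg (w ++ [true])
  cases b <;> linarith

theorem dens_pre {d : List Bool → ℝ} (hd : IsDensity d) (A : Lang) (n : ℕ) :
    d (pre A n) ≤ 2 ^ n * d [] := by
  induction n with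
  | zero => simp [pre]
  | succ n ih =>
    rw [pre_succ]
    have := dens_step hd (pre A n) (A (str n))
    rw [pow_succ]
    linarith

/-! ### Locality -/

theorem run_congr (hLOC : T_LOC) (hLEN : T_LEN) (hOLOC : T_OLOC) (S : ℕ → List Bool → Prop)
    (G : Lang) (P : List Instr) (I : List Bool) (τ : ℕ) (ω ω' : Om)
    (h : ∀ a ∈ Short (I.length + τ), ω a = ω' a) :
    ∀ s ≤ τ, run (orcV S G ω') P I s = run (orcV S G ω) P I s :=
  hLOC (orcV S G ω) (orcV S G ω') P I τ fun s hs q hq =>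
    hOLOC S G G ω ω' (I.length + τ) h (fun _ _ => rfl) q ((hLEN _ _ _ _ _ hq).trans (by omega))

theorem val_meas (hLOC : T_LOC) (hLEN : T_LEN) (hOLOC : T_OLOC) (hFD : T_FD)
    (hSH : T_SHORTFIN) (S : ℕ → List Bool → Prop) (G : Lang) (P : List Instr) (c κ k r t : ℕ)
    (e : List Bool) : Measurable (fun ω => val S G P c (inp κ k r t e ω) ω) := by
  intro A _
  set l : ℕ := k + r + (t + e.length) + 2 with hl
  set F0 : Set Idx := (fun i : ℕ => ((κ, str i, 0) : Idx)) '' (Set.Iio t) with hF0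
  refine hFD (Short (l + TT c l) ∪ F0) ((hSH _).union ((Set.finite_Iio t).image _)) _ ?_
  intro ω ω' h
  have h1 : pre (Rl ω κ) t = pre (Rl ω' κ) t := by
    refine pre_congr κ t ω ω' fun i hi => ?_
    exact h _ (Or.inr ⟨i, hi, rfl⟩)
  have h2 : inp κ k r t e ω = inp κ k r t e ω' := by unfold inp; rw [h1]
  have hlen : (inp κ k r t e ω').length = l := inp_length κ k r t e ω'
  have h3 : val S G P c (inp κ k r t e ω) ω = val S G P c (inp κ k r t e ω') ω' := by
    rw [h2]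
    unfold val
    rw [hlen]
    have h4 := run_congr hLOC hLEN hOLOC S G P (inp κ k r t e ω') (TT c l) ω ω' (by
      rw [hlen]; exact fun a ha => h a (Or.inl ha)) (TT c l) le_rfl
    rw [h4]
  rw [Set.mem_preimage, Set.mem_preimage, h3]

/-! ### Hits -/

theorem lev_ge (hSL : T_STRLEN) (c t t' : ℕ) (h : t ≤ t') :
    (Nat.log 2 (t + 1) + 2) ^ (c + 3) ≤ lev (c + 1) (str t') := by
  unfold lev
  rw [hSL]
  have h1 : Nat.log 2 (t + 1) ≤ Nat.log 2 (t' + 1) := Nat.log_mono_right (by omega)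
  exact Nat.pow_le_pow_left (by omega) _

/-- The threshold: the estimates hold for all `t` such that `2^(c+1) ≤ (log (t+1) + 2)^3` and
`1 ≤ log (t+1)`. -/
def Big (c t : ℕ) : Prop := 2 ^ (c + 1) ≤ (Nat.log 2 (t + 1) + 2) ^ 3 ∧ 1 ≤ Nat.log 2 (t + 1)

theorem big_eventually (c : ℕ) : ∃ n₀ : ℕ, ∀ t, n₀ ≤ t → Big c t := by
  refine ⟨2 ^ (2 ^ (c + 1)), fun t ht => ?_⟩
  have h1 : 2 ^ (c + 1) ≤ Nat.log 2 (t + 1) := by
    rw [Nat.le_log_iff_pow_le (by norm_num) (by omega)]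
    omega
  have h2 : 1 ≤ 2 ^ (c + 1) := Nat.one_le_two_pow
  constructor
  · calc 2 ^ (c + 1) ≤ Nat.log 2 (t + 1) + 2 := by omega
      _ = (Nat.log 2 (t + 1) + 2) ^ 1 := (pow_one _).symm
      _ ≤ (Nat.log 2 (t + 1) + 2) ^ 3 := Nat.pow_le_pow_right (by omega) (by norm_num)
  · omega

theorem pow_ineq {c L : ℕ} (h1 : 2 ^ (c + 1) ≤ (L + 2) ^ 3) (h2 : 1 ≤ L) :
    2 * (L + 5) ^ c ≤ (L + 2) ^ (c + 3) := by
  calc 2 * (L + 5) ^ c ≤ 2 * (2 * (L + 2)) ^ c :=
        Nat.mul_le_mul_left _ (Nat.pow_le_pow_left (by omega) _)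
    _ = (L + 2) ^ c * 2 ^ (c + 1) := by rw [mul_pow, pow_succ]; ring
    _ ≤ (L + 2) ^ c * (L + 2) ^ 3 := Nat.mul_le_mul_left _ h1
    _ = (L + 2) ^ (c + 3) := by rw [pow_add]

theorem pow_ineq2 {c L : ℕ} (h2 : 1 ≤ L) : 9 * (L + 2) ≤ (L + 2) ^ (c + 3) := by
  calc 9 * (L + 2) ≤ (L + 2) ^ 2 * (L + 2) := Nat.mul_le_mul_right _ (by nlinarith)
    _ = (L + 2) ^ 3 := by ring
    _ ≤ (L + 2) ^ (c + 3) := Nat.pow_le_pow_right (by omega) (by omega)

/-- The probability to find a key. -/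
theorem hit_bound (hHIT : T_HIT) (hFD : T_FD) (hSL : T_STRLEN) (hSI : T_STRINJ)
    (G : Lang) (P : List Instr) (c k r t : ℕ) (e : List Bool) (hB : Big c t)
    (hlen : k + r + (t + e.length) + 2 ≤ 8 * (t + 1)) :
    coin {ω | ∃ s ≤ TT c (inp (c + 1) k r t e ω).length,
      run (orc G ω) P (inp (c + 1) k r t e ω) s ≠
        run (orcV (SS (c + 1) t) G ω) P (inp (c + 1) k r t e ω) s}
      ≤ ENNReal.ofReal (1 / ((t : ℝ) + 1) ^ 2) := by
  set l : ℕ := k + r + (t + e.length) + 2 with hl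
  set L : ℕ := Nat.log 2 (t + 1) with hL
  obtain ⟨hB1, hB2⟩ := hB
  rw [← hL] at hB1 hB2
  have hLlt : t + 1 < 2 ^ (L + 1) := Nat.lt_pow_succ_log_self (by norm_num) _
  have hlog : Nat.log 2 l ≤ L + 3 := by
    have h1 : l < 2 ^ (L + 4) := by
      calc l ≤ 8 * (t + 1) := hlen
        _ < 8 * 2 ^ (L + 1) := by omega
        _ = 2 ^ (L + 4) := by rw [show L + 4 = L + 1 + 3 by omega, pow_add]; ring
    have h2 : Nat.log 2 l < L + 4 := Nat.log_lt_of_lt_pow (by omega) h1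
    omega
  have hTT : TT c l ≤ 2 ^ ((L + 5) ^ c) :=
    Nat.pow_le_pow_right (by norm_num) (Nat.pow_le_pow_left (by omega) _)
  have hq1 := pow_ineq hB1 hB2
  have hq2 := pow_ineq2 (c := c) hB2
  set ℓ : ℕ := (L + 2) ^ (c + 3) with hℓ
  have hlenI : ∀ ω, (inp (c + 1) k r t e ω).length = l := fun ω => inp_length (c + 1) k r t e ω
  have hhit := hHIT G (SS (c + 1) t) P (inp (c + 1) k r t e) (TT c l) ℓ ?_ ?_ ?_ ?_
  · simp only [hlenI]
    refine hhit.trans ?_
    have h3 : (TT c l : ℝ≥0∞) ≤ 2 ^ ((L + 5) ^ c) := by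
      have : ((TT c l : ℕ) : ℝ≥0∞) ≤ ((2 ^ ((L + 5) ^ c) : ℕ) : ℝ≥0∞) := by exact_mod_cast hTT
      refine this.trans ?_
      push_cast
      exact le_rfl
    have h4 : (L + 5) ^ c + 2 * (L + 1) ≤ ℓ := by omega
    obtain ⟨m, hm⟩ := Nat.exists_eq_add_of_le h4
    calc (TT c l : ℝ≥0∞) * (2⁻¹ : ℝ≥0∞) ^ ℓ
        ≤ 2 ^ ((L + 5) ^ c) * (2⁻¹ : ℝ≥0∞) ^ ℓ := by gcongr
      _ ≤ 2 ^ ((L + 5) ^ c) * (2⁻¹ : ℝ≥0∞) ^ ((L + 5) ^ c + 2 * (L + 1)) := by
          gcongr 2 ^ ((L + 5) ^ c) * ?_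
          exact pow_le_pow_of_le_one (by positivity) (by simp) h4
      _ = (2⁻¹ : ℝ≥0∞) ^ (2 * (L + 1)) := by
          rw [pow_add, ← mul_assoc, ← mul_pow, ENNReal.mul_inv_cancel (by norm_num) (by norm_num),
            one_pow, one_mul]
      _ ≤ ENNReal.ofReal (1 / ((t : ℝ) + 1) ^ 2) := by
          have h5 : (2⁻¹ : ℝ≥0∞) = ENNReal.ofReal (1 / 2) := by
            rw [one_div, ENNReal.ofReal_inv_of_pos (by norm_num)]; simp
          rw [h5, ← ENNReal.ofReal_pow (by norm_num)]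
          apply ENNReal.ofReal_le_ofReal
          rw [one_div_pow, one_div, one_div]
          apply inv_anti₀ (by positivity)
          rw [mul_comm 2 (L + 1), pow_mul]
          apply pow_le_pow_left₀ (by positivity)
          exact_mod_cast hLlt.le
  · intro a
    refine hFD ((fun i : ℕ => ((c + 1, str i, 0) : Idx)) '' (Set.Iio t))
      ((Set.finite_Iio t).image _) _ ?_
    intro ω ω' h
    have h1 : inp (c + 1) k r t e ω = inp (c + 1) k r t e ω' := by
      unfold inp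
      rw [pre_congr (c + 1) t ω ω' fun i hi => h _ ⟨i, hi, rfl⟩]
    simp only [Set.mem_ofPred_eq, h1]
  · intro ω ω' h
    unfold inp
    rw [pre_congr (c + 1) t ω ω' fun i hi => h (c + 1) (str i) 0 ?_]
    rintro ⟨-, t', ht', hs⟩
    have := hSI hs
    omega
  · intro ω
    rw [hlenI]
    have h6 : l < 2 ^ (L + 4) := by
      calc l ≤ 8 * (t + 1) := hlen
        _ < 8 * 2 ^ (L + 1) := by omega
        _ = 2 ^ (L + 4) := by rw [show L + 4 = L + 1 + 3 by omega, pow_add]; ring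
    have h7 : 2 ^ (L + 4) ≤ 2 ^ (ℓ - 1) := Nat.pow_le_pow_right (by norm_num) (by omega)
    have h8 : TT c l ≤ 2 ^ (ℓ - 1) :=
      hTT.trans (Nat.pow_le_pow_right (by norm_num) (by omega))
    have h9 : 2 ^ ℓ = 2 ^ (ℓ - 1) + 2 ^ (ℓ - 1) := by
      rw [← two_mul, ← pow_succ']
      congr 1
      omega
    omega
  · intro κ x hx
    have hx' : κ = c + 1 ∧ ∃ t', t ≤ t' ∧ x = str t' := by
      unfold SS at hx
      exact not_not.mp hx
    obtain ⟨rfl, t', ht', rfl⟩ := hx'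
    exact lev_ge hSL c t t' ht'

/-! ### Turning one coin over -/

theorem inp_flip (hSI : T_STRINJ) (κ k r t t' : ℕ) (e : List Bool) (ω : Om) (v : Bool)
    (h : t ≤ t') :
    inp κ k r t e (Function.update ω (κ, str t', 0) v) = inp κ k r t e ω := by
  unfold inp
  rw [pre_congr κ t _ ω fun i hi => ?_]
  rw [Function.update_of_ne]
  intro hh
  have h1 : str i = str t' := (Prod.ext_iff.mp (Prod.ext_iff.mp hh).2).1
  have := hSI h1
  omega

theorem orc_flip (hOVIS : T_OVIS) (κ t t' : ℕ) (G : Lang) (ω : Om) (v : Bool)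
    (h : t ≤ t') :
    orcV (SS κ t) G (Function.update ω (κ, str t', 0) v) = orcV (SS κ t) G ω := by
  funext q
  refine hOVIS _ _ _ _ ?_ q
  intro κ' x i hS
  rw [Function.update_of_ne]
  intro hh
  have h1 : κ' = κ := (Prod.ext_iff.mp hh).1
  have h2 : x = str t' := (Prod.ext_iff.mp (Prod.ext_iff.mp hh).2).1
  exact hS ⟨h1, t', h, h2⟩

theorem val_flip (hSI : T_STRINJ) (hOVIS : T_OVIS) (G : Lang) (P : List Instr)
    (c κ k r t t' : ℕ) (e : List Bool) (ω : Om) (v : Bool) (h : t ≤ t') :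
    val (SS κ t) G P c (inp κ k r t e (Function.update ω (κ, str t', 0) v))
      (Function.update ω (κ, str t', 0) v) = val (SS κ t) G P c (inp κ k r t e ω) ω := by
  unfold val
  rw [inp_flip hSI κ k r t t' e ω v h, orc_flip hOVIS κ t t' G ω v h]

/-! ### The processes -/

/-- The values at time `i + 1`. -/
noncomputable def XX (G : Lang) (P : List Instr) (c j i : ℕ) (b : Bool) (ω : Om) : ℝ :=
  val (SS (c + 1) (j + i)) G P c (inp (c + 1) (2 * j) (j + i + 1 + 2 * j + 3) (j + i) [b] ω) ω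

/-- The value at time `0`. -/
noncomputable def YY (G : Lang) (P : List Instr) (c j : ℕ) (ω : Om) : ℝ :=
  val (SS (c + 1) j) G P c (inp (c + 1) (2 * j) (j + 2 * j + 3) j [] ω) ω

/-- The bits. -/
def bb (c j i : ℕ) (ω : Om) : Bool := ω (c + 1, str (j + i), 0)

/-- The errors. -/
noncomputable def ee (j i : ℕ) : ℝ := 2 * (1 / 2 : ℝ) ^ (j + i + 2 * j + 3)

theorem ee_sum (j : ℕ) : Summable (ee j) ∧ ∑' i, ee j i ≤ (1 / 2 : ℝ) ^ j := by
  have h1 : ∀ i, ee j i = (2 * (1 / 2 : ℝ) ^ (3 * j + 3)) * (1 / 2 : ℝ) ^ i := by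
    intro i
    unfold ee
    rw [mul_assoc, ← pow_add]
    congr 2
    ring
  have h2 : HasSum (ee j) ((2 * (1 / 2 : ℝ) ^ (3 * j + 3)) * 2) := by
    have := hasSum_geometric_two.mul_left (2 * (1 / 2 : ℝ) ^ (3 * j + 3))
    simpa only [← h1] using this
  refine ⟨h2.summable, ?_⟩
  rw [h2.tsum_eq]
  have h3 : (1 / 2 : ℝ) ^ (3 * j + 3) = (1 / 2 : ℝ) ^ j * (1 / 2) ^ (2 * j) * (1 / 8) := by
    rw [show 3 * j + 3 = j + 2 * j + 3 by ring, pow_add, pow_add]
    norm_num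
  have h4 : (1 / 2 : ℝ) ^ (2 * j) ≤ 1 := pow_le_one₀ (by norm_num) (by norm_num)
  have h5 : 0 ≤ (1 / 2 : ℝ) ^ j := by positivity
  have h6 : 0 ≤ (1 / 2 : ℝ) ^ (2 * j) := by positivity
  rw [h3]
  nlinarith [mul_le_mul_of_nonneg_left h4 h5]

theorem cross_bound (hCROSS : T_CROSS) (hFLIP : T_FLIP) (hFD : T_FD) (hOVIS : T_OVIS)
    (hOLOC : T_OLOC) (hLOC : T_LOC) (hLEN : T_LEN) (hSI : T_STRINJ) (hSH : T_SHORTFIN)
    (G : Lang) (P : List Instr) (c j : ℕ) :
    coin {ω | YY G P c j ω ≤ 2 * (1 / 2 : ℝ) ^ j ∧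
      (∀ i, (XX G P c j i false ω + XX G P c j i true ω) / 2 ≤
        proc (bb c j) (XX G P c j) (YY G P c j) i ω + ee j i) ∧
      ∃ i, 1 / 2 ≤ proc (bb c j) (XX G P c j) (YY G P c j) i ω}
      ≤ ENNReal.ofReal (6 * (1 / 2 : ℝ) ^ j) := by
  obtain ⟨hs1, hs2⟩ := ee_sum j
  refine (hCROSS Om inferInstance coin inferInstance (bb c j) (XX G P c j) (YY G P c j)
    (fun i ω => Function.update ω ((c + 1, str (j + i), 0) : Idx)
      (!ω (c + 1, str (j + i), 0))) (ee j) (2 * (1 / 2 : ℝ) ^ j)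
    ?_ ?_ ?_ ?_ ?_ ?_ ?_ ?_ ?_ ?_ ?_ hs1 (by positivity)).trans ?_
  · intro i
    exact measurable_pi_apply _
  · intro i b
    exact val_meas hLOC hLEN hOLOC hFD hSH _ _ _ _ _ _ _ _ _
  · exact val_meas hLOC hLEN hOLOC hFD hSH _ _ _ _ _ _ _ _ _
  · intro i
    exact hFLIP _
  · intro i ω
    simp [bb]
  · intro s t hst ω
    unfold bb
    rw [Function.update_of_ne]
    intro hh
    have h1 : str (j + s) = str (j + t) := (Prod.ext_iff.mp (Prod.ext_iff.mp hh).2).1
    have := hSI h1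
    omega
  · intro s t hst b ω
    exact val_flip hSI hOVIS G P c _ _ _ _ _ _ ω _ (by omega)
  · intro t ω
    exact val_flip hSI hOVIS G P c _ _ _ _ _ _ ω _ (by omega)
  · intro t i ω
    exact abs_nonneg _
  · intro ω
    exact abs_nonneg _
  · intro t
    unfold ee
    positivity
  · apply ENNReal.ofReal_le_ofReal
    linarith

/-- The event that hiding changes a run. -/
def Hit (G : Lang) (P : List Instr) (c k r t : ℕ) (e : List Bool) : Set Om :=
  {ω | ∃ s ≤ TT c (inp (c + 1) k r t e ω).length,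
      run (orc G ω) P (inp (c + 1) k r t e ω) s ≠
        run (orcV (SS (c + 1) t) G ω) P (inp (c + 1) k r t e ω) s}

theorem val_close {G : Lang} {P : List Instr} {c : ℕ} {ω : Om} {d : ℕ → List Bool → ℝ}
    (hd : ∀ k, IsDensity (d k))
    (hA : Approx (orc G ω) P (fun l => 2 ^ ((Nat.log 2 l + 2) ^ c)) d)
    (k r t : ℕ) (e : List Bool) (hh : ω ∉ Hit G P c k r t e) :
    |val (SS (c + 1) t) G P c (inp (c + 1) k r t e ω) ω - d k (pre (Rl ω (c + 1)) t ++ e)|
      ≤ (1 / 2 : ℝ) ^ r := by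
  have h1 : run (orc G ω) P (inp (c + 1) k r t e ω) (TT c (inp (c + 1) k r t e ω).length) =
      run (orcV (SS (c + 1) t) G ω) P (inp (c + 1) k r t e ω)
        (TT c (inp (c + 1) k r t e ω).length) := by
    by_contra hne
    exact hh ⟨_, le_rfl, hne⟩
  have h2 := (hA k r (pre (Rl ω (c + 1)) t ++ e)).2
  have h3 : |outVal (run (orc G ω) P (inp (c + 1) k r t e ω)
      (TT c (inp (c + 1) k r t e ω).length)) - d k (pre (Rl ω (c + 1)) t ++ e)|
      ≤ (1 / 2 : ℝ) ^ r := h2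
  rw [h1] at h3
  have h4 : 0 ≤ d k (pre (Rl ω (c + 1)) t ++ e) := (hd k).nonneg _
  unfold val
  have h5 := abs_abs_sub_abs_le (outVal (run (orcV (SS (c + 1) t) G ω) P (inp (c + 1) k r t e ω)
    (TT c (inp (c + 1) k r t e ω).length))) (d k (pre (Rl ω (c + 1)) t ++ e))
  rw [abs_of_nonneg h4] at h5
  exact h5.trans h3

theorem incl (G : Lang) (P : List Instr) (c j : ℕ) (hj : 1 ≤ j) :
    {ω | ∃ d : ℕ → List Bool → ℝ, IsNullCover d {Rl ω (c + 1)} ∧
      Approx (orc G ω) P (fun l => 2 ^ ((Nat.log 2 l + 2) ^ c)) d} ⊆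
    {ω | YY G P c j ω ≤ 2 * (1 / 2 : ℝ) ^ j ∧
      (∀ i, (XX G P c j i false ω + XX G P c j i true ω) / 2 ≤
        proc (bb c j) (XX G P c j) (YY G P c j) i ω + ee j i) ∧
      ∃ i, 1 / 2 ≤ proc (bb c j) (XX G P c j) (YY G P c j) i ω} ∪
    (Hit G P c (2 * j) (j + 2 * j + 3) j [] ∪
      ((⋃ i, Hit G P c (2 * j) (j + i + 1 + 2 * j + 3) (j + i) [false]) ∪
        ⋃ i, Hit G P c (2 * j) (j + i + 1 + 2 * j + 3) (j + i) [true])) := by
  rintro ω ⟨d, hN, hA⟩
  by_contra hcon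
  rw [Set.mem_union, Set.mem_union, Set.mem_union, Set.mem_iUnion, Set.mem_iUnion] at hcon
  push Not at hcon
  obtain ⟨hcr, hY, hF, hT⟩ := hcon
  apply hcr
  have hd : ∀ k, IsDensity (d k) := fun k => (hN k).1
  set R := Rl ω (c + 1) with hR
  have hYc : |YY G P c j ω - d (2 * j) (pre R j)| ≤ (1 / 2 : ℝ) ^ (j + 2 * j + 3) := by
    have := val_close hd hA (2 * j) (j + 2 * j + 3) j [] hY
    rw [List.append_nil] at this
    exact this
  have hX : ∀ i b, |XX G P c j i b ω - d (2 * j) (pre R (j + i) ++ [b])|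
      ≤ (1 / 2 : ℝ) ^ (j + i + 1 + 2 * j + 3) := by
    intro i b
    cases b
    · exact val_close hd hA (2 * j) (j + i + 1 + 2 * j + 3) (j + i) [false] (hF i)
    · exact val_close hd hA (2 * j) (j + i + 1 + 2 * j + 3) (j + i) [true] (hT i)
  have hproc : ∀ i, |proc (bb c j) (XX G P c j) (YY G P c j) i ω - d (2 * j) (pre R (j + i))|
      ≤ (1 / 2 : ℝ) ^ (j + i + 2 * j + 3) := by
    intro i
    cases i with
    | zero => exact hYc
    | succ i =>
      have h1 := hX i (bb c j i ω)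
      have h2 : pre R (j + (i + 1)) = pre R (j + i) ++ [bb c j i ω] := by
        rw [← add_assoc, pre_succ]
        rfl
      rw [h2]
      exact h1
  have hd0 : d (2 * j) [] ≤ (1 / 2 : ℝ) ^ (2 * j) := (hN (2 * j)).2.1
  have hdn : ∀ n ≤ j, d (2 * j) (pre R n) ≤ (1 / 2 : ℝ) ^ j := by
    intro n hn
    calc d (2 * j) (pre R n) ≤ 2 ^ n * d (2 * j) [] := dens_pre (hd _) R n
      _ ≤ 2 ^ n * (1 / 2 : ℝ) ^ (2 * j) := by gcongr
      _ ≤ 2 ^ j * (1 / 2 : ℝ) ^ (2 * j) := by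
          gcongr
          norm_num
      _ = (1 / 2 : ℝ) ^ j := by
          rw [two_mul, pow_add, ← mul_assoc, ← mul_pow]
          norm_num
  refine ⟨?_, ?_, ?_⟩
  · have h1 := (abs_le.mp hYc).2
    have h2 := hdn j le_rfl
    have h3 : (1 / 2 : ℝ) ^ (j + 2 * j + 3) ≤ (1 / 2 : ℝ) ^ j :=
      pow_le_pow_of_le_one (by norm_num) (by norm_num) (by omega)
    linarith
  · intro i
    have h1 := (abs_le.mp (hX i false)).2
    have h2 := (abs_le.mp (hX i true)).2
    have h3 := (abs_le.mp (hproc i)).1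
    have h4 := (hd (2 * j)).avg (pre R (j + i))
    have h5 : (1 / 2 : ℝ) ^ (j + i + 1 + 2 * j + 3) ≤ (1 / 2 : ℝ) ^ (j + i + 2 * j + 3) :=
      pow_le_pow_of_le_one (by norm_num) (by norm_num) (by omega)
    unfold ee
    linarith
  · obtain ⟨n, hn⟩ := (hN (2 * j)).2.2 R rfl
    have hlt : j < n := by
      by_contra hle
      have h1 := hdn n (by omega)
      have h2 : (1 / 2 : ℝ) ^ j ≤ (1 / 2 : ℝ) ^ 1 :=
        pow_le_pow_of_le_one (by norm_num) (by norm_num) hj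
      norm_num at h2
      norm_num at h1
      linarith
    obtain ⟨i, rfl⟩ := Nat.exists_eq_add_of_lt hlt
    refine ⟨i + 1, ?_⟩
    have h3 := (abs_le.mp (hproc (i + 1))).1
    rw [show j + (i + 1) = j + i + 1 by omega] at h3
    have h4 : (1 / 2 : ℝ) ^ (j + i + 1 + 2 * j + 3) ≤ (1 / 2 : ℝ) ^ 1 :=
      pow_le_pow_of_le_one (by norm_num) (by norm_num) (by omega)
    rw [pow_one] at h4
    linarith

end NN

open NN in
/-- Almost surely, no machine running in time `2 ^ ((log l + 2) ^ c)` covers `R (c + 1)`. -/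
theorem nonnull (hHIT : T_HIT) (hCROSS : T_CROSS) (hFLIP : T_FLIP) (hFD : T_FD) (hOVIS : T_OVIS)
    (hOLOC : T_OLOC) (hLOC : T_LOC) (hLEN : T_LEN) (hSL : T_STRLEN) (hSI : T_STRINJ)
    (hSH : T_SHORTFIN) : T_NONNULL := by
  intro G P c
  rw [ae_iff]
  simp only [not_not]
  obtain ⟨n₀, hn₀⟩ := big_eventually c
  set f : ℕ → ℝ≥0∞ := fun t => ENNReal.ofReal (1 / ((t : ℝ) + 1) ^ 2) with hf
  have hfs : ∑' t, f t ≠ ∞ := by
    have h1 : Summable (fun t : ℕ => 1 / ((t : ℝ) + 1) ^ 2) := by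
      have := (summable_nat_add_iff 1).mpr (Real.summable_one_div_nat_pow.mpr (by norm_num : 1 < 2))
      simpa using this
    rw [hf, ← ENNReal.ofReal_tsum_of_nonneg (fun t => by positivity) h1]
    exact ENNReal.ofReal_ne_top
  have hbound : ∀ j, max 1 n₀ ≤ j →
      coin {ω | ∃ d : ℕ → List Bool → ℝ, IsNullCover d {Rl ω (c + 1)} ∧
        Approx (orc G ω) P (fun l => 2 ^ ((Nat.log 2 l + 2) ^ c)) d} ≤
      ENNReal.ofReal (6 * (1 / 2 : ℝ) ^ j) + (f j + (∑' i, f (i + j) + ∑' i, f (i + j))) := by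
    intro j hj
    have hj1 : 1 ≤ j := le_trans (le_max_left _ _) hj
    have hj2 : n₀ ≤ j := le_trans (le_max_right _ _) hj
    refine (measure_mono (incl G P c j hj1)).trans ?_
    refine (measure_union_le _ _).trans (add_le_add
      (cross_bound hCROSS hFLIP hFD hOVIS hOLOC hLOC hLEN hSI hSH G P c j) ?_)
    refine (measure_union_le _ _).trans (add_le_add ?_ ?_)
    · exact hit_bound hHIT hFD hSL hSI G P c _ _ j [] (hn₀ j hj2) (by simp; omega)
    · refine (measure_union_le _ _).trans (add_le_add ?_ ?_)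
      · refine (measure_iUnion_le _).trans (ENNReal.tsum_le_tsum fun i => ?_)
        rw [add_comm i j]
        exact hit_bound hHIT hFD hSL hSI G P c _ _ (j + i) [false] (hn₀ _ (by omega))
          (by simp; omega)
      · refine (measure_iUnion_le _).trans (ENNReal.tsum_le_tsum fun i => ?_)
        rw [add_comm i j]
        exact hit_bound hHIT hFD hSL hSI G P c _ _ (j + i) [true] (hn₀ _ (by omega))
          (by simp; omega)
  have hlim : Filter.Tendsto (fun j : ℕ =>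
      ENNReal.ofReal (6 * (1 / 2 : ℝ) ^ j) + (f j + (∑' i, f (i + j) + ∑' i, f (i + j))))
      Filter.atTop (nhds 0) := by
    have h1 : Filter.Tendsto (fun j : ℕ => ENNReal.ofReal (6 * (1 / 2 : ℝ) ^ j)) Filter.atTop
        (nhds 0) := by
      have h2 : Filter.Tendsto (fun j : ℕ => 6 * (1 / 2 : ℝ) ^ j) Filter.atTop (nhds (6 * 0)) :=
        (tendsto_pow_atTop_nhds_zero_of_lt_one (by norm_num) (by norm_num)).const_mul 6
      have h3 := ENNReal.tendsto_ofReal h2
      simpa using h3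
    have h4 : Filter.Tendsto f Filter.atTop (nhds 0) :=
      ENNReal.tendsto_atTop_zero_of_tsum_ne_top hfs
    have h5 := ENNReal.tendsto_sum_nat_add f hfs
    simpa using h1.add (h4.add (h5.add h5))
  refine le_antisymm (ge_of_tendsto hlim ?_) zero_le
  filter_upwards [Filter.eventually_ge_atTop (max 1 n₀)] with j hj
  exact hbound j hj

end Pool.Agent.RelM

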