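import Pool.Agent.RelM.Targets

/-!
# Job PROB: coins
-/

set_option autoImplicit false

namespace Pool.Agent.RelM

open MeasureTheory Set
open scoped ENNReal

namespace PROB_

lemma mixP_pos {p : Set Idx} {τ ω : Om} {a : Idx} (h : a ∈ p) : mixP p τ ω a = τ a := by
  simp [mixP, h]

lemma mixP_neg {p : Set Idx} {τ ω : Om} {a : Idx} (h : a ∉ p) : mixP p τ ω a = ω a := by
  simp [mixP, h]

lemma mixP_meas (p : Set Idx) : Measurable fun z : Om × Om => mixP p z.1 z.2 := by
  refine measurable_pi_lambda _ fun i => ?_
  by_cases h : i ∈ p
  · simp only [mixP_pos h]; fun_prop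
  · simp only [mixP_neg h]; fun_prop

lemma fair_singleton (b : Bool) : fair {b} = 2⁻¹ := by
  unfold fair
  rw [PMF.toMeasure_apply_singleton _ _ (measurableSet_singleton b),
    PMF.uniformOfFintype_apply]
  simp

lemma fair_not : MeasurePreserving not fair fair := by
  refine ⟨by fun_prop, ?_⟩
  refine Measure.ext_of_singleton fun b => ?_
  rw [Measure.map_apply (by fun_prop) (measurableSet_singleton b)]
  have : not ⁻¹' {b} = {!b} := by
    ext c
    cases b <;> cases c <;> simp
  rw [this, fair_singleton, fair_singleton]

end PROB_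

open PROB_

theorem mixp : T_MIXP := by
  classical
  intro p
  refine ⟨mixP_meas p, ?_⟩
  unfold coin
  refine Measure.eq_infinitePi _ fun s t ht => ?_
  rw [Measure.map_apply (mixP_meas p) (MeasurableSet.pi s.countable_toSet fun i _ => ht i)]
  have h1 : (fun z : Om × Om => mixP p z.1 z.2) ⁻¹' (Set.pi s t) =
      (Set.pi (s.filter fun i => i ∈ p : Finset Idx) t) ×ˢ
        (Set.pi (s.filter fun i => ¬ i ∈ p : Finset Idx) t) := by
    ext z
    simp only [Set.mem_preimage, Set.mem_pi, Set.mem_prod, Finset.coe_filter,
      Set.mem_ofPred_eq, Finset.mem_coe]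
    constructor
    · intro h
      refine ⟨fun i hi => ?_, fun i hi => ?_⟩
      · have := h i hi.1
        rwa [mixP_pos hi.2] at this
      · have := h i hi.1
        rwa [mixP_neg hi.2] at this
    · rintro ⟨h1, h2⟩ i hi
      by_cases hp : i ∈ p
      · rw [mixP_pos hp]; exact h1 i ⟨hi, hp⟩
      · rw [mixP_neg hp]; exact h2 i ⟨hi, hp⟩
  rw [h1, Measure.prod_prod, Measure.infinitePi_pi _ fun i _ => ht i,
    Measure.infinitePi_pi _ fun i _ => ht i]
  exact Finset.prod_filter_mul_prod_filter_not s (fun i => i ∈ p) fun i => fair (t i)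

theorem flip_mp : T_FLIP := by
  classical
  intro a
  have hm : Measurable fun ω : Om => Function.update ω a (!ω a) := by
    refine measurable_pi_lambda _ fun i => ?_
    by_cases h : i = a
    · subst h
      simp only [Function.update_self]
      exact (measurable_of_countable not).comp (measurable_pi_apply i)
    · simp only [Function.update_of_ne h]
      fun_prop
  refine ⟨hm, ?_⟩
  conv_rhs => unfold coin
  refine Measure.eq_infinitePi _ fun s t ht => ?_
  rw [Measure.map_apply hm (MeasurableSet.pi s.countable_toSet fun i _ => ht i)]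
  have ht' : ∀ i, MeasurableSet (if i = a then not ⁻¹' t i else t i) := by
    intro i
    by_cases h : i = a
    · rw [if_pos h]; exact (measurable_of_countable not) (ht i)
    · rw [if_neg h]; exact ht i
  have h1 : (fun ω : Om => Function.update ω a (!ω a)) ⁻¹' (Set.pi s t) =
      Set.pi s (fun i => if i = a then not ⁻¹' t i else t i) := by
    ext ω
    simp only [Set.mem_preimage, Set.mem_pi]
    refine forall_congr' fun i => forall_congr' fun _ => ?_
    by_cases h : i = a
    · subst h
      simp
    · simp [h]
  rw [h1]
  unfold coin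
  rw [Measure.infinitePi_pi _ fun i _ => ht' i]
  refine Finset.prod_congr rfl fun i _ => ?_
  by_cases h : i = a
  · rw [if_pos h]
    exact fair_not.measure_preimage (ht i).nullMeasurableSet
  · rw [if_neg h]

theorem fd : T_FD := by
  classical
  intro F hF s hs
  have : Finite F := hF
  let r : Om → (F → Bool) := fun ω a => ω a
  have hr : Measurable r := by
    refine measurable_pi_lambda _ fun i => ?_
    exact measurable_pi_apply _
  have h1 : s = r ⁻¹' (r '' s) := by
    ext ω
    constructor
    · intro h
      exact ⟨ω, h, rfl⟩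
    · rintro ⟨ω', h', he⟩
      refine (hs ω' ω fun a ha => ?_).1 h'
      exact congrFun he ⟨a, ha⟩
  rw [h1]
  exact hr (Set.toFinite _).measurableSet

theorem wit_le : T_WIT := by
  classical
  intro κ x y
  have hsub : {ω : Om | wit ω κ x = y} ⊆
      Set.pi (((Finset.range (lev κ x)).image fun i => ((κ, x, i + 1) : Idx) : Finset Idx) :
        Set Idx) (fun a => {y.getD (a.2.2 - 1) false}) := by
    intro ω hω
    rw [Set.mem_pi]
    intro a ha
    rw [Finset.mem_coe, Finset.mem_image] at ha
    obtain ⟨i, hi, rfl⟩ := ha
    rw [Finset.mem_range] at hi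
    have hy : wit ω κ x = y := hω
    rw [Set.mem_singleton_iff, ← hy]
    unfold wit
    simp [List.getD, hi]
  refine (measure_mono hsub).trans (le_of_eq ?_)
  unfold coin
  rw [Measure.infinitePi_pi _ fun i _ => measurableSet_singleton _]
  simp only [fair_singleton]
  rw [Finset.prod_const, Finset.card_image_of_injective, Finset.card_range]
  intro i j hij
  simpa using hij

end Pool.Agent.RelM
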