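import Pool.Agent.RelM.Targets

/-!
# Counting the coins with short keys
-/

set_option autoImplicit false

namespace Pool.Agent.RelM

open Set

/-- The words of length at most `s`. -/
def wordsLe : ℕ → Finset (List Bool)
  | 0 => {[]}
  | s + 1 => insert [] ((wordsLe s).image (List.cons true) ∪ (wordsLe s).image (List.cons false))

lemma mem_wordsLe : ∀ (s : ℕ) (x : List Bool), x.length ≤ s → x ∈ wordsLe s
  | 0, x, h => by
    have : x = [] := List.length_eq_zero_iff.1 (Nat.le_zero.1 h)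
    simp [wordsLe, this]
  | s + 1, [], _ => by simp [wordsLe]
  | s + 1, b :: x, h => by
    have h1 := mem_wordsLe s x (by simpa using h)
    unfold wordsLe
    cases b
    · exact Finset.mem_insert_of_mem (Finset.mem_union_right _ (Finset.mem_image_of_mem _ h1))
    · exact Finset.mem_insert_of_mem (Finset.mem_union_left _ (Finset.mem_image_of_mem _ h1))

lemma card_wordsLe (s : ℕ) : (wordsLe s).card + 1 ≤ 2 ^ (s + 1) := by
  induction s with
  | zero => simp [wordsLe]
  | succ s ih =>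
    unfold wordsLe
    have h1 := Finset.card_insert_le ([] : List Bool)
      ((wordsLe s).image (List.cons true) ∪ (wordsLe s).image (List.cons false))
    have h2 := Finset.card_union_le ((wordsLe s).image (List.cons true))
      ((wordsLe s).image (List.cons false))
    have h3 : ((wordsLe s).image (List.cons true)).card ≤ (wordsLe s).card :=
      Finset.card_image_le
    have h4 : ((wordsLe s).image (List.cons false)).card ≤ (wordsLe s).card :=
      Finset.card_image_le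
    have h5 : 2 ^ (s + 1 + 1) = 2 * 2 ^ (s + 1) := by ring
    omega

lemma short_sub (m s : ℕ) (hs : m < (s + 1) ^ 2) :
    Short m ⊆ ((Finset.range (m + 1) ×ˢ (wordsLe s ×ˢ Finset.range (m + 1)) : Finset Idx) :
      Set Idx) := by
  rintro ⟨κ, x, i⟩ ⟨h1, h2⟩
  simp only [lev] at h1 h2
  simp only [Finset.coe_product, Set.mem_prod, Finset.mem_coe, Finset.mem_range]
  refine ⟨?_, ?_, ?_⟩
  · have h3 : 2 ^ (κ + 2) ≤ (x.length + 2) ^ (κ + 2) := Nat.pow_le_pow_left (by omega) _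
    have h4 : κ + 2 < 2 ^ (κ + 2) := Nat.lt_two_pow_self
    omega
  · refine mem_wordsLe s x ?_
    have h3 : (x.length + 2) ^ 2 ≤ (x.length + 2) ^ (κ + 2) :=
      Nat.pow_le_pow_right (by omega) (by omega)
    have h4 : (x.length + 2) ^ 2 < (s + 1) ^ 2 := by omega
    have h5 := lt_of_pow_lt_pow_left₀ 2 (by omega) h4
    omega
  · omega

theorem shortfin : T_SHORTFIN := by
  intro m
  exact (Finset.finite_toSet _).subset (short_sub m m (by nlinarith))

lemma short_card (m s : ℕ) (hs : m < (s + 1) ^ 2) :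
    (Short m).ncard ≤ (m + 1) ^ 2 * 2 ^ (s + 1) := by
  have h1 := Set.ncard_le_ncard (short_sub m s hs) (Finset.finite_toSet _)
  rw [Set.ncard_coe_finset, Finset.card_product, Finset.card_product, Finset.card_range] at h1
  have h2 := card_wordsLe s
  calc (Short m).ncard ≤ (m + 1) * ((wordsLe s).card * (m + 1)) := h1
    _ ≤ (m + 1) * (2 ^ (s + 1) * (m + 1)) := by
      gcongr
      omega
    _ = (m + 1) ^ 2 * 2 ^ (s + 1) := by ring

lemma cube_le (j : ℕ) (hj : 10 ≤ j) : j ^ 3 ≤ 2 ^ j := by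
  induction j, hj using Nat.le_induction with
  | base => norm_num
  | succ j hj ih =>
    have h1 : (j + 1) ^ 3 ≤ 2 * j ^ 3 := by nlinarith [Nat.pow_le_pow_left hj 2]
    calc (j + 1) ^ 3 ≤ 2 * j ^ 3 := h1
      _ ≤ 2 * 2 ^ j := by omega
      _ = 2 ^ (j + 1) := by ring

theorem shortcard : T_SHORTCARD := by
  intro c
  refine ⟨2 * (200 * (c + 1) ^ 2 + 10), ?_⟩
  intro n hn
  obtain ⟨j, hj⟩ : ∃ j, j = n / 2 := ⟨_, rfl⟩
  have hj1 : 2 * j ≤ n := by omega
  have hj2 : n ≤ 2 * j + 1 := by omega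
  have hj3 : 200 * (c + 1) ^ 2 + 10 ≤ j := by omega
  set m := c * (n + 1) with hm
  obtain ⟨s, hs⟩ : ∃ s, s = Nat.sqrt m := ⟨_, rfl⟩
  have hs1 : s * s ≤ m := by rw [hs]; exact Nat.sqrt_le m
  have hs2 : m < (s + 1) ^ 2 := by rw [hs, sq]; exact Nat.lt_succ_sqrt m
  have hc : (c + 1) ^ 2 = c * c + 2 * c + 1 := by ring
  have hs4 : 4 * s ≤ n := by
    by_contra hcon
    push Not at hcon
    have h1 : 16 * m < n * n := by
      rw [hm]
      have h2 : 16 * c + 17 ≤ n := by nlinarith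
      nlinarith
    nlinarith
  have hmj : m ≤ c * (2 * j + 2) := by
    rw [hm]
    exact Nat.mul_le_mul_left c (by omega)
  have hpoly : 4 * (n + (m + 1) ^ 2) ≤ 2 ^ j := by
    refine le_trans ?_ (cube_le j (by omega))
    have h1 : m + 1 ≤ (c + 1) * (3 * j) := by nlinarith
    have h2 : (m + 1) ^ 2 ≤ ((c + 1) * (3 * j)) ^ 2 := Nat.pow_le_pow_left h1 2
    have h3 : ((c + 1) * (3 * j)) ^ 2 = 9 * ((c + 1) ^ 2 * j ^ 2) := by ring
    have h4 : 200 * (c + 1) ^ 2 * j ^ 2 ≤ j * j ^ 2 := Nat.mul_le_mul_right _ (by omega)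
    have h5 : n ≤ (c + 1) ^ 2 * j ^ 2 := by
      have h6 : 1 ≤ (c + 1) ^ 2 := Nat.one_le_pow _ _ (by omega)
      have h7 : n ≤ j ^ 2 := by nlinarith
      calc n ≤ 1 * j ^ 2 := by omega
        _ ≤ _ := Nat.mul_le_mul_right _ h6
    have h8 : j ^ 3 = j * j ^ 2 := by ring
    have h9 : 200 * (c + 1) ^ 2 * j ^ 2 = 200 * ((c + 1) ^ 2 * j ^ 2) := by ring
    omega
  have hcard := short_card m s hs2
  have hexp : n + (Short m).ncard ≤ 2 ^ (n - 1) := by
    have h1 : n + (m + 1) ^ 2 * 2 ^ (s + 1) ≤ (n + (m + 1) ^ 2) * 2 ^ (s + 1) := by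
      rw [Nat.add_mul]
      have : 1 ≤ 2 ^ (s + 1) := Nat.one_le_two_pow
      nlinarith
    have h2 : 4 * ((n + (m + 1) ^ 2) * 2 ^ (s + 1)) ≤ 2 ^ j * 2 ^ (s + 1) := by
      rw [← mul_assoc]
      exact Nat.mul_le_mul_right _ hpoly
    have h3 : 2 ^ j * 2 ^ (s + 1) ≤ 2 ^ (n + 1) := by
      rw [← pow_add]
      exact Nat.pow_le_pow_right (by norm_num) (by omega)
    have h4 : 2 ^ (n + 1) = 4 * 2 ^ (n - 1) := by
      obtain ⟨p, hp⟩ : ∃ p, n = p + 1 := ⟨n - 1, by omega⟩
      rw [hp, Nat.add_sub_cancel]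
      ring
    omega
  calc (n + 1) * 2 ^ (Short m).ncard ≤ 2 ^ n * 2 ^ (Short m).ncard := by
        have : n < 2 ^ n := Nat.lt_two_pow_self
        exact Nat.mul_le_mul_right _ (by omega)
    _ = 2 ^ (n + (Short m).ncard) := by rw [pow_add]
    _ ≤ 2 ^ 2 ^ (n - 1) := Nat.pow_le_pow_right (by norm_num) hexp

end Pool.Agent.RelM
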